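import Pool.Agent.AAT.Defs
import Pool.Agent.AAT.Rad

/-!
# AAH-HgtR: pointwise recursion for the height
-/

set_option autoImplicit false

namespace Pool.AAT

open Finset
open scoped Classical

variable {α : Type} [Fintype α]

private theorem hr_mem_fr {p : α → α} {v w : α} : w ∈ fr p v ↔ ∃ i : ℕ, p^[i] w = v := by
  unfold fr
  rw [mem_filter]
  exact ⟨fun h => h.2, fun h => ⟨mem_univ _, h⟩⟩

private theorem hr_dep_spec {p : α → α} {v w : α} (hw : w ∈ fr p v) : p^[dep p v w] w = v := by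
  have h := hr_mem_fr.1 hw
  unfold dep
  rw [dif_pos h]
  exact Nat.find_spec h

omit [Fintype α] in
private theorem hr_dep_min {p : α → α} {v w : α} {j : ℕ} (hj : j < dep p v w) : p^[j] w ≠ v := by
  unfold dep at hj
  split_ifs at hj with h
  · exact Nat.find_min h hj
  · omega

omit [Fintype α] in
private theorem hr_dep_eq {p : α → α} {v w : α} {n : ℕ} (h1 : p^[n] w = v)
    (h2 : ∀ j < n, p^[j] w ≠ v) : dep p v w = n := by
  have h : ∃ i : ℕ, p^[i] w = v := ⟨n, h1⟩
  unfold dep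
  rw [dif_pos h]
  exact (Nat.find_eq_iff h).2 ⟨h1, fun m hm => h2 m hm⟩

private theorem hr_iter_mem {p : α → α} {v w : α} {j : ℕ} (hw : w ∈ fr p v)
    (hj : j ≤ dep p v w) : p^[j] w ∈ fr p v := by
  rw [hr_mem_fr]
  refine ⟨dep p v w - j, ?_⟩
  rw [← Function.iterate_add_apply, Nat.sub_add_cancel hj]
  exact hr_dep_spec hw

private theorem hr_dep_iter {p : α → α} {v w : α} {j : ℕ} (hw : w ∈ fr p v)
    (hj : j ≤ dep p v w) : dep p v (p^[j] w) = dep p v w - j := by
  refine hr_dep_eq ?_ fun i hi => ?_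
  · rw [← Function.iterate_add_apply, Nat.sub_add_cancel hj]
    exact hr_dep_spec hw
  · rw [← Function.iterate_add_apply]
    exact hr_dep_min (by omega)

private theorem hr_exists_top (p : α → α) (v : α) :
    ∃ z ∈ fr p v, dep p v z = hgt p v := by
  obtain ⟨z, hz, h⟩ := Finset.exists_mem_eq_sup (fr p v) ⟨v, mem_fr_self p v⟩
    (fun w => dep p v w)
  exact ⟨z, hz, h.symm⟩

theorem hgt_rec (S : Finset α) (v : α) (hv : v ∈ S) (q : α → α) (hq : q ∈ Forest S {v}) (D : ℕ)
    (hD : 1 ≤ D) :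
    (hgt q v : ℝ) ^ 2 ≤ 4 * (D : ℝ) ^ 2 +
      4 * ∑ w ∈ (S.erase v).filter (fun w => dep q v w = D), (hgt q w : ℝ) ^ 2 := by
  have hnn : ∀ w ∈ (S.erase v).filter (fun w => dep q v w = D), 0 ≤ (hgt q w : ℝ) ^ 2 :=
    fun w _ => by positivity
  have hsum := Finset.sum_nonneg hnn
  rcases le_or_gt (hgt q v) (2 * D) with h | h
  · have h1 : (hgt q v : ℝ) ≤ 2 * D := by exact_mod_cast h
    have h2 : (hgt q v : ℝ) ^ 2 ≤ (2 * (D : ℝ)) ^ 2 := pow_le_pow_left₀ (by positivity) h1 2
    nlinarith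
  · obtain ⟨z, hz, hzd⟩ := hr_exists_top q v
    set w := q^[hgt q v - D] z with hw
    have hle : hgt q v - D ≤ dep q v z := by omega
    have hwfr : w ∈ fr q v := hr_iter_mem hz hle
    have hwd : dep q v w = D := by
      rw [hw, hr_dep_iter hz hle, hzd]
      omega
    have hwv : w ≠ v := by
      intro h0
      have h1 : dep q v v = 0 := hr_dep_eq rfl fun j hj => absurd hj (by omega)
      rw [h0, h1] at hwd
      omega
    have hwS : w ∈ (S.erase v).filter (fun w => dep q v w = D) := by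
      rw [mem_filter, mem_erase]
      refine ⟨⟨hwv, ?_⟩, hwd⟩
      rw [← fr_forest S v hv q hq]
      exact hwfr
    have hzw : z ∈ fr q w := hr_mem_fr.2 ⟨_, rfl⟩
    have hdz : dep q w z = hgt q v - D := by
      refine hr_dep_eq rfl fun i hi h0 => ?_
      have h1 := hr_dep_iter (j := i) hz (by omega)
      rw [h0, hwd, hzd] at h1
      omega
    have hge : hgt q v - D ≤ hgt q w := by
      rw [← hdz]
      exact Finset.le_sup (f := fun x => dep q w x) hzw
    have h3 : (hgt q v : ℝ) ≤ 2 * hgt q w := by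
      have : hgt q v ≤ 2 * hgt q w := by omega
      exact_mod_cast this
    have h4 : (hgt q v : ℝ) ^ 2 ≤ (2 * (hgt q w : ℝ)) ^ 2 :=
      pow_le_pow_left₀ (by positivity) h3 2
    have h5 := Finset.single_le_sum hnn hwS
    have h6 : (0 : ℝ) ≤ (D : ℝ) ^ 2 := by positivity
    nlinarith

theorem exists_depth (S : Finset α) (v : α) (hv : v ∈ S) (q : α → α) (hq : q ∈ Forest S {v})
    (D : ℕ) (hD : D ≤ hgt q v) : ∃ w ∈ S, dep q v w = D := by
  obtain ⟨z, hz, hzd⟩ := hr_exists_top q v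
  have hle : hgt q v - D ≤ dep q v z := by omega
  refine ⟨q^[hgt q v - D] z, ?_, ?_⟩
  · rw [← fr_forest S v hv q hq]
    exact hr_iter_mem hz hle
  · rw [hr_dep_iter hz hle, hzd]
    omega

end Pool.AAT
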