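import Pool.Agent.AAT.Defs
import Pool.Agent.AAT.Rad

/-!
# AAH-DepS: depth and the factorisation at a vertex
-/

set_option autoImplicit false

namespace Pool.AAT

open Finset
open scoped Classical

variable {α : Type} [Fintype α]

private theorem deps_mem_fr {p : α → α} {v w : α} : w ∈ fr p v ↔ ∃ i : ℕ, p^[i] w = v := by
  unfold fr
  rw [mem_filter]
  exact ⟨fun h => h.2, fun h => ⟨mem_univ _, h⟩⟩

omit [Fintype α] in
private theorem deps_spec {p : α → α} {v w : α} (h : ∃ i : ℕ, p^[i] w = v) :
    p^[dep p v w] w = v := by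
  unfold dep
  rw [dif_pos h]
  exact Nat.find_spec h

omit [Fintype α] in
private theorem deps_min {p : α → α} {v w : α} {j : ℕ} (hj : j < dep p v w) : p^[j] w ≠ v := by
  unfold dep at hj
  split_ifs at hj with h
  · exact Nat.find_min h hj
  · omega

omit [Fintype α] in
private theorem deps_eq {p : α → α} {v w : α} {n : ℕ} (h1 : p^[n] w = v)
    (h2 : ∀ j < n, p^[j] w ≠ v) : dep p v w = n := by
  have h : ∃ i : ℕ, p^[i] w = v := ⟨n, h1⟩
  unfold dep
  rw [dif_pos h]
  exact (Nat.find_eq_iff h).2 ⟨h1, fun m hm => h2 m hm⟩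

private theorem deps_fix {V : Finset α} {r : α} {p : α → α} (hp : p ∈ Forest V {r}) : p r = r := by
  unfold Forest at hp
  rw [mem_filter] at hp
  exact hp.2.1 r (by simp)

omit [Fintype α] in
private theorem deps_fix_iter {r : α} {p : α → α} (h : p r = r) (n : ℕ) : p^[n] r = r :=
  Function.iterate_fixed h n

private theorem deps_reach {V : Finset α} {r v : α} {p : α → α} (hp : p ∈ Forest V {r})
    (hv : v ∈ V) : ∃ i : ℕ, p^[i] v = r := by
  unfold Forest at hp
  rw [mem_filter] at hp
  obtain ⟨i, hi⟩ := hp.2.2.2 v hv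
  exact ⟨i, mem_singleton.1 hi⟩

private theorem deps_aper {V : Finset α} {r v : α} {p : α → α} (hp : p ∈ Forest V {r})
    (hv : v ∈ V) (hvr : v ≠ r) (a : ℕ) (ha : 1 ≤ a) : p^[a] v ≠ v := by
  intro h
  obtain ⟨i, hi⟩ := deps_reach hp hv
  have h1 : p^[a * i] v = v := by
    rw [Function.iterate_mul]
    exact Function.iterate_fixed h i
  have h2 : i ≤ a * i := Nat.le_mul_of_pos_left i ha
  have h3 : p^[a * i] v = r := by
    have : a * i = (a * i - i) + i := by omega
    rw [this, Function.iterate_add_apply, hi]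
    exact deps_fix_iter (deps_fix hp) _
  exact hvr (h1.symm.trans h3)

private theorem deps_stay {V : Finset α} {r : α} {p : α → α} (hp : p ∈ Forest V {r}) (hr : r ∈ V)
    {x : α} (hx : x ∈ V) (j : ℕ) : p^[j] x ∈ V := by
  have h1 : ∀ y ∈ V, p y ∈ V := by
    intro y hy
    by_cases hyr : y = r
    · rw [hyr, deps_fix hp]
      exact hr
    · unfold Forest at hp
      rw [mem_filter] at hp
      exact hp.2.2.1 y (by rw [mem_sdiff, mem_singleton]; exact ⟨hy, hyr⟩)
  induction j with
  | zero => exact hx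
  | succ j ih =>
    rw [Function.iterate_succ_apply']
    exact h1 _ ih

theorem dep_split (V : Finset α) (r v : α) (hr : r ∈ V) (hv : v ∈ V) (hvr : v ≠ r) (p : α → α)
    (hp : p ∈ Forest V {r}) :
    dep p r v = dep (cut (V \ fr p v) r p) r (p v) + 1 := by
  have hreach := deps_reach hp hv
  have hspec := deps_spec hreach
  have hd : dep p r v ≠ 0 := by
    intro h0
    rw [h0] at hspec
    exact hvr hspec
  obtain ⟨d, hd'⟩ := Nat.exists_eq_succ_of_ne_zero hd
  rw [hd'] at hspec ⊢
  rw [Function.iterate_succ_apply] at hspec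
  have hmin : ∀ j < d, p^[j] (p v) ≠ r := by
    intro j hj
    rw [← Function.iterate_succ_apply]
    exact deps_min (by rw [hd']; omega)
  have hout : ∀ j, p^[j] (p v) ∉ fr p v := by
    intro j hj
    obtain ⟨i, hi⟩ := deps_mem_fr.1 hj
    rw [← Function.iterate_succ_apply, ← Function.iterate_add_apply] at hi
    exact deps_aper hp hv hvr _ (by omega) hi
  have hV : ∀ j, p^[j] (p v) ∈ V := by
    intro j
    rw [← Function.iterate_succ_apply]
    exact deps_stay hp hr hv _
  have hiter : ∀ j ≤ d, (cut (V \ fr p v) r p)^[j] (p v) = p^[j] (p v) := by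
    intro j
    induction j with
    | zero => intro _; rfl
    | succ j ih =>
      intro hj
      rw [Function.iterate_succ_apply', ih (by omega), Function.iterate_succ_apply']
      unfold cut
      refine if_pos ⟨?_, hmin j (by omega)⟩
      rw [mem_sdiff]
      exact ⟨hV j, hout j⟩
  congr 1
  symm
  refine deps_eq ?_ fun j hj => ?_
  · rw [hiter d le_rfl]
    exact hspec
  · rw [hiter j hj.le]
    exact hmin j hj

omit [Fintype α] in
private theorem deps_cut_exists (S : Finset α) (v : α) (p : α → α) (x : α) (i : ℕ) :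
    ∃ i' : ℕ, (cut S v p)^[i] x = p^[i'] x := by
  induction i with
  | zero => exact ⟨0, rfl⟩
  | succ i ih =>
    obtain ⟨i', hi'⟩ := ih
    rw [Function.iterate_succ_apply', hi']
    unfold cut
    split_ifs with h
    · exact ⟨i' + 1, (Function.iterate_succ_apply' p i' x).symm⟩
    · exact ⟨i', rfl⟩

theorem hgt_cut_of_mem (V : Finset α) (r v : α) (hr : r ∈ V) (hv : v ∈ V) (hvr : v ≠ r)
    (p : α → α) (hp : p ∈ Forest V {r}) (w : α) (hw : w ∈ fr p v) :
    hgt (cut (fr p v) v p) w = hgt p w := by
  by_cases hwv : w = v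
  · rw [hwv]
    exact hgt_cut p v
  obtain ⟨b, hb⟩ := deps_mem_fr.1 hw
  have hb1 : 1 ≤ b := by
    rcases Nat.eq_zero_or_pos b with h | h
    · rw [h] at hb
      exact absurd hb hwv
    · exact h
  have hne : ∀ x, (h : ∃ i : ℕ, p^[i] x = w) → ∀ j ≤ dep p w x,
      p^[j] x ∈ fr p v ∧ p^[j] x ≠ v := by
    intro x hx j hj
    have h1 := deps_spec hx
    have h2 : p^[dep p w x - j] (p^[j] x) = w := by
      rw [← Function.iterate_add_apply, Nat.sub_add_cancel hj]
      exact h1
    refine ⟨deps_mem_fr.2 ⟨b + (dep p w x - j), ?_⟩, fun h3 => ?_⟩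
    · rw [Function.iterate_add_apply, h2, hb]
    · rw [h3] at h2
      have h4 : p^[b + (dep p w x - j)] v = v := by
        rw [Function.iterate_add_apply, h2, hb]
      exact deps_aper hp hv hvr _ (by omega) h4
  have hiter : ∀ x, (∃ i : ℕ, p^[i] x = w) → ∀ j ≤ dep p w x,
      (cut (fr p v) v p)^[j] x = p^[j] x := by
    intro x hx j
    induction j with
    | zero => intro _; rfl
    | succ j ih =>
      intro hj
      rw [Function.iterate_succ_apply', ih (by omega), Function.iterate_succ_apply']
      unfold cut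
      exact if_pos (hne x hx j (by omega))
  have hfr : fr (cut (fr p v) v p) w = fr p w := by
    ext x
    rw [deps_mem_fr, deps_mem_fr]
    constructor
    · rintro ⟨i, hi⟩
      obtain ⟨i', hi'⟩ := deps_cut_exists (fr p v) v p x i
      exact ⟨i', by rw [← hi', hi]⟩
    · intro hx
      exact ⟨dep p w x, by rw [hiter x hx _ le_rfl]; exact deps_spec hx⟩
  unfold hgt
  rw [hfr]
  refine Finset.sup_congr rfl fun x hx => ?_
  have hx' := deps_mem_fr.1 hx
  refine deps_eq ?_ fun j hj => ?_
  · rw [hiter x hx' _ le_rfl]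
    exact deps_spec hx'
  · rw [hiter x hx' j hj.le]
    exact deps_min hj

end Pool.AAT
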