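import Pool.Agent.AAT.Defs
import Pool.Agent.AAT.Split
import Pool.Agent.AAT.Rad
import Pool.Agent.AAH.DepS

/-!
# AAH-JointH: joint law of depth and fringe

Sorting by the fringe of `w` and `fringe_split`.
-/

set_option autoImplicit false

namespace Pool.AAT

open Finset
open scoped Classical

variable {α : Type} [Fintype α]

private theorem jt_sub {S : Finset α} {v w : α} (hw : w ∈ S) (hwv : w ≠ v) {q : α → α}
    (hq : q ∈ Forest S {v}) : fr q w ⊆ S.erase v := by
  unfold Forest at hq
  rw [mem_filter] at hq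
  obtain ⟨_, h1, _, _⟩ := hq
  intro x hx
  unfold fr at hx
  rw [mem_filter] at hx
  obtain ⟨i, hi⟩ := hx.2
  rw [mem_erase]
  constructor
  · rintro rfl
    have h4 : q x = x := h1 x fun h => (mem_sdiff.1 h).2 (mem_singleton_self _)
    have h5 : q^[i] x = x := Function.iterate_fixed h4 i
    exact hwv (hi.symm.trans h5)
  · by_contra hxS
    have h4 : q x = x := h1 x fun h => hxS (mem_sdiff.1 h).1
    have h5 : q^[i] x = x := Function.iterate_fixed h4 i
    exact hxS ((h5.symm.trans hi) ▸ hw)

private theorem jt_inner (S : Finset α) (v : α) (hv : v ∈ S) (d : ℕ) (f : (α → α) → α → ℝ)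
    (S' : Finset α) (hS' : S' ⊆ S.erase v) (w : α) (hw : w ∈ S') :
    ∑ q ∈ Forest S {v}, (if fr q w = S' then
        (if dep q v w = d + 1 then f (cut (fr q w) w q) w else 0) else 0) =
      (∑ q' ∈ Forest S' {w}, f q' w) *
        ∑ q'' ∈ Forest (S \ S') {v}, (((S \ S').filter (fun y => dep q'' v y = d)).card : ℝ) := by
  have hSS : S' ⊆ S := hS'.trans (erase_subset _ _)
  have hvS : v ∉ S' := fun h => (mem_erase.1 (hS' h)).1 rfl
  have hwv : w ≠ v := by
    rintro rfl
    exact hvS hw
  have h0 := fringe_split S S' v w hv hw hSS hvS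
    (fun q' y q'' => if dep q'' v y = d then f q' w else 0)
  have h1 : ∑ q ∈ Forest S {v}, (if fr q w = S' then
        (if dep q v w = d + 1 then f (cut (fr q w) w q) w else 0) else 0) =
      ∑ q ∈ (Forest S {v}).filter (fun q => fr q w = S'),
        (if dep (cut (S \ S') v q) v (q w) = d then f (cut S' w q) w else 0) := by
    rw [sum_filter]
    refine sum_congr rfl fun q hq => ?_
    by_cases h : fr q w = S'
    · rw [if_pos h, if_pos h]
      have h2 := dep_split S v w hv (hSS hw) hwv q hq
      rw [h] at h2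
      rw [h]
      by_cases h3 : dep (cut (S \ S') v q) v (q w) = d
      · rw [if_pos h3, if_pos (by rw [h2, h3])]
      · rw [if_neg h3, if_neg (by rw [h2]; omega)]
    · rw [if_neg h, if_neg h]
  rw [h1, h0, sum_mul]
  refine sum_congr rfl fun q' _ => ?_
  rw [sum_comm, mul_sum]
  refine sum_congr rfl fun q'' _ => ?_
  rw [← sum_filter, sum_const, nsmul_eq_mul, mul_comm]

theorem joint (S : Finset α) (v : α) (hv : v ∈ S) (d : ℕ) (f : (α → α) → α → ℝ) :
    ∑ q ∈ Forest S {v}, ∑ w ∈ (S.erase v).filter (fun w => dep q v w = d + 1),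
        f (cut (fr q w) w q) w =
      ∑ S' ∈ (S.erase v).powerset, ∑ w ∈ S', (∑ q' ∈ Forest S' {w}, f q' w) *
        ∑ q'' ∈ Forest (S \ S') {v}, (((S \ S').filter (fun y => dep q'' v y = d)).card : ℝ) := by
  have h1 : ∑ q ∈ Forest S {v}, ∑ w ∈ (S.erase v).filter (fun w => dep q v w = d + 1),
        f (cut (fr q w) w q) w =
      ∑ q ∈ Forest S {v}, ∑ w ∈ S.erase v, ∑ S' ∈ (S.erase v).powerset, (if fr q w = S' then
        (if dep q v w = d + 1 then f (cut (fr q w) w q) w else 0) else 0) := by
    refine sum_congr rfl fun q hq => ?_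
    rw [sum_filter]
    refine sum_congr rfl fun w hw => ?_
    rw [mem_erase] at hw
    rw [sum_ite_eq, if_pos (mem_powerset.2 (jt_sub hw.2 hw.1 hq))]
  have h2 : ∑ q ∈ Forest S {v}, ∑ w ∈ S.erase v, ∑ S' ∈ (S.erase v).powerset, (if fr q w = S' then
        (if dep q v w = d + 1 then f (cut (fr q w) w q) w else 0) else 0) =
      ∑ S' ∈ (S.erase v).powerset, ∑ w ∈ S.erase v, ∑ q ∈ Forest S {v}, (if fr q w = S' then
        (if dep q v w = d + 1 then f (cut (fr q w) w q) w else 0) else 0) := by
    rw [sum_comm]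
    have h3 : ∀ w ∈ S.erase v, ∑ q ∈ Forest S {v}, ∑ S' ∈ (S.erase v).powerset, (if fr q w = S' then
        (if dep q v w = d + 1 then f (cut (fr q w) w q) w else 0) else 0) =
        ∑ S' ∈ (S.erase v).powerset, ∑ q ∈ Forest S {v}, (if fr q w = S' then
        (if dep q v w = d + 1 then f (cut (fr q w) w q) w else 0) else 0) := fun w _ => sum_comm
    rw [sum_congr rfl h3, sum_comm]
  rw [h1, h2]
  refine sum_congr rfl fun S' hS' => ?_
  rw [mem_powerset] at hS'
  rw [← sum_subset hS' (f := fun w => ∑ q ∈ Forest S {v}, (if fr q w = S' then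
        (if dep q v w = d + 1 then f (cut (fr q w) w q) w else 0) else 0))]
  · exact sum_congr rfl fun w hw => jt_inner S v hv d f S' hS' w hw
  · intro w _ hw
    refine sum_eq_zero fun q _ => ?_
    rw [if_neg]
    rintro rfl
    exact hw (mem_fr_self q w)

end Pool.AAT
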