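import Mathlib

/-!
# AAH-NumP: a Gaussian bound for falling factorials

PLAN. Induction on `j`: `(M-1).descFactorial (j+1) = (M-1-j) * (M-1).descFactorial j`
(`Nat.descFactorial_succ`) and `(M - 1 - j : ℕ) / M ≤ 1 - (j+1)/M` if `j + 1 ≤ M` (and `= 0` otherwise)
`≤ exp(-(j+1)/M)` (`Real.add_one_le_exp`); the exponents add up to `j (j+1)/(2 M)`.
-/

set_option autoImplicit false

namespace Pool.AAT

open Finset

theorem desc_le (M j : ℕ) (hM : 1 ≤ M) :
    ((M - 1).descFactorial j : ℝ) / (M : ℝ) ^ j ≤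
      Real.exp (-((j : ℝ) * ((j : ℝ) + 1) / (2 * (M : ℝ)))) := by
  have hM0 : (0 : ℝ) < M := by exact_mod_cast hM
  induction j with
  | zero => simp
  | succ j ih =>
    have h1 : ((M - 1 - j : ℕ) : ℝ) / M ≤ Real.exp (-(((j : ℝ) + 1) / M)) := by
      by_cases hj : j + 1 ≤ M
      · have h2 : ((M - 1 - j : ℕ) : ℝ) = M - (j + 1) := by
          rw [Nat.sub_sub, Nat.cast_sub (by omega)]
          push_cast
          ring
        rw [h2, sub_div, div_self hM0.ne']
        have h3 := Real.add_one_le_exp (-(((j : ℝ) + 1) / M))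
        linarith
      · have h2 : M - 1 - j = 0 := by omega
        rw [h2, Nat.cast_zero, zero_div]
        exact (Real.exp_pos _).le
    have h4 : (((M - 1).descFactorial (j + 1) : ℕ) : ℝ) / (M : ℝ) ^ (j + 1) =
        (((M - 1 - j : ℕ) : ℝ) / M) * (((M - 1).descFactorial j : ℝ) / (M : ℝ) ^ j) := by
      rw [Nat.descFactorial_succ, Nat.cast_mul, pow_succ', mul_div_mul_comm]
    have h5 : -((((j + 1 : ℕ) : ℝ)) * (((j + 1 : ℕ) : ℝ) + 1) / (2 * (M : ℝ))) =
        -(((j : ℝ) + 1) / M) + -((j : ℝ) * ((j : ℝ) + 1) / (2 * (M : ℝ))) := by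
      push_cast
      field_simp
      ring
    rw [h4, h5, Real.exp_add]
    exact mul_le_mul h1 ih (by positivity) (Real.exp_pos _).le

end Pool.AAT
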