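import Mathlib

/-!
# AAH-NumS: a numerical sum
-/

set_option autoImplicit false

namespace Pool.AAT

open Finset

private theorem step_sqrt (k : ℕ) (hk : 1 ≤ k) :
    (Real.sqrt k)⁻¹ ≤ 2 * (Real.sqrt k - Real.sqrt ((k - 1 : ℕ) : ℝ)) := by
  have hk0 : (0 : ℝ) < k := by exact_mod_cast hk
  have hb : 0 < Real.sqrt k := Real.sqrt_pos.2 hk0
  have ha : 0 ≤ Real.sqrt ((k - 1 : ℕ) : ℝ) := Real.sqrt_nonneg _
  have hb2 : Real.sqrt k ^ 2 = k := Real.sq_sqrt hk0.le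
  have ha2 : Real.sqrt ((k - 1 : ℕ) : ℝ) ^ 2 = ((k - 1 : ℕ) : ℝ) := Real.sq_sqrt (Nat.cast_nonneg _)
  have hc : ((k - 1 : ℕ) : ℝ) = k - 1 := by
    rw [Nat.cast_sub hk, Nat.cast_one]
  rw [hc] at ha2 ha ⊢
  rw [inv_le_iff_one_le_mul₀ hb]
  nlinarith [sq_nonneg (Real.sqrt k - Real.sqrt ((k : ℝ) - 1))]

/-- the bounded increasing function -/
private noncomputable def hf (D : ℕ) (k : ℕ) : ℝ := Real.sqrt k / (Real.sqrt k + D)

private noncomputable def uf (D : ℕ) (k : ℕ) : ℝ := 8 * D / (Real.sqrt k * (8 * k + (D : ℝ) ^ 2))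

private theorem uf_le (D k : ℕ) (hD : 1 ≤ D) (hk : 1 ≤ k) : uf D k ≤ 2 / k := by
  have hk0 : (0 : ℝ) < k := by exact_mod_cast hk
  have hD0 : (0 : ℝ) < D := by exact_mod_cast hD
  have hb : 0 < Real.sqrt k := Real.sqrt_pos.2 hk0
  have hb2 : Real.sqrt k ^ 2 = k := Real.sq_sqrt hk0.le
  unfold uf
  rw [div_le_div_iff₀ (by positivity) hk0]
  have h1 : 4 * Real.sqrt k * D ≤ 8 * k + (D : ℝ) ^ 2 := by
    nlinarith [sq_nonneg ((D : ℝ) - 2 * Real.sqrt k)]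
  calc 8 * (D : ℝ) * k = 2 * (Real.sqrt k * (4 * Real.sqrt k * D)) := by
        linear_combination (-8 * (D : ℝ)) * hb2
    _ ≤ 2 * (Real.sqrt k * (8 * k + (D : ℝ) ^ 2)) := by
        refine mul_le_mul_of_nonneg_left (mul_le_mul_of_nonneg_left h1 hb.le) (by norm_num)

private theorem uf_le' (D k : ℕ) (hD : 1 ≤ D) (hk : 1 ≤ k) :
    uf D k ≤ 32 * (hf D k - hf D (k - 1)) := by
  have hk0 : (0 : ℝ) < k := by exact_mod_cast hk
  have hD0 : (0 : ℝ) < D := by exact_mod_cast hD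
  have h1 := step_sqrt k hk
  have hb : 0 < Real.sqrt k := Real.sqrt_pos.2 hk0
  have ha : 0 ≤ Real.sqrt ((k - 1 : ℕ) : ℝ) := Real.sqrt_nonneg _
  have hb2 : Real.sqrt k ^ 2 = k := Real.sq_sqrt hk0.le
  have hab : Real.sqrt ((k - 1 : ℕ) : ℝ) ≤ Real.sqrt k :=
    Real.sqrt_le_sqrt (by exact_mod_cast Nat.sub_le k 1)
  unfold uf hf
  set a := Real.sqrt ((k - 1 : ℕ) : ℝ)
  set b := Real.sqrt (k : ℝ)
  have h2 : b / (b + D) - a / (a + D) = D * (b - a) / ((a + D) * (b + D)) := by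
    field_simp
    ring
  rw [h2]
  have h3 : (a + D) * (b + D) ≤ 2 * (8 * k + (D : ℝ) ^ 2) := by
    rw [← hb2]
    nlinarith [sq_nonneg (b - D), mul_nonneg ha hb.le, mul_le_mul_of_nonneg_right hab hb.le,
      mul_le_mul_of_nonneg_right hab hD0.le, sq_nonneg b]
  have h4 : b⁻¹ / 2 ≤ b - a := by linarith
  have h5 : (D : ℝ) * (b⁻¹ / 2) / (2 * (8 * k + (D : ℝ) ^ 2)) ≤ D * (b - a) / ((a + D) * (b + D)) := by
    refine div_le_div₀ (mul_nonneg hD0.le (by linarith [inv_pos.2 hb])) ?_ (by positivity) h3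
    exact mul_le_mul_of_nonneg_left h4 hD0.le
  calc 8 * (D : ℝ) / (b * (8 * k + (D : ℝ) ^ 2)) =
        32 * ((D : ℝ) * (b⁻¹ / 2) / (2 * (8 * k + (D : ℝ) ^ 2))) := by
        field_simp
        norm_num
    _ ≤ _ := mul_le_mul_of_nonneg_left h5 (by norm_num)

private theorem tf_le (D k : ℕ) (hD : 1 ≤ D) (hk : 1 ≤ k) :
    ((k : ℝ)) ^ (-((3 : ℝ) / 2)) * ((D : ℝ) * Real.exp (-((D : ℝ) ^ 2 / (8 * (k : ℝ))))) ≤ uf D k := by
  have hk0 : (0 : ℝ) < k := by exact_mod_cast hk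
  have hD0 : (0 : ℝ) < D := by exact_mod_cast hD
  have hb : 0 < Real.sqrt k := Real.sqrt_pos.2 hk0
  have h1 : (k : ℝ) ^ (-((3 : ℝ) / 2)) = ((k : ℝ) * Real.sqrt k)⁻¹ := by
    rw [Real.rpow_neg hk0.le, show ((3 : ℝ) / 2) = 1 + 1 / 2 by norm_num, Real.rpow_add hk0,
      Real.rpow_one, Real.sqrt_eq_rpow]
  have h2 : Real.exp (-((D : ℝ) ^ 2 / (8 * (k : ℝ)))) ≤ (1 + (D : ℝ) ^ 2 / (8 * (k : ℝ)))⁻¹ := by
    rw [Real.exp_neg]
    refine inv_anti₀ (by positivity) ?_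
    have := Real.add_one_le_exp ((D : ℝ) ^ 2 / (8 * (k : ℝ)))
    linarith
  rw [h1]
  calc ((k : ℝ) * Real.sqrt k)⁻¹ * ((D : ℝ) * Real.exp (-((D : ℝ) ^ 2 / (8 * (k : ℝ))))) ≤
      ((k : ℝ) * Real.sqrt k)⁻¹ * ((D : ℝ) * (1 + (D : ℝ) ^ 2 / (8 * (k : ℝ)))⁻¹) := by
        refine mul_le_mul_of_nonneg_left (mul_le_mul_of_nonneg_left h2 hD0.le) (by positivity)
    _ = uf D k := by
        unfold uf
        field_simp

theorem num_sum : ∃ B : ℝ, 0 < B ∧ ∀ m D : ℕ, 1 ≤ D → 1 ≤ m →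
    ∑ m' ∈ Ico 1 m, (m' : ℝ) ^ (-((1 : ℝ) / 2)) * ((m : ℝ) - m') ^ (-((3 : ℝ) / 2)) *
      ((D : ℝ) * Real.exp (-((D : ℝ) ^ 2 / (8 * ((m : ℝ) - m'))))) ≤
      B * (m : ℝ) ^ (-((1 : ℝ) / 2)) := by
  refine ⟨72, by norm_num, ?_⟩
  intro m D hD hm
  have hm0 : (0 : ℝ) < m := by exact_mod_cast hm
  have hD0 : (0 : ℝ) < D := by exact_mod_cast hD
  have hsm : 0 < Real.sqrt m := Real.sqrt_pos.2 hm0
  have hsm2 : Real.sqrt m ^ 2 = m := Real.sq_sqrt hm0.le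
  have hr : ∀ x : ℝ, 0 ≤ x → x ^ (-((1 : ℝ) / 2)) = (Real.sqrt x)⁻¹ := by
    intro x hx
    rw [Real.rpow_neg hx, Real.sqrt_eq_rpow]
  rw [hr _ hm0.le]
  have hterm : ∀ m' ∈ Ico 1 m, (m' : ℝ) ^ (-((1 : ℝ) / 2)) * ((m : ℝ) - m') ^ (-((3 : ℝ) / 2)) *
      ((D : ℝ) * Real.exp (-((D : ℝ) ^ 2 / (8 * ((m : ℝ) - m'))))) ≤
      2 * (Real.sqrt m)⁻¹ * uf D (m - m') + 4 / m * (Real.sqrt m')⁻¹ := by
    intro m' hm'
    rw [mem_Ico] at hm'
    have h0 : (0 : ℝ) < m' := by exact_mod_cast hm'.1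
    have hc : (m : ℝ) - m' = ((m - m' : ℕ) : ℝ) := by
      rw [Nat.cast_sub hm'.2.le]
    have hk1 : 1 ≤ m - m' := by omega
    rw [hr _ h0.le, hc, mul_assoc]
    have h1 := tf_le D (m - m') hD hk1
    have h2 : (0 : ℝ) ≤ uf D (m - m') := by
      unfold uf
      positivity
    have hs : 0 < Real.sqrt m' := Real.sqrt_pos.2 h0
    refine (mul_le_mul_of_nonneg_left h1 (inv_nonneg.2 hs.le)).trans ?_
    rcases le_or_gt ((m : ℝ) / 2) m' with h3 | h3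
    · have h4 : (Real.sqrt m')⁻¹ ≤ 2 * (Real.sqrt m)⁻¹ := by
        rw [← div_eq_mul_inv, inv_le_comm₀ hs (by positivity), inv_div]
        have h5 : Real.sqrt m / 2 = Real.sqrt (m / 4) := by
          rw [Real.sqrt_div hm0.le, show (4 : ℝ) = 2 ^ 2 by norm_num, Real.sqrt_sq (by norm_num)]
        rw [h5]
        exact Real.sqrt_le_sqrt (by linarith)
      have h6 : (0 : ℝ) ≤ 4 / m * (Real.sqrt m')⁻¹ := by positivity
      have h7 := mul_le_mul_of_nonneg_right h4 h2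
      linarith
    · have h4 : uf D (m - m') ≤ 4 / m := by
        refine (uf_le D (m - m') hD hk1).trans ?_
        rw [← hc, div_le_div_iff₀ (by linarith) hm0]
        linarith
      have h6 : (0 : ℝ) ≤ 2 * (Real.sqrt m)⁻¹ * uf D (m - m') := by positivity
      have h7 := mul_le_mul_of_nonneg_left h4 (inv_nonneg.2 hs.le)
      linarith [mul_comm (Real.sqrt m')⁻¹ (4 / (m : ℝ))]
  refine (Finset.sum_le_sum hterm).trans ?_
  rw [Finset.sum_add_distrib, ← Finset.mul_sum, ← Finset.mul_sum]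
  have hS1 : ∑ m' ∈ Ico 1 m, uf D (m - m') ≤ 32 := by
    have h1 : ∑ m' ∈ Ico 1 m, uf D (m - m') = ∑ k ∈ Ico 1 m, uf D k := by
      rw [Finset.sum_Ico_reflect (fun k => uf D k) 1 (by omega : m ≤ m + 1)]
      congr 1
      congr 1
      omega
    rw [h1]
    have h2 : ∑ k ∈ Ico 1 m, uf D k ≤ ∑ k ∈ Ico 1 m, 32 * (hf D k - hf D (k - 1)) :=
      Finset.sum_le_sum fun k hk => uf_le' D k hD (mem_Ico.1 hk).1
    refine h2.trans ?_
    rw [← Finset.mul_sum, Finset.sum_Ico_eq_sum_range]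
    have h3 : ∀ i ∈ range (m - 1), hf D (1 + i) - hf D (1 + i - 1) = hf D (i + 1) - hf D i := by
      intro i _
      rw [Nat.add_sub_cancel_left, add_comm 1 i]
    rw [Finset.sum_congr rfl h3, Finset.sum_range_sub (hf D)]
    have h4 : hf D (m - 1) ≤ 1 := by
      unfold hf
      exact div_le_one_of_le₀ (by linarith) (by positivity)
    have h5 : 0 ≤ hf D 0 := by
      unfold hf
      positivity
    linarith
  have hS2 : ∑ m' ∈ Ico 1 m, (Real.sqrt (m' : ℝ))⁻¹ ≤ 2 * Real.sqrt m := by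
    have h2 : ∑ k ∈ Ico 1 m, (Real.sqrt (k : ℝ))⁻¹ ≤
        ∑ k ∈ Ico 1 m, 2 * (Real.sqrt (k : ℝ) - Real.sqrt ((k - 1 : ℕ) : ℝ)) :=
      Finset.sum_le_sum fun k hk => step_sqrt k (mem_Ico.1 hk).1
    refine h2.trans ?_
    rw [← Finset.mul_sum, Finset.sum_Ico_eq_sum_range]
    have h3 : ∀ i ∈ range (m - 1), Real.sqrt ((1 + i : ℕ) : ℝ) - Real.sqrt ((1 + i - 1 : ℕ) : ℝ) =
        Real.sqrt ((i + 1 : ℕ) : ℝ) - Real.sqrt ((i : ℕ) : ℝ) := by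
      intro i _
      rw [Nat.add_sub_cancel_left, add_comm 1 i]
    rw [Finset.sum_congr rfl h3, Finset.sum_range_sub (fun i : ℕ => Real.sqrt (i : ℝ))]
    have h4 : Real.sqrt ((m - 1 : ℕ) : ℝ) ≤ Real.sqrt m :=
      Real.sqrt_le_sqrt (by exact_mod_cast Nat.sub_le m 1)
    simp only [Nat.cast_zero, Real.sqrt_zero, sub_zero]
    linarith
  have h1 : 2 * (Real.sqrt m)⁻¹ * ∑ m' ∈ Ico 1 m, uf D (m - m') ≤ 2 * (Real.sqrt m)⁻¹ * 32 :=
    mul_le_mul_of_nonneg_left hS1 (by positivity)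
  have h2 : 4 / (m : ℝ) * ∑ m' ∈ Ico 1 m, (Real.sqrt (m' : ℝ))⁻¹ ≤ 4 / m * (2 * Real.sqrt m) :=
    mul_le_mul_of_nonneg_left hS2 (by positivity)
  have h3 : 4 / (m : ℝ) * (2 * Real.sqrt m) = 8 * (Real.sqrt m)⁻¹ := by
    field_simp
    linear_combination 8 * hsm2
  linarith

end Pool.AAT
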