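import Pool.Agent.AAT.Defs
import Pool.Agent.AAT.TtLe
import Pool.Agent.AAH.NumP
import Pool.Agent.AAH.NumS

/-!
# AAH-NumH: the numerical recursion inequality
-/

set_option autoImplicit false

namespace Pool.AAT

open Finset
open scoped Classical

private theorem na_half {x : ℝ} (hx : 0 < x) : x ^ (-((1 : ℝ) / 2)) = (Real.sqrt x)⁻¹ := by
  rw [Real.rpow_neg hx.le, Real.sqrt_eq_rpow]

private theorem na_three {x : ℝ} (hx : 0 < x) : x ^ (-((3 : ℝ) / 2)) = (x * Real.sqrt x)⁻¹ := by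
  rw [Real.rpow_neg hx.le, Real.sqrt_eq_rpow]
  congr 1
  have h : (3 : ℝ) / 2 = 1 + 1 / 2 := by norm_num
  rw [h, Real.rpow_add hx, Real.rpow_one]

private theorem nb_tt {C : ℝ} {m m' : ℕ} (hm1 : 1 ≤ m') (hm2 : m' < m)
    (h : tt m m' ≤ C * m * Real.sqrt ((m : ℝ) / ((m' : ℝ) ^ 3 * ((m : ℝ) - m')))) :
    (m' : ℝ) * (tt m m' / ((m - m' : ℕ) : ℝ)) ≤
      C * m * Real.sqrt m * ((m' : ℝ) ^ (-((1 : ℝ) / 2)) * ((m : ℝ) - m') ^ (-((3 : ℝ) / 2))) := by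
  obtain ⟨x, hx⟩ : ∃ x : ℝ, x = (m' : ℝ) := ⟨_, rfl⟩
  obtain ⟨y, hy⟩ : ∃ y : ℝ, y = (m : ℝ) - m' := ⟨_, rfl⟩
  have hx0 : 0 < x := by
    rw [hx]
    exact_mod_cast hm1
  have hy0 : 0 < y := by
    rw [hy]
    have : (m' : ℝ) < m := by exact_mod_cast hm2
    linarith
  have hcast : ((m - m' : ℕ) : ℝ) = y := by
    rw [Nat.cast_sub hm2.le, hy]
  rw [← hy, ← hx] at h
  rw [hcast, ← hy, ← hx, na_half hx0, na_three hy0]
  have hm0 : (0 : ℝ) ≤ m := Nat.cast_nonneg m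
  have e1 : Real.sqrt ((m : ℝ) / (x ^ 3 * y)) = Real.sqrt m / (x * Real.sqrt x * Real.sqrt y) := by
    have h4 : x ^ 3 * y = x ^ 2 * (x * y) := by ring
    rw [h4, Real.sqrt_div hm0, Real.sqrt_mul (by positivity), Real.sqrt_mul hx0.le,
      Real.sqrt_sq hx0.le]
    ring
  rw [e1] at h
  have hsx : 0 < Real.sqrt x := Real.sqrt_pos.2 hx0
  have hsy : 0 < Real.sqrt y := Real.sqrt_pos.2 hy0
  have h2 : x * (tt m m' / y) ≤ x * (C * m * (Real.sqrt m / (x * Real.sqrt x * Real.sqrt y)) / y) :=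
    mul_le_mul_of_nonneg_left (div_le_div_of_nonneg_right h hy0.le) hx0.le
  refine h2.trans (le_of_eq ?_)
  field_simp

private theorem nc_gauss {A : ℝ} {m m' D : ℕ} (hm2 : m' < m) (hD : 2 ≤ D)
    (hAD : A ^ 2 * m ≤ (D : ℝ) ^ 2) :
    ((m - m' - 1).descFactorial (D - 1) : ℝ) / ((m - m' : ℕ) : ℝ) ^ (D - 1) ≤
      Real.exp (-(A ^ 2 / 8)) * Real.exp (-((D : ℝ) ^ 2 / (8 * ((m : ℝ) - m')))) := by
  refine (desc_le (m - m') (D - 1) (by omega)).trans ?_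
  rw [← Real.exp_add]
  refine Real.exp_le_exp.2 ?_
  obtain ⟨y, hy⟩ : ∃ y : ℝ, y = (m : ℝ) - m' := ⟨_, rfl⟩
  have hy0 : 0 < y := by
    rw [hy]
    have : (m' : ℝ) < m := by exact_mod_cast hm2
    linarith
  have hym : y ≤ m := by
    rw [hy]
    have : (0 : ℝ) ≤ m' := Nat.cast_nonneg _
    linarith
  have hcast : ((m - m' : ℕ) : ℝ) = y := by
    rw [Nat.cast_sub hm2.le, hy]
  have hDc : ((D - 1 : ℕ) : ℝ) = (D : ℝ) - 1 := by
    rw [Nat.cast_sub (by omega), Nat.cast_one]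
  rw [hcast, hDc, ← hy]
  have hD2 : (2 : ℝ) ≤ D := by exact_mod_cast hD
  have e1 : A ^ 2 / 8 ≤ (D : ℝ) ^ 2 / (8 * y) := by
    rw [div_le_div_iff₀ (by norm_num) (by positivity)]
    have : A ^ 2 * y ≤ A ^ 2 * m := mul_le_mul_of_nonneg_left hym (sq_nonneg A)
    nlinarith
  have e2 : (D : ℝ) ^ 2 / (8 * y) + (D : ℝ) ^ 2 / (8 * y) ≤ ((D : ℝ) - 1) * ((D : ℝ) - 1 + 1) / (2 * y) := by
    have e3 : (D : ℝ) ^ 2 / (8 * y) + (D : ℝ) ^ 2 / (8 * y) = ((D : ℝ) ^ 2 / 2) / (2 * y) := by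
      field_simp
      norm_num
    rw [e3]
    refine div_le_div_of_nonneg_right ?_ (by positivity)
    nlinarith
  linarith

theorem numH : ∃ A : ℝ, 1 ≤ A ∧ ∀ m D : ℕ, 1 ≤ m → A * Real.sqrt m ≤ D →
    ∑ m' ∈ Ico 1 m, (m' : ℝ) * (tt m m' / ((m - m' : ℕ) : ℝ)) * (D : ℝ) *
      (((m - m' - 1).descFactorial (D - 1) : ℝ) / ((m - m' : ℕ) : ℝ) ^ (D - 1)) ≤ (m : ℝ) / 8 := by
  obtain ⟨C, hC, hCt⟩ := tt_le
  obtain ⟨B, hB, hBs⟩ := num_sum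
  refine ⟨max 1 (64 * C * B), le_max_left _ _, ?_⟩
  intro m D hm hD
  obtain ⟨A, hA⟩ : ∃ A, A = max 1 (64 * C * B) := ⟨_, rfl⟩
  rw [← hA] at hD
  have hA1 : 1 ≤ A := by
    rw [hA]
    exact le_max_left _ _
  have hA2 : 64 * C * B ≤ A := by
    rw [hA]
    exact le_max_right _ _
  have hA0 : 0 < A := by linarith
  have hAexp : C * B * Real.exp (-(A ^ 2 / 8)) ≤ 1 / 8 := by
    have h1 : A ^ 2 / 8 ≤ Real.exp (A ^ 2 / 8) := by
      have := Real.add_one_le_exp (A ^ 2 / 8)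
      linarith
    have h2 : 64 * C * B ≤ A ^ 2 := by nlinarith
    rw [Real.exp_neg, ← div_eq_mul_inv, div_le_iff₀ (Real.exp_pos _)]
    linarith
  rcases Nat.lt_or_ge m 2 with h | h
  · have h1 : m = 1 := by omega
    subst h1
    rw [Finset.Ico_self, Finset.sum_empty]
    positivity
  have hm0 : (0 : ℝ) < m := by exact_mod_cast hm
  have hsm0 : 0 < Real.sqrt m := Real.sqrt_pos.2 hm0
  have hsm : 1 < Real.sqrt m := by
    rw [Real.lt_sqrt (by norm_num)]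
    have : (2 : ℝ) ≤ m := by exact_mod_cast h
    linarith
  have hD1 : (1 : ℝ) < D := by
    have : 1 * Real.sqrt m ≤ A * Real.sqrt m := mul_le_mul_of_nonneg_right hA1 hsm0.le
    linarith
  have hD2 : 2 ≤ D := by
    have : 1 < D := by exact_mod_cast hD1
    omega
  have hAD : A ^ 2 * m ≤ (D : ℝ) ^ 2 := by
    have h1 : (A * Real.sqrt m) ^ 2 ≤ (D : ℝ) ^ 2 := pow_le_pow_left₀ (by positivity) hD 2
    rw [mul_pow, Real.sq_sqrt hm0.le] at h1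
    exact h1
  have hterm : ∀ m' ∈ Ico 1 m, (m' : ℝ) * (tt m m' / ((m - m' : ℕ) : ℝ)) * (D : ℝ) *
      (((m - m' - 1).descFactorial (D - 1) : ℝ) / ((m - m' : ℕ) : ℝ) ^ (D - 1)) ≤
      (C * m * Real.sqrt m * Real.exp (-(A ^ 2 / 8))) *
        ((m' : ℝ) ^ (-((1 : ℝ) / 2)) * ((m : ℝ) - m') ^ (-((3 : ℝ) / 2)) *
          ((D : ℝ) * Real.exp (-((D : ℝ) ^ 2 / (8 * ((m : ℝ) - m')))))) := by
    intro m' hm'
    obtain ⟨h1, h2⟩ := mem_Ico.1 hm'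
    have b1 := nb_tt h1 h2 (hCt m m' h1 h2)
    have b2 := nc_gauss h2 hD2 hAD
    have htt : 0 ≤ tt m m' := by
      unfold tt
      positivity
    have p2 : 0 ≤ ((m - m' - 1).descFactorial (D - 1) : ℝ) / ((m - m' : ℕ) : ℝ) ^ (D - 1) := by
      positivity
    have hx0 : (0 : ℝ) < m' := by exact_mod_cast h1
    have hy0 : (0 : ℝ) < (m : ℝ) - m' := by
      have : (m' : ℝ) < m := by exact_mod_cast h2
      linarith
    have p3 : 0 ≤ C * m * Real.sqrt m * ((m' : ℝ) ^ (-((1 : ℝ) / 2)) * ((m : ℝ) - m') ^ (-((3 : ℝ) / 2))) := by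
      have q1 := Real.rpow_nonneg hx0.le (-((1 : ℝ) / 2))
      have q2 := Real.rpow_nonneg hy0.le (-((3 : ℝ) / 2))
      positivity
    have hD0 : (0 : ℝ) ≤ D := Nat.cast_nonneg D
    calc (m' : ℝ) * (tt m m' / ((m - m' : ℕ) : ℝ)) * (D : ℝ) *
          (((m - m' - 1).descFactorial (D - 1) : ℝ) / ((m - m' : ℕ) : ℝ) ^ (D - 1))
        ≤ (C * m * Real.sqrt m * ((m' : ℝ) ^ (-((1 : ℝ) / 2)) * ((m : ℝ) - m') ^ (-((3 : ℝ) / 2)))) * (D : ℝ) *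
          (Real.exp (-(A ^ 2 / 8)) * Real.exp (-((D : ℝ) ^ 2 / (8 * ((m : ℝ) - m'))))) :=
          mul_le_mul (mul_le_mul_of_nonneg_right b1 hD0) b2 p2 (mul_nonneg p3 hD0)
      _ = _ := by ring
  have hsum := hBs m D (by omega) hm
  have hK : 0 ≤ C * m * Real.sqrt m * Real.exp (-(A ^ 2 / 8)) := by positivity
  calc ∑ m' ∈ Ico 1 m, (m' : ℝ) * (tt m m' / ((m - m' : ℕ) : ℝ)) * (D : ℝ) *
        (((m - m' - 1).descFactorial (D - 1) : ℝ) / ((m - m' : ℕ) : ℝ) ^ (D - 1))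
      ≤ ∑ m' ∈ Ico 1 m, (C * m * Real.sqrt m * Real.exp (-(A ^ 2 / 8))) *
        ((m' : ℝ) ^ (-((1 : ℝ) / 2)) * ((m : ℝ) - m') ^ (-((3 : ℝ) / 2)) *
          ((D : ℝ) * Real.exp (-((D : ℝ) ^ 2 / (8 * ((m : ℝ) - m')))))) := Finset.sum_le_sum hterm
    _ = (C * m * Real.sqrt m * Real.exp (-(A ^ 2 / 8))) * ∑ m' ∈ Ico 1 m,
        (m' : ℝ) ^ (-((1 : ℝ) / 2)) * ((m : ℝ) - m') ^ (-((3 : ℝ) / 2)) *
          ((D : ℝ) * Real.exp (-((D : ℝ) ^ 2 / (8 * ((m : ℝ) - m'))))) := by rw [Finset.mul_sum]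
    _ ≤ (C * m * Real.sqrt m * Real.exp (-(A ^ 2 / 8))) * (B * (m : ℝ) ^ (-((1 : ℝ) / 2))) :=
        mul_le_mul_of_nonneg_left hsum hK
    _ = (C * B * Real.exp (-(A ^ 2 / 8))) * m := by
        rw [na_half hm0]
        field_simp
    _ ≤ 1 / 8 * m := mul_le_mul_of_nonneg_right hAexp hm0.le
    _ = (m : ℝ) / 8 := by ring

end Pool.AAT
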