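import Pool.Agent.AAT.Defs
import Pool.Agent.AAT.Rad
import Pool.Agent.AAT.CardF
import Pool.Agent.AAT.DepthC
import Pool.Agent.AAH.JointH
import Pool.Agent.AAH.HgtR
import Pool.Agent.AAH.NumH

/-!
# AAH-Hgt2: the second moment of the height

PLAN. `A` from `numH`, `K = 8 (A+1)^2`. Strong induction on `m = S.card` (all `α`, `S`, `v`; or fixed `α`).
Let `D = ⌈A √m⌉₊ ≥ 1`, `D ≤ (A+1) √m`, so `4 D^2 ≤ (K/2) m`. Sum `hgt_rec` over `q ∈ Forest S {v}`;
`hgt q w = hgt (cut (fr q w) w q) w` (`hgt_cut`); `joint` with `d = D - 1`, `f q w = (hgt q w)^2`; for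
`S' ⊆ S.erase v`, `w ∈ S'`, `m' = S'.card < m` the induction hypothesis bounds the first factor by
`K m' (Forest S' {w}).card`, and `depth_count` (divided by `M^(D-1)`, `M = m - m'`) gives the second
factor `(Forest (S \ S') {v}).card * (M-1).descFactorial (D-1) * D / M^(D-1)`. `card_forest`:
`(Forest S' {w}).card * m' = m'^(m'-1)` etc. There are `(m-1).choose m'` sets `S'` with `m'` elements
and `m'` choices of `w`; dividing by `(Forest S {v}).card = m^(m-2)` (in ℝ) the term of `m'` is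
`K * m' * (tt m m' / M) * D * (M-1).descFactorial (D-1) / M^(D-1)`; by `numH` four times the sum is
`≤ (K/2) m`.
-/

set_option autoImplicit false

namespace Pool.AAT

open Finset
open scoped Classical

/-- the number of rooted trees with given root -/
private noncomputable def Fr (m : ℕ) : ℝ := (m : ℝ) ^ (m - 1) / m

private theorem card_eq {β : Type} [Fintype β] (S : Finset β) (v : β) (hv : v ∈ S) :
    ((Forest S {v}).card : ℝ) = Fr S.card := by
  have h1 := card_forest S {v} (singleton_subset_iff.2 hv)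
  rw [card_singleton, one_mul] at h1
  have h2 : (0 : ℝ) < (S.card : ℝ) := by
    have := card_pos.2 ⟨v, hv⟩
    exact_mod_cast this
  unfold Fr
  rw [eq_div_iff h2.ne']
  exact_mod_cast h1

private theorem Fr_nonneg (m : ℕ) : 0 ≤ Fr m := by
  unfold Fr
  positivity

private theorem Fr_mul {m : ℕ} (hm : 1 ≤ m) : Fr m * m = (m : ℝ) ^ (m - 1) := by
  have h2 : (0 : ℝ) < (m : ℝ) := by exact_mod_cast hm
  unfold Fr
  field_simp

private theorem Fr_eq {m : ℕ} (hm : 1 ≤ m) : Fr m = (m : ℝ) ^ (m - 2) := by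
  have h2 : (0 : ℝ) < (m : ℝ) := by exact_mod_cast hm
  unfold Fr
  rcases Nat.lt_or_ge m 2 with h | h
  · have h3 : m = 1 := by omega
    subst h3
    simp
  · have h3 : m - 1 = m - 2 + 1 := by omega
    rw [h3, pow_succ]
    field_simp

/-- the bound for the part of the vertex set with `m'` elements -/
private noncomputable def gg (K : ℝ) (m d m' : ℕ) : ℝ :=
  (m' : ℝ) * ((K * (m' : ℝ) * Fr m') * (Fr (m - m') *
    (((m - m' - 1).descFactorial d : ℝ) * ((d : ℝ) + 1)) / ((m - m' : ℕ) : ℝ) ^ d))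

private theorem gg_eq {K : ℝ} {m d m' : ℕ} (h1 : 1 ≤ m') (h2 : m' < m) :
    ((m - 1).choose m') • gg K m d m' = K * Fr m * ((m' : ℝ) * (tt m m' / ((m - m' : ℕ) : ℝ)) *
      ((d + 1 : ℕ) : ℝ) * (((m - m' - 1).descFactorial (d + 1 - 1) : ℝ) /
        ((m - m' : ℕ) : ℝ) ^ (d + 1 - 1))) := by
  have hm : 1 ≤ m := by omega
  have hM : 1 ≤ m - m' := by omega
  have hM0 : (0 : ℝ) < ((m - m' : ℕ) : ℝ) := by exact_mod_cast hM
  have hm0 : (0 : ℝ) < (m : ℝ) := by exact_mod_cast hm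
  have e1 := Fr_mul h1
  have e2 := Fr_mul hM
  have e3 := Fr_eq hm
  obtain ⟨M, hMd⟩ : ∃ M : ℕ, M = m - m' := ⟨_, rfl⟩
  unfold gg tt
  rw [← hMd] at e2 hM0 ⊢
  rw [Nat.add_sub_cancel, ← e3, ← e1, ← e2, nsmul_eq_mul]
  have hF : Fr m ≠ 0 := by
    rw [e3]
    positivity
  push_cast
  field_simp

private theorem second {β : Type} [Fintype β] (S : Finset β) (v : β) (hv : v ∈ S) (d : ℕ) :
    ∑ q ∈ Forest S {v}, ((S.filter (fun y => dep q v y = d)).card : ℝ) =
      Fr S.card * (((S.card - 1).descFactorial d : ℝ) * ((d : ℝ) + 1)) / (S.card : ℝ) ^ d := by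
  have h2 : (0 : ℝ) < (S.card : ℝ) := by
    have := card_pos.2 ⟨v, hv⟩
    exact_mod_cast this
  have h1 := depth_count S v hv d
  rw [eq_div_iff (by positivity), ← card_eq S v hv]
  exact_mod_cast h1

theorem hgt2 : ∃ K : ℝ, 0 < K ∧ ∀ (β : Type) [Fintype β] (S : Finset β) (v : β), v ∈ S →
    ∑ q ∈ Forest S {v}, (hgt q v : ℝ) ^ 2 ≤
      K * (S.card : ℝ) * ((Forest S {v}).card : ℝ) := by
  obtain ⟨A, hA, hnum⟩ := numH
  obtain ⟨K, hK⟩ : ∃ K : ℝ, K = 8 * (A + 1) ^ 2 := ⟨_, rfl⟩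
  have hK0 : 0 < K := by
    rw [hK]
    exact mul_pos (by norm_num) (pow_pos (by linarith) 2)
  refine ⟨K, hK0, ?_⟩
  intro β _ S v hv
  obtain ⟨m, hm⟩ : ∃ m, S.card = m := ⟨_, rfl⟩
  induction m using Nat.strong_induction_on generalizing S v with
  | _ m ih =>
    have hm1 : 1 ≤ m := by
      rw [← hm]
      exact card_pos.2 ⟨v, hv⟩
    have hmR : (1 : ℝ) ≤ (m : ℝ) := by exact_mod_cast hm1
    have hs1 : 1 ≤ Real.sqrt m := Real.one_le_sqrt.2 hmR
    have hsq : Real.sqrt m * Real.sqrt m = m := Real.mul_self_sqrt (by linarith)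
    have hAs : 1 ≤ A * Real.sqrt m := by
      have := mul_le_mul hA hs1 zero_le_one (by linarith)
      linarith
    obtain ⟨D, hD⟩ : ∃ D : ℕ, D = ⌈A * Real.sqrt m⌉₊ := ⟨_, rfl⟩
    have hD1 : A * Real.sqrt m ≤ D := by
      rw [hD]
      exact Nat.le_ceil _
    have hD2 : (D : ℝ) < A * Real.sqrt m + 1 := by
      rw [hD]
      exact Nat.ceil_lt_add_one (by linarith)
    have hD3 : 1 ≤ D := by
      have : (1 : ℝ) ≤ D := hAs.trans hD1
      exact_mod_cast this
    have hD4 : 4 * (D : ℝ) ^ 2 ≤ K / 2 * m := by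
      have h1 : (D : ℝ) ≤ (A + 1) * Real.sqrt m := by linarith
      have h2 : (D : ℝ) ^ 2 ≤ ((A + 1) * Real.sqrt m) ^ 2 :=
        pow_le_pow_left₀ (Nat.cast_nonneg _) h1 2
      have h3 : ((A + 1) * Real.sqrt m) ^ 2 = (A + 1) ^ 2 * m := by
        rw [mul_pow, sq (Real.sqrt m), hsq]
      rw [h3] at h2
      rw [hK]
      linarith
    obtain ⟨d, hd⟩ : ∃ d, D = d + 1 := ⟨D - 1, by omega⟩
    have h7 := hnum m D hm1 hD1
    have h1 : ∑ q ∈ Forest S {v}, (hgt q v : ℝ) ^ 2 ≤ ∑ q ∈ Forest S {v}, (4 * (D : ℝ) ^ 2 +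
        4 * ∑ w ∈ (S.erase v).filter (fun w => dep q v w = D), (hgt q w : ℝ) ^ 2) :=
      sum_le_sum fun q hq => hgt_rec S v hv q hq D hD3
    rw [sum_add_distrib, sum_const, ← mul_sum, nsmul_eq_mul, card_eq S v hv, hm] at h1
    rw [card_eq S v hv, hm]
    have h2 := joint S v hv d (fun q w => (hgt q w : ℝ) ^ 2)
    simp only [hgt_cut] at h2
    subst hd
    rw [h2] at h1
    have h4 : ∀ S' ∈ (S.erase v).powerset, (∑ w ∈ S', (∑ q' ∈ Forest S' {w}, (hgt q' w : ℝ) ^ 2) *
        ∑ q'' ∈ Forest (S \ S') {v}, (((S \ S').filter (fun y => dep q'' v y = d)).card : ℝ)) ≤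
        gg K m d S'.card := by
      intro S' hS'
      rw [mem_powerset] at hS'
      have hvS' : v ∉ S' := fun h => notMem_erase v S (hS' h)
      have hsub : S' ⊆ S := hS'.trans (erase_subset _ _)
      have hvd : v ∈ S \ S' := mem_sdiff.2 ⟨hv, hvS'⟩
      have hcd : (S \ S').card = m - S'.card := by
        rw [card_sdiff_of_subset hsub, hm]
      have hlt : S'.card < m := by
        rw [← hm]
        exact card_lt_card ⟨hsub, fun h => hvS' (h hv)⟩
      have h5 : ∀ w ∈ S', (∑ q' ∈ Forest S' {w}, (hgt q' w : ℝ) ^ 2) *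
          (∑ q'' ∈ Forest (S \ S') {v}, (((S \ S').filter (fun y => dep q'' v y = d)).card : ℝ)) ≤
          (K * (S'.card : ℝ) * Fr S'.card) * (Fr (m - S'.card) *
            (((m - S'.card - 1).descFactorial d : ℝ) * ((d : ℝ) + 1)) /
              ((m - S'.card : ℕ) : ℝ) ^ d) := by
        intro w hw
        rw [second (S \ S') v hvd d, hcd]
        have h6 := ih S'.card hlt S' w hw rfl
        rw [card_eq S' w hw] at h6
        apply mul_le_mul_of_nonneg_right h6
        have := Fr_nonneg (m - S'.card)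
        positivity
      have h6 := sum_le_card_nsmul S' _ _ h5
      rw [nsmul_eq_mul] at h6
      exact h6
    have h5 : ∑ S' ∈ (S.erase v).powerset, gg K m d S'.card =
        ∑ m' ∈ range m, ((m - 1).choose m') • gg K m d m' := by
      rw [sum_powerset_apply_card (gg K m d), card_erase_of_mem hv, hm, Nat.sub_add_cancel hm1]
    have h6 : ∑ m' ∈ range m, ((m - 1).choose m') • gg K m d m' ≤ K * Fr m * ((m : ℝ) / 8) := by
      have h8 : gg K m d 0 = 0 := by
        unfold gg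
        simp
      rw [range_eq_Ico, sum_eq_sum_Ico_succ_bot (by omega : 0 < m), h8, smul_zero, zero_add]
      have h9 : ∀ m' ∈ Ico (0 + 1) m, ((m - 1).choose m') • gg K m d m' =
          K * Fr m * ((m' : ℝ) * (tt m m' / ((m - m' : ℕ) : ℝ)) *
            ((d + 1 : ℕ) : ℝ) * (((m - m' - 1).descFactorial (d + 1 - 1) : ℝ) /
            ((m - m' : ℕ) : ℝ) ^ (d + 1 - 1))) := by
        intro m' hm'
        rw [mem_Ico] at hm'
        exact gg_eq (by omega) hm'.2
      rw [sum_congr rfl h9, ← mul_sum]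
      exact mul_le_mul_of_nonneg_left h7 (mul_nonneg hK0.le (Fr_nonneg m))
    have h8 := sum_le_sum h4
    rw [h5] at h8
    have h9 := h8.trans h6
    have h10 := mul_le_mul_of_nonneg_left hD4 (Fr_nonneg m)
    have h11 : K * (m : ℝ) * Fr m = Fr m * (K / 2 * m) + 4 * (K * Fr m * ((m : ℝ) / 8)) := by ring
    rw [h11]
    linarith

end Pool.AAT
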