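import Pool.Agent.AAT.Defs
import Pool.Agent.AAH.Hgt2

/-!
# AAH-HgtE: the mean height

PLAN. Cauchy-Schwarz: `(Σ_q a)^2 ≤ N Σ_q a^2` (`sq_sum_le_card_mul_sum_sq`, `N = (Forest S {v}).card`) and
`hgt2`; `K' = √K`.
-/

set_option autoImplicit false

namespace Pool.AAT

open Finset
open scoped Classical

theorem hgtE : ∃ K : ℝ, 0 < K ∧ ∀ (β : Type) [Fintype β] (S : Finset β) (v : β), v ∈ S →
    ∑ q ∈ Forest S {v}, (hgt q v : ℝ) ≤
      K * Real.sqrt (S.card : ℝ) * ((Forest S {v}).card : ℝ) := by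
  obtain ⟨K, hK, h2⟩ := hgt2
  refine ⟨Real.sqrt K, Real.sqrt_pos.mpr hK, ?_⟩
  intro β _ S v hv
  have h := h2 β S v hv
  have hcs := sq_sum_le_card_mul_sum_sq (s := Forest S {v}) (f := fun q => (hgt q v : ℝ))
  have hN : (0 : ℝ) ≤ ((Forest S {v}).card : ℝ) := Nat.cast_nonneg _
  have hS : (0 : ℝ) ≤ (S.card : ℝ) := Nat.cast_nonneg _
  have hR : (0 : ℝ) ≤ Real.sqrt K * Real.sqrt (S.card : ℝ) * ((Forest S {v}).card : ℝ) := by
    positivity
  refine le_of_sq_le_sq ?_ hR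
  have e : (Real.sqrt K * Real.sqrt (S.card : ℝ) * ((Forest S {v}).card : ℝ)) ^ 2
      = ((Forest S {v}).card : ℝ) * (K * (S.card : ℝ) * ((Forest S {v}).card : ℝ)) := by
    rw [mul_pow, mul_pow, Real.sq_sqrt hK.le, Real.sq_sqrt hS]
    ring
  rw [e]
  exact hcs.trans (mul_le_mul_of_nonneg_left h hN)

end Pool.AAT
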