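import Pool.Agent.AAT.Defs
import Pool.Agent.AAT.TtLe

/-!
# AAH-SumL: the sum of tt n m with the weight sqrt m
-/

set_option autoImplicit false

namespace Pool.AAT

open Finset
open scoped Classical

private theorem sl_harm {m0 : ℕ} (h0 : 1 ≤ m0) {n : ℕ} (hn : m0 ≤ n) :
    ∑ m ∈ Ico m0 (n + 1), 1 / (m : ℝ) ≤ 1 + Real.log ((n : ℝ) / m0) := by
  have hm0 : (0 : ℝ) < m0 := by exact_mod_cast h0
  induction n, hn using Nat.le_induction with
  | base =>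
    rw [Nat.Ico_succ_singleton, sum_singleton, div_self hm0.ne', Real.log_one, add_zero,
      div_le_one hm0]
    exact_mod_cast h0
  | succ n hn ih =>
    have hn0 : (0 : ℝ) < n := lt_of_lt_of_le hm0 (by exact_mod_cast hn)
    rw [sum_Ico_succ_top (by omega)]
    have h1 : Real.log (((n + 1 : ℕ) : ℝ) / m0) =
        Real.log ((n : ℝ) / m0) + Real.log (((n : ℝ) + 1) / n) := by
      rw [← Real.log_mul (by positivity) (by positivity)]
      congr 1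
      push_cast
      field_simp
    have h2 : 1 - (((n : ℝ) + 1) / n)⁻¹ ≤ Real.log (((n : ℝ) + 1) / n) :=
      Real.one_sub_inv_le_log_of_pos (by positivity)
    have h3 : 1 - (((n : ℝ) + 1) / n)⁻¹ = 1 / ((n + 1 : ℕ) : ℝ) := by
      push_cast
      field_simp
      ring
    rw [h3] at h2
    rw [h1]
    linarith

private theorem sl_sqrt (k : ℕ) : ∑ j ∈ Ico 1 (k + 1), 1 / Real.sqrt (j : ℝ) ≤ 2 * Real.sqrt k := by
  induction k with
  | zero => simp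
  | succ k ih =>
    rw [sum_Ico_succ_top (by omega)]
    have hk0 : (0 : ℝ) ≤ k := Nat.cast_nonneg k
    have e : ((k + 1 : ℕ) : ℝ) = (k : ℝ) + 1 := by push_cast; ring
    rw [e]
    have hs : 0 < Real.sqrt ((k : ℝ) + 1) := Real.sqrt_pos.2 (by linarith)
    have hs0 : 0 ≤ Real.sqrt (k : ℝ) := Real.sqrt_nonneg _
    have h1 : Real.sqrt ((k : ℝ) + 1) * Real.sqrt ((k : ℝ) + 1) = (k : ℝ) + 1 :=
      Real.mul_self_sqrt (by linarith)
    have h2 : Real.sqrt (k : ℝ) * Real.sqrt (k : ℝ) = k := Real.mul_self_sqrt hk0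
    have h3 : 1 / Real.sqrt ((k : ℝ) + 1) ≤ 2 * (Real.sqrt ((k : ℝ) + 1) - Real.sqrt k) := by
      rw [div_le_iff₀ hs]
      nlinarith [sq_nonneg (Real.sqrt ((k : ℝ) + 1) - Real.sqrt k)]
    linarith

private theorem sl_term {C0 : ℝ} (hC0 : 0 < C0) {n m : ℕ} (hm : 1 ≤ m) (hmn : m < n)
    (ht : tt n m ≤ C0 * n * Real.sqrt ((n : ℝ) / ((m : ℝ) ^ 3 * ((n : ℝ) - m)))) :
    tt n m * Real.sqrt m ≤ 2 * C0 * n * (1 / (m : ℝ)) +
      2 * C0 * Real.sqrt n * (1 / Real.sqrt ((n - m : ℕ) : ℝ)) := by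
  have hm0 : (0 : ℝ) < m := by exact_mod_cast hm
  have hmn' : (m : ℝ) < n := by exact_mod_cast hmn
  have hn0 : (0 : ℝ) < n := by linarith
  have hd : (0 : ℝ) < (n : ℝ) - m := by linarith
  have hcast : ((n - m : ℕ) : ℝ) = (n : ℝ) - m := Nat.cast_sub hmn.le
  rw [hcast]
  have h1 : tt n m * Real.sqrt m ≤
      C0 * n * Real.sqrt ((n : ℝ) / ((m : ℝ) ^ 3 * ((n : ℝ) - m))) * Real.sqrt m :=
    mul_le_mul_of_nonneg_right ht (Real.sqrt_nonneg _)
  have h2 : Real.sqrt ((n : ℝ) / ((m : ℝ) ^ 3 * ((n : ℝ) - m))) * Real.sqrt m =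
      1 / m * Real.sqrt ((n : ℝ) / ((n : ℝ) - m)) := by
    rw [← Real.sqrt_mul (by positivity)]
    have e1 : (n : ℝ) / ((m : ℝ) ^ 3 * ((n : ℝ) - m)) * m =
        (1 / (m : ℝ)) ^ 2 * ((n : ℝ) / ((n : ℝ) - m)) := by
      field_simp
    rw [e1, Real.sqrt_mul (by positivity), Real.sqrt_sq (by positivity)]
  have h3 : C0 * n * Real.sqrt ((n : ℝ) / ((m : ℝ) ^ 3 * ((n : ℝ) - m))) * Real.sqrt m =
      C0 * n * (1 / m * Real.sqrt ((n : ℝ) / ((n : ℝ) - m))) := by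
    rw [mul_assoc, h2]
  rw [h3] at h1
  refine h1.trans ?_
  have hp1 : 0 ≤ 2 * C0 * n * (1 / (m : ℝ)) := by positivity
  have hp2 : 0 ≤ 2 * C0 * Real.sqrt n * (1 / Real.sqrt ((n : ℝ) - m)) := by positivity
  by_cases h : 2 * (m : ℝ) ≤ n
  · have h4 : Real.sqrt ((n : ℝ) / ((n : ℝ) - m)) ≤ 2 := by
      rw [Real.sqrt_le_left (by norm_num), div_le_iff₀ hd]
      linarith
    have h5 : C0 * n * (1 / m * Real.sqrt ((n : ℝ) / ((n : ℝ) - m))) ≤ C0 * n * (1 / m * 2) :=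
      mul_le_mul_of_nonneg_left (mul_le_mul_of_nonneg_left h4 (by positivity)) (by positivity)
    have h6 : C0 * n * (1 / m * 2) = 2 * C0 * n * (1 / (m : ℝ)) := by ring
    linarith
  · push Not at h
    have h4 : 1 / (m : ℝ) ≤ 2 / n := by
      rw [div_le_div_iff₀ hm0 hn0]
      linarith
    have h5 : C0 * n * (1 / m * Real.sqrt ((n : ℝ) / ((n : ℝ) - m))) ≤
        C0 * n * (2 / n * Real.sqrt ((n : ℝ) / ((n : ℝ) - m))) :=
      mul_le_mul_of_nonneg_left (mul_le_mul_of_nonneg_right h4 (Real.sqrt_nonneg _)) (by positivity)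
    have h6 : C0 * n * (2 / n * Real.sqrt ((n : ℝ) / ((n : ℝ) - m))) =
        2 * C0 * Real.sqrt n * (1 / Real.sqrt ((n : ℝ) - m)) := by
      rw [Real.sqrt_div hn0.le]
      have hs : Real.sqrt ((n : ℝ) - m) ≠ 0 := (Real.sqrt_pos.2 hd).ne'
      field_simp
    linarith

theorem sum_tt_sqrt : ∃ C : ℝ, 0 < C ∧ ∀ n m0 : ℕ, 1 ≤ m0 → m0 ≤ n →
    ∑ m ∈ Ico m0 n, tt n m * Real.sqrt m ≤ C * n * (1 + Real.log ((n : ℝ) / m0)) := by
  obtain ⟨C0, hC0, hC⟩ := tt_le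
  refine ⟨6 * C0, by positivity, ?_⟩
  intro n m0 h0 hn
  have hm0 : (0 : ℝ) < m0 := by exact_mod_cast h0
  have hmn : (m0 : ℝ) ≤ n := by exact_mod_cast hn
  have hn0 : (0 : ℝ) < n := by linarith
  have hlog : 0 ≤ Real.log ((n : ℝ) / m0) :=
    Real.log_nonneg (by rw [le_div_iff₀ hm0]; linarith)
  have h1 : ∑ m ∈ Ico m0 n, tt n m * Real.sqrt m ≤
      ∑ m ∈ Ico m0 n, (2 * C0 * n * (1 / (m : ℝ)) +
        2 * C0 * Real.sqrt n * (1 / Real.sqrt ((n - m : ℕ) : ℝ))) := by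
    refine sum_le_sum fun m hm => ?_
    obtain ⟨h2, h3⟩ := mem_Ico.1 hm
    exact sl_term hC0 (h0.trans h2) h3 (hC n m (h0.trans h2) h3)
  refine h1.trans ?_
  rw [sum_add_distrib, ← mul_sum, ← mul_sum]
  have h2 : ∑ m ∈ Ico m0 n, 1 / (m : ℝ) ≤ 1 + Real.log ((n : ℝ) / m0) := by
    refine le_trans ?_ (sl_harm h0 hn)
    refine sum_le_sum_of_subset_of_nonneg (Ico_subset_Ico_right (by omega)) fun m _ _ => ?_
    positivity
  have h3 : ∑ m ∈ Ico m0 n, 1 / Real.sqrt ((n - m : ℕ) : ℝ) ≤ 2 * Real.sqrt n := by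
    have h4 := sum_Ico_reflect (fun j : ℕ => 1 / Real.sqrt (j : ℝ)) m0 (m := n) (n := n) (by omega)
    rw [h4]
    refine le_trans ?_ (sl_sqrt n)
    refine sum_le_sum_of_subset_of_nonneg ?_ fun m _ _ => by positivity
    intro j hj
    rw [mem_Ico] at hj ⊢
    omega
  have h4 : 2 * C0 * n * ∑ m ∈ Ico m0 n, 1 / (m : ℝ) ≤
      2 * C0 * n * (1 + Real.log ((n : ℝ) / m0)) :=
    mul_le_mul_of_nonneg_left h2 (by positivity)
  have h5 : 2 * C0 * Real.sqrt n * ∑ m ∈ Ico m0 n, 1 / Real.sqrt ((n - m : ℕ) : ℝ) ≤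
      2 * C0 * Real.sqrt n * (2 * Real.sqrt n) :=
    mul_le_mul_of_nonneg_left h3 (by positivity)
  have h6 : 2 * C0 * Real.sqrt n * (2 * Real.sqrt n) = 4 * C0 * n := by
    have := Real.mul_self_sqrt hn0.le
    calc 2 * C0 * Real.sqrt n * (2 * Real.sqrt n) = 4 * C0 * (Real.sqrt n * Real.sqrt n) := by ring
      _ = 4 * C0 * n := by rw [this]
  have h7 : 0 ≤ C0 * n * Real.log ((n : ℝ) / m0) := by positivity
  have h8 : 6 * C0 * n * (1 + Real.log ((n : ℝ) / m0)) =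
      2 * C0 * n * (1 + Real.log ((n : ℝ) / m0)) + 4 * C0 * n +
        4 * (C0 * n * Real.log ((n : ℝ) / m0)) := by ring
  rw [h8]
  linarith

end Pool.AAT
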