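import Pool.Agent.AAT.Defs
import Pool.Agent.AAT.Split
import Pool.Agent.AAT.CardF
import Pool.Agent.AAT.Rad
import Pool.Agent.AAH.HgtE
import Pool.Agent.AAH.SumL

/-!
# AAH-FirstL: first moment of the heights of large fringes

PLAN. As `Pool/Agent/AAT/First.lean` (for `V` instead of `univ`, without bits). Exchange sums, sort by
`S = fr p v` (`v ∈ S ⊆ V.erase r`: `r` is a fixed point different from `v`, points outside `V` are
fixed); `hgt_cut`, `fringe_split V S r v` with `Φ q y q' = hgt q v`: the part of `(v, S)` is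
`(V \ S).card * (Forest (V \ S) {r}).card * Σ_{q ∈ Forest S {v}} hgt q v ≤ (n-m)^(n-m-1) * K √m * m^(m-2)`
(`n = V.card`, `m = S.card`, `card_forest`). There are `(n-1).choose m * m` pairs; the total divided by
`(Forest V {r}).card = n^(n-2)` is `K Σ_{m0 ≤ m < n} tt n m * √m`; `sum_tt_sqrt`.
-/

set_option autoImplicit false

namespace Pool.AAT

open Finset
open scoped Classical

private lemma card_S {α : Type} [Fintype α] (S : Finset α) (v : α) (hv : v ∈ S) :
    ((Forest S {v}).card : ℝ) = (S.card : ℝ) ^ (S.card - 1) / S.card := by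
  have h1 := card_forest S {v} (by simpa using hv)
  rw [card_singleton, one_mul] at h1
  have h2 : (0 : ℝ) < S.card := by exact_mod_cast card_pos.2 ⟨v, hv⟩
  rw [eq_div_iff h2.ne']
  exact_mod_cast h1

private lemma part_le {α : Type} [Fintype α] (V : Finset α) (r v : α) (hrV : r ∈ V) (S : Finset α)
    (hv : v ∈ S) (hSV : S ⊆ V) (hr : r ∉ S) (n : ℕ) (hn : V.card = n) (K : ℝ)
    (hK : ∑ q ∈ Forest S {v}, (hgt q v : ℝ) ≤
      K * Real.sqrt (S.card : ℝ) * ((Forest S {v}).card : ℝ)) :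
    ∑ p ∈ (Forest V {r}).filter (fun p => fr p v = S), (hgt p v : ℝ) ≤
      ((n - S.card : ℕ) : ℝ) ^ (n - S.card - 1) *
        (K * Real.sqrt (S.card : ℝ) * ((S.card : ℝ) ^ (S.card - 1) / S.card)) := by
  have h1 := fringe_split V S r v hrV hv hSV hr (fun q _ _ => (hgt q v : ℝ))
  have h2 : ∑ p ∈ (Forest V {r}).filter (fun p => fr p v = S), (hgt p v : ℝ) =
      ∑ p ∈ (Forest V {r}).filter (fun p => fr p v = S), (hgt (cut S v p) v : ℝ) := by
    refine sum_congr rfl fun p hp => ?_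
    have h3 := (mem_filter.1 hp).2
    rw [← h3, hgt_cut]
  rw [h2, h1]
  have hcard : (V \ S).card = n - S.card := by
    rw [card_sdiff_of_subset hSV, hn]
  have h4 := card_forest (V \ S) {r} (by simpa using ⟨hrV, hr⟩)
  rw [card_singleton, one_mul, hcard] at h4
  have h5 : ((Forest (V \ S) {r}).card : ℝ) * ((n - S.card : ℕ) : ℝ) =
      ((n - S.card : ℕ) : ℝ) ^ (n - S.card - 1) := by exact_mod_cast h4
  simp only [sum_const, nsmul_eq_mul, hcard]
  rw [← mul_sum, ← mul_sum, ← mul_assoc]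
  have h6 : ((n - S.card : ℕ) : ℝ) * ((Forest (V \ S) {r}).card : ℝ) =
      ((n - S.card : ℕ) : ℝ) ^ (n - S.card - 1) := by rw [mul_comm, h5]
  rw [h6]
  refine mul_le_mul_of_nonneg_left ?_ (by positivity)
  rw [card_S S v hv] at hK
  exact hK

private lemma fr_sub {α : Type} [Fintype α] (V : Finset α) (r v : α) (hvV : v ∈ V) (hvr : v ≠ r)
    (p : α → α) (hp : p ∈ Forest V {r}) : fr p v ⊆ V.erase r := by
  intro x h
  rw [Forest, mem_filter] at hp
  rw [fr, mem_filter] at h
  obtain ⟨i, hi⟩ := h.2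
  rw [mem_erase]
  constructor
  · rintro rfl
    have h1 : p x = x := hp.2.1 x (by simp)
    rw [Function.iterate_fixed h1] at hi
    exact hvr hi.symm
  · by_contra hx
    have h1 : p x = x := hp.2.1 x (fun h2 => hx (mem_sdiff.1 h2).1)
    rw [Function.iterate_fixed h1] at hi
    exact hx (hi ▸ hvV)

theorem firstL : ∃ C : ℝ, 0 < C ∧ ∀ (β : Type) [Fintype β] (V : Finset β) (r : β), r ∈ V →
    ∀ m0 : ℕ, 1 ≤ m0 → m0 ≤ V.card →
    ∑ p ∈ Forest V {r}, ∑ v ∈ (V.erase r).filter (fun v => m0 ≤ (fr p v).card), (hgt p v : ℝ) ≤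
      C * (V.card : ℝ) * (1 + Real.log ((V.card : ℝ) / m0)) * ((Forest V {r}).card : ℝ) := by
  obtain ⟨C, hC, h⟩ := sum_tt_sqrt
  obtain ⟨K, hK, hKE⟩ := hgtE
  refine ⟨K * C, by positivity, fun β _ V r hrV m0 hm0 hm0n => ?_⟩
  obtain ⟨n, hn⟩ : ∃ n, V.card = n := ⟨_, rfl⟩
  rw [hn] at hm0n ⊢
  have hn1 : 1 ≤ n := by omega
  have hn0 : (0 : ℝ) < n := by exact_mod_cast hn1
  have hF : ((Forest V {r}).card : ℝ) = (n : ℝ) ^ (n - 2) := by
    have h1 := card_forest V {r} (by simpa using hrV)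
    rw [card_singleton, one_mul, hn] at h1
    have h2 : ((Forest V {r}).card : ℝ) * n = (n : ℝ) ^ (n - 2) * n := by
      rcases Nat.lt_or_ge n 2 with h3 | h3
      · have h4 : n = 1 := by omega
        rw [h4] at h1 ⊢
        norm_num at h1 ⊢
        exact h1
      · rw [← pow_succ]
        have e : n - 2 + 1 = n - 1 := by omega
        rw [e]
        exact_mod_cast h1
    exact mul_right_cancel₀ hn0.ne' h2
  set B : ℕ → ℝ := fun m => ((n - m : ℕ) : ℝ) ^ (n - m - 1) *
        (K * Real.sqrt (m : ℝ) * ((m : ℝ) ^ (m - 1) / m)) with hB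
  have e1 : ∑ p ∈ Forest V {r},
        ∑ v ∈ (V.erase r).filter (fun v => m0 ≤ (fr p v).card), (hgt p v : ℝ) =
      ∑ v ∈ V.erase r, ∑ p ∈ (Forest V {r}).filter (fun p => m0 ≤ (fr p v).card),
        (hgt p v : ℝ) := by
    have e2 : ∀ p ∈ Forest V {r},
        ∑ v ∈ (V.erase r).filter (fun v => m0 ≤ (fr p v).card), (hgt p v : ℝ) =
        ∑ v ∈ V.erase r, if m0 ≤ (fr p v).card then (hgt p v : ℝ) else 0 := by
      intro p _
      rw [sum_filter]
    rw [sum_congr rfl e2, sum_comm]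
    refine sum_congr rfl fun v _ => ?_
    rw [sum_filter]
  have e3 : ∀ v ∈ V.erase r, ∑ p ∈ (Forest V {r}).filter (fun p => m0 ≤ (fr p v).card),
        (hgt p v : ℝ) ≤
      ∑ S ∈ (V.erase r).powerset.filter (fun S => v ∈ S ∧ m0 ≤ S.card), B S.card := by
    intro v hv
    obtain ⟨hvr, hvV⟩ := mem_erase.1 hv
    have hmaps : ∀ p ∈ (Forest V {r}).filter (fun p => m0 ≤ (fr p v).card),
        fr p v ∈ (V.erase r).powerset.filter (fun S => v ∈ S ∧ m0 ≤ S.card) := by
      intro p hp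
      rw [mem_filter] at hp ⊢
      exact ⟨mem_powerset.2 (fr_sub V r v hvV hvr p hp.1), mem_fr_self p v, hp.2⟩
    rw [← sum_fiberwise_of_maps_to hmaps]
    refine sum_le_sum fun S hS => ?_
    rw [mem_filter, mem_powerset] at hS
    have hrS : r ∉ S := fun hr => (mem_erase.1 (hS.1 hr)).1 rfl
    have h1 := part_le V r v hrV S hS.2.1 (fun x hx => (mem_erase.1 (hS.1 hx)).2) hrS n hn K
      (hKE β S v hS.2.1)
    have h2 : ((Forest V {r}).filter (fun p => m0 ≤ (fr p v).card)).filter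
        (fun p => fr p v = S) = (Forest V {r}).filter (fun p => fr p v = S) := by
      ext p
      simp only [mem_filter]
      constructor
      · rintro ⟨⟨h3, -⟩, h4⟩
        exact ⟨h3, h4⟩
      · rintro ⟨h3, h4⟩
        exact ⟨⟨h3, by rw [h4]; exact hS.2.2⟩, h4⟩
    rw [h2]
    exact h1
  have e4 : ∑ v ∈ V.erase r, ∑ S ∈ (V.erase r).powerset.filter
      (fun S => v ∈ S ∧ m0 ≤ S.card), B S.card =
      ∑ S ∈ (V.erase r).powerset, if m0 ≤ S.card then (S.card : ℝ) * B S.card else 0 := by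
    rw [← sum_filter]
    rw [sum_comm' (s' := fun S => S) (t' := (V.erase r).powerset.filter (fun S => m0 ≤ S.card))]
    · refine sum_congr rfl fun S _ => ?_
      rw [sum_const, nsmul_eq_mul]
    · intro v S
      simp only [mem_filter, mem_powerset]
      constructor
      · rintro ⟨-, h1, h2, h3⟩
        exact ⟨h2, h1, h3⟩
      · rintro ⟨h1, h2, h3⟩
        exact ⟨h2 h1, h2, h1, h3⟩
  have e5 : ∑ S ∈ (V.erase r).powerset, (if m0 ≤ S.card then (S.card : ℝ) * B S.card else 0) =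
      ∑ m ∈ Ico m0 n, ((n - 1).choose m : ℝ) * (m * B m) := by
    have h1 := sum_powerset_apply_card (x := V.erase r)
      (fun m => if m0 ≤ m then (m : ℝ) * B m else 0)
    rw [h1, card_erase_of_mem hrV, hn]
    have h2 : n - 1 + 1 = n := by omega
    rw [h2]
    have h3 : ∀ m ∈ range n, (n - 1).choose m • (if m0 ≤ m then (m : ℝ) * B m else 0) =
        if m0 ≤ m then ((n - 1).choose m : ℝ) * (m * B m) else 0 := by
      intro m _
      split_ifs
      · rw [nsmul_eq_mul]
      · simp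
    rw [sum_congr rfl h3, ← sum_filter]
    refine sum_congr ?_ fun _ _ => rfl
    ext m
    simp only [mem_filter, mem_range, mem_Ico]
    tauto
  have e6 : ∀ m ∈ Ico m0 n, ((n - 1).choose m : ℝ) * (m * B m) =
      (K * ((Forest V {r}).card : ℝ)) * (tt n m * Real.sqrt (m : ℝ)) := by
    intro m hm
    rw [mem_Ico] at hm
    have hm1 : (m : ℝ) ≠ 0 := by
      have : 0 < m := by omega
      exact_mod_cast this.ne'
    have hn1 : (n : ℝ) ^ (n - 2) ≠ 0 := by positivity
    rw [hF, hB, tt]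
    field_simp
  rw [e1]
  refine (sum_le_sum e3).trans ?_
  rw [e4, e5, sum_congr rfl e6, ← mul_sum]
  have h1 := h n m0 hm0 hm0n
  calc (K * ((Forest V {r}).card : ℝ)) * ∑ m ∈ Ico m0 n, (tt n m * Real.sqrt (m : ℝ)) ≤
      (K * ((Forest V {r}).card : ℝ)) * (C * n * (1 + Real.log ((n : ℝ) / m0))) := by
        refine mul_le_mul_of_nonneg_left h1 (by positivity)
    _ = _ := by ring

end Pool.AAT
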