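import Pool.Agent.AAT.Defs
import Pool.Agent.AAT.Rad
import Pool.Agent.AAT.DepthC
import Pool.Agent.AAH.NumP
import Pool.Agent.AAH.HgtR

/-!
# AAH-TailD: tail of the height
-/

set_option autoImplicit false

namespace Pool.AAT

open Finset
open scoped Classical

variable {α : Type} [Fintype α]

theorem hgt_tail (S : Finset α) (v : α) (hv : v ∈ S) (D : ℕ) :
    ((Forest S {v}).filter (fun q => D ≤ hgt q v)).card ≤
      ((D : ℝ) + 1) * Real.exp (-((D : ℝ) * ((D : ℝ) + 1) / (2 * (S.card : ℝ)))) *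
        ((Forest S {v}).card : ℝ) := by
  have hm : 1 ≤ S.card := Finset.card_pos.2 ⟨v, hv⟩
  have h1 : ((Forest S {v}).filter (fun q => D ≤ hgt q v)).card ≤
      ∑ q ∈ Forest S {v}, (S.filter (fun w => dep q v w = D)).card := by
    rw [Finset.card_eq_sum_ones, Finset.sum_filter]
    refine Finset.sum_le_sum fun q hq => ?_
    split_ifs with h
    · obtain ⟨w, hw, hd⟩ := exists_depth S v hv q hq D h
      exact Finset.card_pos.2 ⟨w, Finset.mem_filter.2 ⟨hw, hd⟩⟩
    · exact Nat.zero_le _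
  have h2 := depth_count S v hv D
  have hpos : (0 : ℝ) < (S.card : ℝ) ^ D := by
    have : (0 : ℝ) < (S.card : ℝ) := by exact_mod_cast hm
    positivity
  have h3 : ((∑ q ∈ Forest S {v}, (S.filter (fun w => dep q v w = D)).card : ℕ) : ℝ) =
      ((Forest S {v}).card : ℝ) * (((D : ℝ) + 1) *
        (((S.card - 1).descFactorial D : ℝ) / (S.card : ℝ) ^ D)) := by
    have h4 : ((∑ q ∈ Forest S {v}, (S.filter (fun w => dep q v w = D)).card : ℕ) : ℝ) *
        (S.card : ℝ) ^ D = ((Forest S {v}).card : ℝ) *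
          (((S.card - 1).descFactorial D : ℝ) * ((D : ℝ) + 1)) := by
      exact_mod_cast h2
    rw [← mul_div_assoc, ← mul_div_assoc, eq_div_iff hpos.ne', h4]
    ring
  have h5 := desc_le S.card D hm
  calc (((Forest S {v}).filter (fun q => D ≤ hgt q v)).card : ℝ)
      ≤ ((∑ q ∈ Forest S {v}, (S.filter (fun w => dep q v w = D)).card : ℕ) : ℝ) := by
        exact_mod_cast h1
    _ = ((Forest S {v}).card : ℝ) * (((D : ℝ) + 1) *
        (((S.card - 1).descFactorial D : ℝ) / (S.card : ℝ) ^ D)) := h3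
    _ ≤ ((Forest S {v}).card : ℝ) * (((D : ℝ) + 1) *
        Real.exp (-((D : ℝ) * ((D : ℝ) + 1) / (2 * (S.card : ℝ))))) := by
        refine mul_le_mul_of_nonneg_left (mul_le_mul_of_nonneg_left h5 ?_) (Nat.cast_nonneg _)
        positivity
    _ = _ := by ring

end Pool.AAT
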