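import Pool.Agent.AAT.Defs
import Pool.Agent.AAT.Rad
import Pool.Agent.AAH.HgtE
import Pool.Agent.AAH.TailD
import Pool.Agent.AAH.FirstL

/-!
# AAH-NestH: height times total height

PLAN. `m = S.card`, `X q = Σ_{w ∈ S} hgt q w`, `F = (Forest S {v}).card`. `Σ_q X q ≤ C1 m (1 + log N) F`
(`firstL` with `V = S`, `r = v`, `m0 = 1` for the `w ≠ v`, `hgtE` for `w = v`). `D = ⌈4 √(m log N)⌉₊`. If
`hgt q v < D` then `hgt q v * X q ≤ D X q`; otherwise `hgt q v * X q ≤ m * (m * m)` (`hgt_lt`, fringes of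
`w ∈ S` lie in `S`: `hgt q w < m`; `fr_forest`). By `hgt_tail` the second part contributes
`≤ m^3 (D+1) exp(-D^2/(2m)) F ≤ N^3 (6 N) N^(-8) F ≤ F` (`D^2 ≥ 16 m log N`, `D + 1 ≤ 6 N`, `N ≥ 2`).
Total `≤ ((4 √(m log N) + 1) C1 m (1 + log N) + 1) F ≤ C m^(3/2) (log N)^(3/2) F` as `m ≥ 1`,
`log N ≥ log 2 > 1/2`.
-/

set_option autoImplicit false

namespace Pool.AAT

open Finset
open scoped Classical

private theorem fr_sub {α : Type} [Fintype α] (S : Finset α) (v : α) (hv : v ∈ S) (q : α → α)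
    (hq : q ∈ Forest S {v}) (w : α) (hw : w ∈ S) : fr q w ⊆ S := by
  intro x hx
  rw [← fr_forest S v hv q hq] at hw ⊢
  unfold fr at hx hw ⊢
  rw [mem_filter] at hx hw ⊢
  obtain ⟨i, hi⟩ := hx.2
  obtain ⟨j, hj⟩ := hw.2
  exact ⟨mem_univ _, j + i, by rw [Function.iterate_add_apply, hi, hj]⟩

private theorem hgt_le_card {α : Type} [Fintype α] (S : Finset α) (v : α) (hv : v ∈ S) (q : α → α)
    (hq : q ∈ Forest S {v}) (w : α) (hw : w ∈ S) : (hgt q w : ℝ) ≤ S.card := by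
  have h1 := (hgt_lt q w).le.trans (card_le_card (fr_sub S v hv q hq w hw))
  exact_mod_cast h1

private theorem log_half {N : ℕ} (hN : 2 ≤ N) : (1 / 2 : ℝ) ≤ Real.log N := by
  have h1 : Real.log 2 ≤ Real.log N := Real.log_le_log (by norm_num) (by exact_mod_cast hN)
  have h2 := Real.log_two_gt_d9
  linarith

/-- the numerical estimate for the large heights -/
private theorem tail_num {N m D : ℕ} (hN : 2 ≤ N) (hm : 1 ≤ m) (hmN : m ≤ N)
    (hD1 : 4 * Real.sqrt ((m : ℝ) * Real.log N) ≤ D)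
    (hD2 : (D : ℝ) ≤ 4 * Real.sqrt ((m : ℝ) * Real.log N) + 1) :
    (m : ℝ) ^ 3 * (((D : ℝ) + 1) * Real.exp (-((D : ℝ) * ((D : ℝ) + 1) / (2 * (m : ℝ))))) ≤ 1 := by
  have hN0 : (2 : ℝ) ≤ N := by exact_mod_cast hN
  have hm0 : (1 : ℝ) ≤ m := by exact_mod_cast hm
  have hmN0 : (m : ℝ) ≤ N := by exact_mod_cast hmN
  have hL := log_half hN
  obtain ⟨L, hLd⟩ : ∃ L, L = Real.log N := ⟨_, rfl⟩
  rw [← hLd] at hL hD1 hD2
  have hLN : L ≤ N := by
    rw [hLd]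
    have := Real.log_le_sub_one_of_pos (show (0 : ℝ) < N by linarith)
    linarith
  have hsq : Real.sqrt (m * L) ≤ N := by
    apply Real.sqrt_le_iff.2
    refine ⟨by linarith, ?_⟩
    rw [sq]
    exact mul_le_mul hmN0 hLN (by linarith) (by linarith)
  have hD3 : (D : ℝ) + 1 ≤ 6 * N := by linarith
  have hs0 := Real.sqrt_nonneg (m * L)
  have hs2 : Real.sqrt (m * L) * Real.sqrt (m * L) = m * L := Real.mul_self_sqrt (by positivity)
  have hD0 : (0 : ℝ) ≤ D := Nat.cast_nonneg _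
  have hDD : 16 * (m * L) ≤ (D : ℝ) * (D + 1) := by
    have h1 : (4 * Real.sqrt (m * L)) * (4 * Real.sqrt (m * L)) ≤ (D : ℝ) * (D + 1) :=
      mul_le_mul hD1 (by linarith) (by positivity) hD0
    nlinarith
  have hexp : Real.exp (-((D : ℝ) * ((D : ℝ) + 1) / (2 * (m : ℝ)))) ≤ 1 / (N : ℝ) ^ 8 := by
    have h1 : 8 * L ≤ (D : ℝ) * ((D : ℝ) + 1) / (2 * (m : ℝ)) := by
      rw [le_div_iff₀ (by linarith)]
      linarith
    have h2 : 1 / (N : ℝ) ^ 8 = Real.exp (-(8 * L)) := by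
      have h3 : Real.exp L = N := by rw [hLd]; exact Real.exp_log (by linarith)
      have h4 := Real.exp_nat_mul L 8
      push_cast at h4
      rw [Real.exp_neg, h4, h3, one_div]
    rw [h2]
    exact Real.exp_le_exp.2 (by linarith)
  have h5 : (m : ℝ) ^ 3 ≤ (N : ℝ) ^ 3 := pow_le_pow_left₀ (by linarith) hmN0 3
  have h6 : ((D : ℝ) + 1) * Real.exp (-((D : ℝ) * ((D : ℝ) + 1) / (2 * (m : ℝ)))) ≤
      6 * N * (1 / (N : ℝ) ^ 8) :=
    mul_le_mul hD3 hexp (Real.exp_pos _).le (by linarith)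
  have h7 : (m : ℝ) ^ 3 * (((D : ℝ) + 1) * Real.exp (-((D : ℝ) * ((D : ℝ) + 1) / (2 * (m : ℝ))))) ≤
      (N : ℝ) ^ 3 * (6 * N * (1 / (N : ℝ) ^ 8)) := by
    refine mul_le_mul h5 h6 ?_ (by positivity)
    exact mul_nonneg (by linarith) (Real.exp_pos _).le
  refine h7.trans ?_
  have h8 : (N : ℝ) ^ 3 * (6 * N * (1 / (N : ℝ) ^ 8)) = 6 / (N : ℝ) ^ 4 := by
    field_simp
  rw [h8, div_le_one (by positivity)]
  have h9 : (2 : ℝ) ^ 4 ≤ (N : ℝ) ^ 4 := pow_le_pow_left₀ (by norm_num) hN0 4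
  linarith

theorem nestH : ∃ C : ℝ, 0 < C ∧ ∀ (β : Type) [Fintype β] (S : Finset β) (v : β), v ∈ S →
    ∀ N : ℕ, 2 ≤ N → S.card ≤ N →
    ∑ q ∈ Forest S {v}, (hgt q v : ℝ) * ∑ w ∈ S, (hgt q w : ℝ) ≤
      C * (S.card : ℝ) ^ ((3 : ℝ) / 2) * (Real.log N) ^ ((3 : ℝ) / 2) *
        ((Forest S {v}).card : ℝ) := by
  obtain ⟨C1, hC1, hfirst⟩ := firstL
  obtain ⟨K, hK, hE⟩ := hgtE
  refine ⟨18 * (C1 + K) + 8, by positivity, ?_⟩
  intro β _ S v hv N hN hSN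
  obtain ⟨m, hm⟩ : ∃ m, m = S.card := ⟨_, rfl⟩
  have hm1 : 1 ≤ m := by rw [hm]; exact card_pos.2 ⟨v, hv⟩
  have hm1' : (1 : ℝ) ≤ m := by exact_mod_cast hm1
  have hmN : m ≤ N := by rw [hm]; exact hSN
  obtain ⟨L, hLd⟩ : ∃ L, L = Real.log N := ⟨_, rfl⟩
  have hL : 1 / 2 ≤ L := by rw [hLd]; exact log_half hN
  obtain ⟨F, hF⟩ : ∃ F : ℝ, F = ((Forest S {v}).card : ℝ) := ⟨_, rfl⟩
  have hF0 : 0 ≤ F := by rw [hF]; exact Nat.cast_nonneg _
  have hlogm : Real.log m ≤ L := by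
    rw [hLd]
    exact Real.log_le_log (by linarith) (by exact_mod_cast hmN)
  have hlogm0 : 0 ≤ Real.log m := Real.log_nonneg hm1'
  obtain ⟨D, hD⟩ : ∃ D : ℕ, D = ⌈4 * Real.sqrt ((m : ℝ) * L)⌉₊ := ⟨_, rfl⟩
  have hD1 : 4 * Real.sqrt ((m : ℝ) * L) ≤ D := by rw [hD]; exact Nat.le_ceil _
  have hD2 : (D : ℝ) ≤ 4 * Real.sqrt ((m : ℝ) * L) + 1 := by
    rw [hD]
    exact (Nat.ceil_lt_add_one (by positivity)).le
  have h1 : ∑ q ∈ Forest S {v}, ∑ w ∈ S, (hgt q w : ℝ) ≤ (C1 + K) * m * (1 + L) * F := by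
    have h2 : ∀ q ∈ Forest S {v}, ∑ w ∈ S, (hgt q w : ℝ) =
        ∑ w ∈ (S.erase v).filter (fun w => 1 ≤ (fr q w).card), (hgt q w : ℝ) + (hgt q v : ℝ) := by
      intro q _
      have hf : (S.erase v).filter (fun w => 1 ≤ (fr q w).card) = S.erase v :=
        filter_true_of_mem (fun w _ => card_pos.2 ⟨w, mem_fr_self q w⟩)
      rw [hf]
      exact (sum_erase_add _ _ hv).symm
    rw [sum_congr rfl h2, sum_add_distrib]
    have h3 := hfirst β S v hv 1 le_rfl (by rw [← hm]; exact hm1)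
    rw [← hm, ← hF, Nat.cast_one, div_one] at h3
    have h4 := hE β S v hv
    rw [← hm, ← hF] at h4
    have h5 : C1 * (m : ℝ) * (1 + Real.log m) * F ≤ C1 * (m : ℝ) * (1 + L) * F := by
      refine mul_le_mul_of_nonneg_right ?_ hF0
      exact mul_le_mul_of_nonneg_left (by linarith) (by positivity)
    have h6 : K * Real.sqrt m * F ≤ K * m * (1 + L) * F := by
      refine mul_le_mul_of_nonneg_right ?_ hF0
      rw [mul_assoc]
      refine mul_le_mul_of_nonneg_left ?_ hK.le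
      have h7 : Real.sqrt m ≤ m := by
        apply Real.sqrt_le_iff.2
        exact ⟨by linarith, by nlinarith⟩
      nlinarith
    calc _ ≤ C1 * (m : ℝ) * (1 + L) * F + K * m * (1 + L) * F := add_le_add (h3.trans h5) (h4.trans h6)
      _ = _ := by ring
  have h2 : ∀ q ∈ Forest S {v}, (hgt q v : ℝ) * ∑ w ∈ S, (hgt q w : ℝ) ≤
      D * ∑ w ∈ S, (hgt q w : ℝ) + if D ≤ hgt q v then (m : ℝ) ^ 3 else 0 := by
    intro q hq
    have hX0 : 0 ≤ ∑ w ∈ S, (hgt q w : ℝ) := sum_nonneg fun _ _ => Nat.cast_nonneg _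
    split_ifs with hDq
    · have h3 : (hgt q v : ℝ) ≤ m := by rw [hm]; exact hgt_le_card S v hv q hq v hv
      have h4 : ∑ w ∈ S, (hgt q w : ℝ) ≤ m * m := by
        calc ∑ w ∈ S, (hgt q w : ℝ) ≤ ∑ _w ∈ S, (m : ℝ) :=
              sum_le_sum fun w hw => by rw [hm]; exact hgt_le_card S v hv q hq w hw
          _ = m * m := by rw [sum_const, ← hm, nsmul_eq_mul]
      have h5 : (hgt q v : ℝ) * ∑ w ∈ S, (hgt q w : ℝ) ≤ m * (m * m) :=
        mul_le_mul h3 h4 hX0 (by linarith)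
      have h6 : (0 : ℝ) ≤ D * ∑ w ∈ S, (hgt q w : ℝ) := mul_nonneg (Nat.cast_nonneg _) hX0
      have h7 : (m : ℝ) * (m * m) = (m : ℝ) ^ 3 := by ring
      linarith
    · rw [add_zero]
      refine mul_le_mul_of_nonneg_right ?_ hX0
      exact_mod_cast (not_le.1 hDq).le
  have h3 : ∑ q ∈ Forest S {v}, (if D ≤ hgt q v then (m : ℝ) ^ 3 else 0) ≤ F := by
    rw [← sum_filter, sum_const, nsmul_eq_mul]
    have h4 := hgt_tail S v hv D
    rw [← hm, ← hF] at h4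
    have h5 := tail_num hN hm1 hmN (D := D) (by rw [← hLd]; exact hD1) (by rw [← hLd]; exact hD2)
    have h6 : (((Forest S {v}).filter (fun q => D ≤ hgt q v)).card : ℝ) * (m : ℝ) ^ 3 ≤
        ((D : ℝ) + 1) * Real.exp (-((D : ℝ) * ((D : ℝ) + 1) / (2 * (m : ℝ)))) * F * (m : ℝ) ^ 3 :=
      mul_le_mul_of_nonneg_right h4 (by positivity)
    refine h6.trans ?_
    calc _ = (m : ℝ) ^ 3 * (((D : ℝ) + 1) *
          Real.exp (-((D : ℝ) * ((D : ℝ) + 1) / (2 * (m : ℝ))))) * F := by ring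
      _ ≤ 1 * F := mul_le_mul_of_nonneg_right h5 hF0
      _ = F := one_mul F
  have h4 : ∑ q ∈ Forest S {v}, (hgt q v : ℝ) * ∑ w ∈ S, (hgt q w : ℝ) ≤
      D * ((C1 + K) * m * (1 + L) * F) + F := by
    refine (sum_le_sum h2).trans ?_
    rw [sum_add_distrib, ← mul_sum]
    exact add_le_add (mul_le_mul_of_nonneg_left h1 (Nat.cast_nonneg _)) h3
  refine h4.trans ?_
  rw [← hm, ← hLd, ← hF]
  have hx : 1 / 2 ≤ (m : ℝ) * L := by nlinarith
  have hx0 : 0 < (m : ℝ) * L := by linarith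
  have hrp : (m : ℝ) ^ ((3 : ℝ) / 2) * L ^ ((3 : ℝ) / 2) = (m * L) * Real.sqrt (m * L) := by
    rw [← Real.mul_rpow (by linarith) (by linarith), show (3 : ℝ) / 2 = 1 + 1 / 2 by norm_num,
      Real.rpow_add hx0, Real.rpow_one, ← Real.sqrt_eq_rpow]
  rw [show (18 * (C1 + K) + 8) * (m : ℝ) ^ ((3 : ℝ) / 2) * L ^ ((3 : ℝ) / 2) * F =
    (18 * (C1 + K) + 8) * ((m : ℝ) ^ ((3 : ℝ) / 2) * L ^ ((3 : ℝ) / 2)) * F by ring, hrp]
  obtain ⟨R, hR⟩ : ∃ R, R = Real.sqrt ((m : ℝ) * L) := ⟨_, rfl⟩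
  have hR1 : 1 / 2 ≤ R := by
    rw [hR]
    apply Real.le_sqrt_of_sq_le
    norm_num
    linarith
  rw [← hR] at hD2 ⊢
  have h5 : (D : ℝ) ≤ 6 * R := by linarith
  have h6 : D * ((C1 + K) * m * (1 + L)) ≤ 6 * R * ((C1 + K) * m * (3 * L)) := by
    refine mul_le_mul h5 ?_ (by positivity) (by linarith)
    exact mul_le_mul_of_nonneg_left (by linarith) (by positivity)
  have h7 : (1 : ℝ) ≤ 8 * (m * L * R) := by
    have : (1 / 2 : ℝ) * (1 / 2) ≤ m * L * R := mul_le_mul hx hR1 (by norm_num) (by linarith)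
    linarith
  have h8 : D * ((C1 + K) * m * (1 + L)) + 1 ≤ (18 * (C1 + K) + 8) * (m * L * R) := by
    calc D * ((C1 + K) * m * (1 + L)) + 1 ≤
        6 * R * ((C1 + K) * m * (3 * L)) + 8 * (m * L * R) := add_le_add h6 h7
      _ = _ := by ring
  calc D * ((C1 + K) * m * (1 + L) * F) + F = (D * ((C1 + K) * m * (1 + L)) + 1) * F := by ring
    _ ≤ _ := mul_le_mul_of_nonneg_right h8 hF0

end Pool.AAT
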