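import Pool.Agent.AAT.Defs
import Pool.Agent.AAT.Split
import Pool.Agent.AAT.CardF
import Pool.Agent.AAT.Rad
import Pool.Agent.AAT.TtLe
import Pool.Agent.AAH.DepS
import Pool.Agent.AAH.NestH

/-!
# AAH-NestS: nested pairs of small fringes

Sorting by the fringe, `fringe_split`, `nestH`, `tt_le`.
-/

set_option autoImplicit false

namespace Pool.AAT

open Finset
open scoped Classical

private lemma card_S {α : Type} [Fintype α] (S : Finset α) (v : α) (hv : v ∈ S) :
    ((Forest S {v}).card : ℝ) = (S.card : ℝ) ^ (S.card - 1) / S.card := by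
  have h1 := card_forest S {v} (by simpa using hv)
  rw [card_singleton, one_mul] at h1
  have h2 : (0 : ℝ) < S.card := by exact_mod_cast card_pos.2 ⟨v, hv⟩
  rw [eq_div_iff h2.ne']
  exact_mod_cast h1

private lemma part_le {α : Type} [Fintype α] (r v : α) (S : Finset α) (hv : v ∈ S) (hr : r ∉ S)
    (n : ℕ) (hn : Fintype.card α = n) (K : ℝ)
    (hK : ∑ q ∈ Forest S {v}, (hgt q v : ℝ) * ∑ w ∈ S, (hgt q w : ℝ) ≤
      K * ((Forest S {v}).card : ℝ)) :
    ∑ p ∈ (Forest univ {r}).filter (fun p => fr p v = S),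
        (hgt p v : ℝ) * ∑ w ∈ fr p v, (hgt p w : ℝ) ≤
      ((n - S.card : ℕ) : ℝ) ^ (n - S.card - 1) * (K * ((S.card : ℝ) ^ (S.card - 1) / S.card)) := by
  have hvr : v ≠ r := by
    rintro rfl
    exact hr hv
  have h1 := fringe_split univ S r v (mem_univ r) hv (subset_univ S) hr
    (fun q _ _ => (hgt q v : ℝ) * ∑ w ∈ S, (hgt q w : ℝ))
  have h2 : ∑ p ∈ (Forest univ {r}).filter (fun p => fr p v = S),
        (hgt p v : ℝ) * ∑ w ∈ fr p v, (hgt p w : ℝ) =
      ∑ p ∈ (Forest univ {r}).filter (fun p => fr p v = S),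
        (hgt (cut S v p) v : ℝ) * ∑ w ∈ S, (hgt (cut S v p) w : ℝ) := by
    refine sum_congr rfl fun p hp => ?_
    have h3 := (mem_filter.1 hp).2
    have h4 := (mem_filter.1 hp).1
    have h5 : ∀ w ∈ S, hgt (cut S v p) w = hgt p w := by
      intro w hw
      rw [← h3] at hw ⊢
      exact hgt_cut_of_mem univ r v (mem_univ r) (mem_univ v) hvr p h4 w hw
    rw [h5 v hv, h3]
    congr 1
    exact sum_congr rfl fun w hw => by rw [h5 w hw]
  rw [h2, h1]
  have hcard : (univ \ S).card = n - S.card := by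
    rw [card_sdiff_of_subset (subset_univ S), card_univ, hn]
  have h4 := card_forest (univ \ S) {r} (by simpa using hr)
  rw [card_singleton, one_mul, hcard] at h4
  have h5 : ((Forest (univ \ S) {r}).card : ℝ) * ((n - S.card : ℕ) : ℝ) =
      ((n - S.card : ℕ) : ℝ) ^ (n - S.card - 1) := by exact_mod_cast h4
  simp only [sum_const, nsmul_eq_mul, hcard]
  rw [← mul_sum, ← mul_sum, ← mul_assoc]
  have h6 : ((n - S.card : ℕ) : ℝ) * ((Forest (univ \ S) {r}).card : ℝ) =
      ((n - S.card : ℕ) : ℝ) ^ (n - S.card - 1) := by rw [mul_comm, h5]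
  rw [h6]
  refine mul_le_mul_of_nonneg_left ?_ (by positivity)
  rw [card_S S v hv] at hK
  exact hK

private lemma r_notMem {α : Type} [Fintype α] (r v : α) (hvr : v ≠ r) (p : α → α)
    (hp : p ∈ Forest univ {r}) : r ∉ fr p v := by
  intro h
  rw [Forest, mem_filter] at hp
  rw [fr, mem_filter] at h
  obtain ⟨i, hi⟩ := h.2
  have h1 : p r = r := hp.2.1 r (by simp)
  rw [Function.iterate_fixed h1] at hi
  exact hvr hi.symm

private lemma tt_bd {C n m : ℝ} (hC : 0 ≤ C) (hm : 1 ≤ m) (hn : 2 * m ≤ n) :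
    C * n * Real.sqrt (n / (m ^ 3 * (n - m))) * m ^ ((3 : ℝ) / 2) ≤ C * Real.sqrt 2 * n := by
  have hn0 : 0 < n := by linarith
  have hnm : 0 < n - m := by linarith
  have h1 : m ^ ((3 : ℝ) / 2) = Real.sqrt (m ^ 3) := by
    rw [Real.sqrt_eq_rpow, ← Real.rpow_natCast, ← Real.rpow_mul (by linarith)]
    norm_num
  have h2 : Real.sqrt (n / (m ^ 3 * (n - m))) * m ^ ((3 : ℝ) / 2) = Real.sqrt (n / (n - m)) := by
    rw [h1, ← Real.sqrt_mul (by positivity)]
    congr 1
    field_simp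
  have h3 : Real.sqrt (n / (n - m)) ≤ Real.sqrt 2 := by
    apply Real.sqrt_le_sqrt
    rw [div_le_iff₀ hnm]
    linarith
  calc C * n * Real.sqrt (n / (m ^ 3 * (n - m))) * m ^ ((3 : ℝ) / 2)
      = C * n * (Real.sqrt (n / (m ^ 3 * (n - m))) * m ^ ((3 : ℝ) / 2)) := by ring
    _ = C * n * Real.sqrt (n / (n - m)) := by rw [h2]
    _ ≤ C * n * Real.sqrt 2 := by
        apply mul_le_mul_of_nonneg_left h3 (by positivity)
    _ = C * Real.sqrt 2 * n := by ring

theorem nestS : ∃ C : ℝ, 0 < C ∧ ∀ (β : Type) [Fintype β] (r : β) (m1 : ℕ),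
    2 ≤ Fintype.card β → 2 * m1 ≤ Fintype.card β →
    ∑ p ∈ Forest univ {r}, ∑ v ∈ (univ.erase r).filter (fun v => (fr p v).card ≤ m1),
        (hgt p v : ℝ) * ∑ w ∈ fr p v, (hgt p w : ℝ) ≤
      C * (Fintype.card β : ℝ) * m1 * (Real.log (Fintype.card β : ℝ)) ^ ((3 : ℝ) / 2) *
        ((Forest univ {r} : Finset (β → β)).card : ℝ) := by
  obtain ⟨C, hC, h⟩ := nestH
  obtain ⟨C', hC', h'⟩ := tt_le
  refine ⟨C * (C' * Real.sqrt 2), by positivity, ?_⟩
  intro β _ r m1 hn hm1
  obtain ⟨n, hnn⟩ : ∃ n, Fintype.card β = n := ⟨_, rfl⟩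
  rw [hnn] at hn hm1 ⊢
  have hn0 : (0 : ℝ) < n := by exact_mod_cast (by omega : 0 < n)
  have hF : ((Forest univ {r} : Finset (β → β)).card : ℝ) = (n : ℝ) ^ (n - 2) := by
    have h1 := card_forest (univ : Finset β) {r} (subset_univ _)
    rw [card_singleton, one_mul, card_univ, hnn] at h1
    have h2 : ((Forest univ {r} : Finset (β → β)).card : ℝ) * n = (n : ℝ) ^ (n - 2) * n := by
      rw [← pow_succ]
      have e : n - 2 + 1 = n - 1 := by omega
      rw [e]
      exact_mod_cast h1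
    exact mul_right_cancel₀ hn0.ne' h2
  have hlog : 0 ≤ Real.log (n : ℝ) := Real.log_natCast_nonneg n
  set L : ℝ := (Real.log (n : ℝ)) ^ ((3 : ℝ) / 2) with hL
  have hL0 : 0 ≤ L := Real.rpow_nonneg hlog _
  set B : ℕ → ℝ := fun m => ((n - m : ℕ) : ℝ) ^ (n - m - 1) *
        (C * (m : ℝ) ^ ((3 : ℝ) / 2) * L * ((m : ℝ) ^ (m - 1) / m)) with hB
  have e1 : ∑ p ∈ Forest univ {r}, ∑ v ∈ (univ.erase r).filter (fun v => (fr p v).card ≤ m1),
        (hgt p v : ℝ) * ∑ w ∈ fr p v, (hgt p w : ℝ) =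
      ∑ v ∈ univ.erase r, ∑ p ∈ (Forest univ {r}).filter (fun p => (fr p v).card ≤ m1),
        (hgt p v : ℝ) * ∑ w ∈ fr p v, (hgt p w : ℝ) := by
    have e2 : ∀ p ∈ Forest univ {r}, ∑ v ∈ (univ.erase r).filter (fun v => (fr p v).card ≤ m1),
          (hgt p v : ℝ) * ∑ w ∈ fr p v, (hgt p w : ℝ) =
        ∑ v ∈ univ.erase r, if (fr p v).card ≤ m1 then
          (hgt p v : ℝ) * ∑ w ∈ fr p v, (hgt p w : ℝ) else 0 := by
      intro p _
      rw [sum_filter]
    rw [sum_congr rfl e2, sum_comm]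
    refine sum_congr rfl fun v _ => ?_
    rw [sum_filter]
  have e3 : ∀ v ∈ univ.erase r, ∑ p ∈ (Forest univ {r}).filter (fun p => (fr p v).card ≤ m1),
        (hgt p v : ℝ) * ∑ w ∈ fr p v, (hgt p w : ℝ) ≤
      ∑ S ∈ (univ.erase r).powerset.filter (fun S => v ∈ S ∧ S.card ≤ m1), B S.card := by
    intro v hv
    have hvr : v ≠ r := (mem_erase.1 hv).1
    have hmaps : ∀ p ∈ (Forest univ {r}).filter (fun p => (fr p v).card ≤ m1),
        fr p v ∈ (univ.erase r).powerset.filter (fun S => v ∈ S ∧ S.card ≤ m1) := by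
      intro p hp
      rw [mem_filter] at hp ⊢
      refine ⟨?_, mem_fr_self p v, hp.2⟩
      rw [mem_powerset]
      intro x hx
      refine mem_erase.2 ⟨?_, mem_univ _⟩
      rintro rfl
      exact r_notMem _ _ hvr p hp.1 hx
    rw [← sum_fiberwise_of_maps_to hmaps]
    refine sum_le_sum fun S hS => ?_
    rw [mem_filter, mem_powerset] at hS
    have hrS : r ∉ S := fun hr => (mem_erase.1 (hS.1 hr)).1 rfl
    have hSn : S.card ≤ n := by
      rw [← hnn, ← card_univ]
      exact card_le_card (subset_univ S)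
    have h1 := part_le r v S hS.2.1 hrS n hnn (C * (S.card : ℝ) ^ ((3 : ℝ) / 2) * L)
      (h β S v hS.2.1 n hn hSn)
    have h2 : ((Forest univ {r}).filter (fun p => (fr p v).card ≤ m1)).filter
        (fun p => fr p v = S) = (Forest univ {r}).filter (fun p => fr p v = S) := by
      ext p
      simp only [mem_filter]
      constructor
      · rintro ⟨⟨h3, -⟩, h4⟩
        exact ⟨h3, h4⟩
      · rintro ⟨h3, h4⟩
        exact ⟨⟨h3, by rw [h4]; exact hS.2.2⟩, h4⟩
    rw [h2]
    exact h1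
  have e4 : ∑ v ∈ univ.erase r, ∑ S ∈ (univ.erase r).powerset.filter
      (fun S => v ∈ S ∧ S.card ≤ m1), B S.card =
      ∑ S ∈ (univ.erase r).powerset, if S.card ≤ m1 then (S.card : ℝ) * B S.card else 0 := by
    rw [← sum_filter]
    rw [sum_comm' (s' := fun S => S) (t' := (univ.erase r).powerset.filter (fun S => S.card ≤ m1))]
    · refine sum_congr rfl fun S _ => ?_
      rw [sum_const, nsmul_eq_mul]
    · intro v S
      simp only [mem_filter, mem_powerset]
      constructor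
      · rintro ⟨-, h1, h2, h3⟩
        exact ⟨h2, h1, h3⟩
      · rintro ⟨h1, h2, h3⟩
        exact ⟨h2 h1, h2, h1, h3⟩
  have e5 : ∑ S ∈ (univ.erase r).powerset, (if S.card ≤ m1 then (S.card : ℝ) * B S.card else 0) =
      ∑ m ∈ range n, (n - 1).choose m • (if m ≤ m1 then (m : ℝ) * B m else 0) := by
    have h1 := sum_powerset_apply_card (x := (univ.erase r : Finset β))
      (fun m => if m ≤ m1 then (m : ℝ) * B m else 0)
    rw [h1, card_erase_of_mem (mem_univ r), card_univ, hnn]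
    have h2 : n - 1 + 1 = n := by omega
    rw [h2]
  set K : ℝ := C * ((Forest univ {r} : Finset (β → β)).card : ℝ) * L * (C' * Real.sqrt 2 * n) with hK
  have hK0 : 0 ≤ K := by positivity
  have e6 : ∀ m ∈ range n, (n - 1).choose m • (if m ≤ m1 then (m : ℝ) * B m else 0) ≤
      if m ∈ Ioc 0 m1 then K else 0 := by
    intro m hm
    rw [mem_range] at hm
    by_cases hmm : m ∈ Ioc 0 m1
    · rw [if_pos hmm]
      rw [mem_Ioc] at hmm
      rw [if_pos hmm.2, nsmul_eq_mul]
      have hm1 : (m : ℝ) ≠ 0 := by exact_mod_cast (by omega : m ≠ 0)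
      have hn1 : (n : ℝ) ^ (n - 2) ≠ 0 := by positivity
      have h1 : ((n - 1).choose m : ℝ) * (m * B m) =
          (C * ((Forest univ {r} : Finset (β → β)).card : ℝ) * L) *
            (tt n m * (m : ℝ) ^ ((3 : ℝ) / 2)) := by
        rw [hF, hB, tt]
        field_simp
      rw [h1, hK]
      refine mul_le_mul_of_nonneg_left ?_ (by positivity)
      have h2 := h' n m (by omega) hm
      have h3 : (0 : ℝ) ≤ (m : ℝ) ^ ((3 : ℝ) / 2) := by positivity
      refine (mul_le_mul_of_nonneg_right h2 h3).trans ?_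
      refine tt_bd hC'.le ?_ ?_
      · exact_mod_cast (by omega : 1 ≤ m)
      · exact_mod_cast (by omega : 2 * m ≤ n)
    · rw [if_neg hmm]
      rw [mem_Ioc] at hmm
      by_cases h1 : m ≤ m1
      · have h2 : m = 0 := by
          by_contra h3
          exact hmm ⟨by omega, h1⟩
        rw [if_pos h1, h2]
        simp
      · rw [if_neg h1]
        simp
  rw [e1]
  refine (sum_le_sum e3).trans ?_
  rw [e4, e5]
  refine (sum_le_sum e6).trans ?_
  rw [← sum_filter, sum_const, nsmul_eq_mul]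
  have h7 : ((range n).filter (fun m => m ∈ Ioc 0 m1)).card ≤ m1 := by
    have h8 : (range n).filter (fun m => m ∈ Ioc 0 m1) ⊆ Ioc 0 m1 := by
      intro m hm
      exact (mem_filter.1 hm).2
    have h9 := card_le_card h8
    rwa [Nat.card_Ioc, Nat.sub_zero] at h9
  have h10 : (((range n).filter (fun m => m ∈ Ioc 0 m1)).card : ℝ) ≤ m1 := by exact_mod_cast h7
  refine (mul_le_mul_of_nonneg_right h10 hK0).trans (le_of_eq ?_)
  rw [hK]
  ring

end Pool.AAT
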