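import Pool.Agent.AAT.Defs

/-!
# AAH-Inv: invariance under relabelling

Parent functions are conjugated by a permutation which maps `S` to `S'` and `v` to `v'`.
-/

set_option autoImplicit false

namespace Pool.AAT

open Finset
open scoped Classical

variable {α : Type} [Fintype α]

private theorem inv_iter {α : Type} (σ : Equiv.Perm α) (q : α → α) (i : ℕ) (x : α) :
    (σ ∘ q ∘ σ.symm)^[i] (σ x) = σ (q^[i] x) := by
  have h : Function.Semiconj σ q (σ ∘ q ∘ σ.symm) := by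
    intro x
    simp
  exact ((h.iterate_right i) x).symm

private theorem inv_mem (σ : Equiv.Perm α) (S S' : Finset α) (v v' : α)
    (hσ : ∀ x, x ∈ S ↔ σ x ∈ S') (hv : σ v = v') {q : α → α} (hq : q ∈ Forest S {v}) :
    σ ∘ q ∘ σ.symm ∈ Forest S' {v'} := by
  unfold Forest at hq ⊢
  rw [mem_filter] at hq ⊢
  obtain ⟨-, h1, h2, h3⟩ := hq
  have key : ∀ x, x ∈ S \ {v} ↔ σ x ∈ S' \ {v'} := by
    intro x
    rw [mem_sdiff, mem_sdiff, mem_singleton, mem_singleton, ← hv, hσ x, σ.injective.eq_iff]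
  refine ⟨mem_univ _, ?_, ?_, ?_⟩
  · intro y hy
    obtain ⟨x, rfl⟩ := σ.surjective y
    rw [← key] at hy
    have := inv_iter σ q 1 x
    rw [Function.iterate_one, Function.iterate_one, h1 x hy] at this
    exact this
  · intro y hy
    obtain ⟨x, rfl⟩ := σ.surjective y
    rw [← key] at hy
    have := inv_iter σ q 1 x
    rw [Function.iterate_one, Function.iterate_one] at this
    rw [this, ← hσ]
    exact h2 x hy
  · intro y hy
    obtain ⟨x, rfl⟩ := σ.surjective y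
    rw [← hσ] at hy
    obtain ⟨i, hi⟩ := h3 x hy
    refine ⟨i, ?_⟩
    rw [mem_singleton] at hi ⊢
    rw [inv_iter, hi, hv]

omit [Fintype α] in
private theorem inv_dep (σ : Equiv.Perm α) (q : α → α) (v w : α) :
    dep (σ ∘ q ∘ σ.symm) (σ v) (σ w) = dep q v w := by
  have hiff : ∀ i : ℕ, (σ ∘ q ∘ σ.symm)^[i] (σ w) = σ v ↔ q^[i] w = v := by
    intro i
    rw [inv_iter, σ.injective.eq_iff]
  unfold dep
  by_cases h : ∃ i : ℕ, q^[i] w = v
  · have h' : ∃ i : ℕ, (σ ∘ q ∘ σ.symm)^[i] (σ w) = σ v := by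
      obtain ⟨i, hi⟩ := h
      exact ⟨i, (hiff i).mpr hi⟩
    rw [dif_pos h, dif_pos h']
    exact Nat.find_congr' (fun {n} => hiff n)
  · have h' : ¬ ∃ i : ℕ, (σ ∘ q ∘ σ.symm)^[i] (σ w) = σ v := by
      rintro ⟨i, hi⟩
      exact h ⟨i, (hiff i).mp hi⟩
    rw [dif_neg h, dif_neg h']

private theorem inv_hgt (σ : Equiv.Perm α) (q : α → α) (v : α) :
    hgt (σ ∘ q ∘ σ.symm) (σ v) = hgt q v := by
  have hfr : fr (σ ∘ q ∘ σ.symm) (σ v) = (fr q v).image σ := by
    ext y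
    obtain ⟨x, rfl⟩ := σ.surjective y
    unfold fr
    rw [mem_filter, mem_image]
    constructor
    · rintro ⟨-, i, hi⟩
      rw [inv_iter, σ.injective.eq_iff] at hi
      exact ⟨x, mem_filter.mpr ⟨mem_univ _, i, hi⟩, rfl⟩
    · rintro ⟨x', hx', hxx⟩
      rw [σ.injective.eq_iff] at hxx
      subst hxx
      obtain ⟨i, hi⟩ := (mem_filter.mp hx').2
      exact ⟨mem_univ _, i, by rw [inv_iter, hi]⟩
  unfold hgt
  rw [hfr, sup_image]
  exact sup_congr rfl fun w _ => inv_dep σ q v w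

theorem sum_hgt_inv (S S' : Finset α) (v v' : α) (hv : v ∈ S) (hv' : v' ∈ S')
    (hc : S.card = S'.card) :
    ∑ q ∈ Forest S {v}, (hgt q v : ℝ) = ∑ q ∈ Forest S' {v'}, (hgt q v' : ℝ) := by
  obtain ⟨σ, hσ, hσv⟩ : ∃ σ : Equiv.Perm α, (∀ x, x ∈ S ↔ σ x ∈ S') ∧ σ v = v' := by
    let e0 : {x // x ∈ S} ≃ {x // x ∈ S'} := Finset.equivOfCardEq hc
    let e1 : {x // x ∈ S} ≃ {x // x ∈ S'} := e0.trans (Equiv.swap (e0 ⟨v, hv⟩) ⟨v', hv'⟩)
    refine ⟨e1.extendSubtype, ?_, ?_⟩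
    · intro x
      constructor
      · intro hx
        exact e1.extendSubtype_mem x hx
      · intro hx
        by_contra hcon
        exact e1.extendSubtype_not_mem x hcon hx
    · rw [e1.extendSubtype_apply_of_mem v hv]
      have : e1 ⟨v, hv⟩ = ⟨v', hv'⟩ := by
        simp [e1]
      rw [this]
  have hσ' : ∀ x, x ∈ S' ↔ σ.symm x ∈ S := by
    intro x
    rw [hσ, σ.apply_symm_apply]
  have hσv' : σ.symm v' = v := by
    rw [← hσv, σ.symm_apply_apply]
  refine Finset.sum_nbij' (fun q => σ ∘ q ∘ σ.symm) (fun q => σ.symm ∘ q ∘ σ) ?_ ?_ ?_ ?_ ?_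
  · intro q hq
    exact inv_mem σ S S' v v' hσ hσv hq
  · intro q hq
    exact inv_mem σ.symm S' S v' v hσ' hσv' hq
  · intro q _
    funext x
    simp
  · intro q _
    funext x
    simp
  · intro q _
    rw [← hσv, inv_hgt]

end Pool.AAT
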