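import Mathlib

/-!
# AAH-LogC: a log-concavity inequality
-/

set_option autoImplicit false

namespace Pool.AAT

open Finset
open scoped Classical

private noncomputable def HH (j : ℕ) : ℝ := ((j : ℝ) + 1) ^ (j + 1) / (j.factorial : ℝ)

private theorem HH_pos (j : ℕ) : 0 < HH j := by
  unfold HH
  positivity

private theorem bern (j : ℕ) :
    ((j : ℝ) + 3) ^ (j + 3) * ((j : ℝ) + 1) ^ (j + 2) ≤ ((j : ℝ) + 2) ^ (2 * j + 5) := by
  have hj : (0 : ℝ) ≤ j := Nat.cast_nonneg j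
  have hA : (0 : ℝ) < ((j : ℝ) + 3) * ((j : ℝ) + 1) := by positivity
  have h1 := one_add_mul_le_pow (a := 1 / (((j : ℝ) + 3) * ((j : ℝ) + 1)))
    (by have : (0 : ℝ) < 1 / (((j : ℝ) + 3) * ((j : ℝ) + 1)) := by positivity
        linarith) (j + 2)
  have h2 : 1 + 1 / (((j : ℝ) + 3) * ((j : ℝ) + 1)) =
      ((j : ℝ) + 2) ^ 2 / (((j : ℝ) + 3) * ((j : ℝ) + 1)) := by
    field_simp
    ring
  rw [h2, div_pow] at h1
  have h3 : ((j : ℝ) + 3) / ((j : ℝ) + 2) ≤
      1 + ((j + 2 : ℕ) : ℝ) * (1 / (((j : ℝ) + 3) * ((j : ℝ) + 1))) := by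
    push_cast
    rw [div_le_iff₀ (by positivity)]
    have h4 : (1 + ((j : ℝ) + 2) * (1 / (((j : ℝ) + 3) * ((j : ℝ) + 1)))) * ((j : ℝ) + 2) =
        ((j : ℝ) + 2) + ((j : ℝ) + 2) ^ 2 / (((j : ℝ) + 3) * ((j : ℝ) + 1)) := by
      ring
    have h5 : 1 ≤ ((j : ℝ) + 2) ^ 2 / (((j : ℝ) + 3) * ((j : ℝ) + 1)) := by
      rw [le_div_iff₀ hA]
      nlinarith
    rw [h4]
    linarith
  have h6 := h3.trans h1
  rw [div_le_div_iff₀ (by positivity) (by positivity)] at h6
  calc ((j : ℝ) + 3) ^ (j + 3) * ((j : ℝ) + 1) ^ (j + 2)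
      = ((j : ℝ) + 3) * (((j : ℝ) + 3) * ((j : ℝ) + 1)) ^ (j + 2) := by
        rw [mul_pow]
        ring
    _ ≤ (((j : ℝ) + 2) ^ 2) ^ (j + 2) * ((j : ℝ) + 2) := h6
    _ = ((j : ℝ) + 2) ^ (2 * j + 5) := by
        rw [← pow_mul, ← pow_succ]
        congr 1

private theorem HH_lc (j : ℕ) : HH (j + 2) * HH j ≤ HH (j + 1) ^ 2 := by
  have h1 := bern j
  have hj : (0 : ℝ) ≤ j := Nat.cast_nonneg j
  have hf : (0 : ℝ) < (j.factorial : ℝ) := by positivity
  unfold HH
  rw [Nat.factorial_succ (j + 1), Nat.factorial_succ j]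
  push_cast
  have e1 : ((j : ℝ) + 2 + 1) = (j : ℝ) + 3 := by ring
  have e2 : ((j : ℝ) + 1 + 1) = (j : ℝ) + 2 := by ring
  rw [e1, e2, div_mul_div_comm, div_pow, div_le_div_iff₀ (by positivity) (by positivity)]
  have h2 : ((j : ℝ) + 3) ^ (j + 2 + 1) * ((j : ℝ) + 1) ^ (j + 1) * (((j : ℝ) + 1) * (j.factorial : ℝ)) ^ 2 =
      (((j : ℝ) + 3) ^ (j + 3) * ((j : ℝ) + 1) ^ (j + 2)) * (((j : ℝ) + 1) * (j.factorial : ℝ) ^ 2) := by
    ring
  have h3 : (((j : ℝ) + 2) ^ (j + 1 + 1)) ^ 2 *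
      (((j : ℝ) + 2) * (((j : ℝ) + 1) * (j.factorial : ℝ)) * (j.factorial : ℝ)) =
      ((j : ℝ) + 2) ^ (2 * j + 5) * (((j : ℝ) + 1) * (j.factorial : ℝ) ^ 2) := by
    rw [← pow_mul]
    have : ((j : ℝ) + 2) ^ (2 * j + 5) = ((j : ℝ) + 2) ^ ((j + 1 + 1) * 2) * ((j : ℝ) + 2) := by
      rw [← pow_succ]
      congr 1
      ring
    rw [this]
    ring
  rw [h2, h3]
  exact mul_le_mul_of_nonneg_right h1 (by positivity)

private theorem HH_ratio (a d : ℕ) : HH (a + d + 1) * HH a ≤ HH (a + d) * HH (a + 1) := by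
  induction d with
  | zero => exact (mul_comm _ _).le
  | succ d ih =>
    have h1 := HH_lc (a + d)
    have p1 := HH_pos (a + d)
    have p2 := HH_pos (a + d + 1)
    have p3 := HH_pos (a + d + 2)
    have p4 := HH_pos a
    have p5 := HH_pos (a + 1)
    have h2 : (HH (a + d + 2) * HH (a + d)) * (HH (a + d + 1) * HH a) ≤
        (HH (a + d + 1) ^ 2) * (HH (a + d) * HH (a + 1)) :=
      mul_le_mul h1 ih (by positivity) (by positivity)
    have h3 : (HH (a + d + 2) * HH a) * (HH (a + d) * HH (a + d + 1)) ≤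
        (HH (a + d + 1) * HH (a + 1)) * (HH (a + d) * HH (a + d + 1)) := by
      calc _ = (HH (a + d + 2) * HH (a + d)) * (HH (a + d + 1) * HH a) := by ring
        _ ≤ _ := h2
        _ = _ := by ring
    exact le_of_mul_le_mul_right h3 (by positivity)

private theorem HH_four (a m m' : ℕ) : HH (a + m + m') * HH a ≤ HH (a + m) * HH (a + m') := by
  induction m' with
  | zero => rw [Nat.add_zero, Nat.add_zero]
  | succ m' ih =>
    have h1 := HH_ratio (a + m') m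
    have e1 : a + m' + m = a + m + m' := by ring
    rw [e1] at h1
    have p1 := HH_pos (a + m + m')
    have p2 := HH_pos (a + m')
    have p3 := HH_pos (a + m + m' + 1)
    have p4 := HH_pos a
    have p5 := HH_pos (a + m)
    have p6 := HH_pos (a + m' + 1)
    have h2 : (HH (a + m + m' + 1) * HH (a + m')) * (HH (a + m + m') * HH a) ≤
        (HH (a + m + m') * HH (a + m' + 1)) * (HH (a + m) * HH (a + m')) :=
      mul_le_mul h1 ih (by positivity) (by positivity)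
    have h3 : (HH (a + m + m' + 1) * HH a) * (HH (a + m') * HH (a + m + m')) ≤
        (HH (a + m) * HH (a + m' + 1)) * (HH (a + m') * HH (a + m + m')) := by
      calc _ = (HH (a + m + m' + 1) * HH (a + m')) * (HH (a + m + m') * HH a) := by ring
        _ ≤ _ := h2
        _ = _ := by ring
    exact le_of_mul_le_mul_right h3 (by positivity)

private theorem pow_fac (j : ℕ) : ((j : ℝ) + 1) ^ (j + 1) = HH j * (j.factorial : ℝ) := by
  unfold HH
  rw [div_mul_cancel₀]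
  positivity

theorem log_conc (n m m' : ℕ) (hm : 1 ≤ m) (hm' : 1 ≤ m') (hk : m + m' + 1 ≤ n) :
    (n : ℝ) ^ (n - 2) * ((n - 1 - m).choose m' : ℝ) *
        ((n - (m + m') : ℕ) : ℝ) ^ (n - (m + m')) ≤
      ((n - 1).choose m' : ℝ) * ((n - m : ℕ) : ℝ) ^ (n - m - 1) *
        ((n - m' : ℕ) : ℝ) ^ (n - m' - 1) := by
  obtain ⟨a, rfl⟩ : ∃ a, n = a + 1 + m + m' := ⟨n - (m + m' + 1), by omega⟩
  have e1 : a + 1 + m + m' - 1 - m = a + m' := by omega
  have e2 : a + 1 + m + m' - (m + m') = a + 1 := by omega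
  have e3 : a + 1 + m + m' - 1 = a + m + m' := by omega
  have e4 : a + 1 + m + m' - m = a + m' + 1 := by omega
  have e5 : a + 1 + m + m' - m' = a + m + 1 := by omega
  have e6 : a + m' + 1 - 1 = a + m' := by omega
  have e7 : a + m + 1 - 1 = a + m := by omega
  rw [e1, e2, e3, e4, e5, e6, e7]
  have c1 : ((a + m').choose m' : ℝ) =
      ((a + m').factorial : ℝ) / ((a.factorial : ℝ) * (m'.factorial : ℝ)) := by
    rw [← Nat.choose_symm_add, Nat.cast_add_choose]
  have c2 : ((a + m + m').choose m' : ℝ) =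
      ((a + m + m').factorial : ℝ) / (((a + m).factorial : ℝ) * (m'.factorial : ℝ)) := by
    rw [← Nat.choose_symm_add, Nat.cast_add_choose]
  have hn : ((a + 1 + m + m' : ℕ) : ℝ) = ((a + m + m' : ℕ) : ℝ) + 1 := by
    push_cast
    ring
  have q0 := pow_fac (a + m + m')
  have q1 := pow_fac a
  have q2 := pow_fac (a + m)
  have q3 := pow_fac (a + m')
  have h4 := HH_four a m m'
  have f0 : (0 : ℝ) < (a.factorial : ℝ) := by positivity
  have f1 : (0 : ℝ) < (m'.factorial : ℝ) := by positivity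
  have f2 : (0 : ℝ) < ((a + m).factorial : ℝ) := by positivity
  have f3 : (0 : ℝ) < ((a + m').factorial : ℝ) := by positivity
  have f4 : (0 : ℝ) < ((a + m + m').factorial : ℝ) := by positivity
  set N : ℝ := ((a + 1 + m + m' : ℕ) : ℝ) with hN
  have hNpos : 0 < N := by
    rw [hN]
    positivity
  have hL : N ^ (a + 1 + m + m' - 2) * ((a + m').choose m' : ℝ) * ((a + 1 : ℕ) : ℝ) ^ (a + 1) * N ^ 2 =
      (((a + m + m').factorial : ℝ) * ((a + m').factorial : ℝ) / (m'.factorial : ℝ)) *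
        (HH (a + m + m') * HH a) := by
    have h5 : N ^ (a + 1 + m + m' - 2) * N ^ 2 = HH (a + m + m') * ((a + m + m').factorial : ℝ) := by
      rw [← pow_add, ← q0, ← hn]
      congr 1
      omega
    have h6 : ((a + 1 : ℕ) : ℝ) ^ (a + 1) = HH a * (a.factorial : ℝ) := by
      rw [← q1]
      push_cast
      rfl
    calc _ = (N ^ (a + 1 + m + m' - 2) * N ^ 2) * ((a + m').choose m' : ℝ) *
          ((a + 1 : ℕ) : ℝ) ^ (a + 1) := by ring
      _ = _ := by
        rw [h5, h6, c1]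
        field_simp
  have hR : ((a + m + m').choose m' : ℝ) * ((a + m' + 1 : ℕ) : ℝ) ^ (a + m') *
      ((a + m + 1 : ℕ) : ℝ) ^ (a + m) * (((a + m' + 1 : ℕ) : ℝ) * ((a + m + 1 : ℕ) : ℝ)) =
      (((a + m + m').factorial : ℝ) * ((a + m').factorial : ℝ) / (m'.factorial : ℝ)) *
        (HH (a + m) * HH (a + m')) := by
    have h5 : ((a + m' + 1 : ℕ) : ℝ) ^ (a + m') * ((a + m' + 1 : ℕ) : ℝ) =
        HH (a + m') * ((a + m').factorial : ℝ) := by
      rw [← pow_succ, ← q3]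
      push_cast
      rfl
    have h6 : ((a + m + 1 : ℕ) : ℝ) ^ (a + m) * ((a + m + 1 : ℕ) : ℝ) =
        HH (a + m) * ((a + m).factorial : ℝ) := by
      rw [← pow_succ, ← q2]
      push_cast
      rfl
    calc _ = ((a + m + m').choose m' : ℝ) *
          (((a + m' + 1 : ℕ) : ℝ) ^ (a + m') * ((a + m' + 1 : ℕ) : ℝ)) *
          (((a + m + 1 : ℕ) : ℝ) ^ (a + m) * ((a + m + 1 : ℕ) : ℝ)) := by ring
      _ = _ := by
        rw [h5, h6, c2]
        field_simp
  have hc : (0 : ℝ) ≤ ((a + m + m').factorial : ℝ) * ((a + m').factorial : ℝ) / (m'.factorial : ℝ) := by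
    positivity
  have h7 := mul_le_mul_of_nonneg_left h4 hc
  rw [← hL, ← hR] at h7
  have h8 : ((a + m' + 1 : ℕ) : ℝ) * ((a + m + 1 : ℕ) : ℝ) ≤ N ^ 2 := by
    have g1 : ((a + m' + 1 : ℕ) : ℝ) ≤ N := by
      rw [hN]
      exact_mod_cast (by omega : a + m' + 1 ≤ a + 1 + m + m')
    have g2 : ((a + m + 1 : ℕ) : ℝ) ≤ N := by
      rw [hN]
      exact_mod_cast (by omega : a + m + 1 ≤ a + 1 + m + m')
    rw [pow_two]
    exact mul_le_mul g1 g2 (by positivity) hNpos.le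
  have h9 : (0 : ℝ) ≤ ((a + m + m').choose m' : ℝ) * ((a + m' + 1 : ℕ) : ℝ) ^ (a + m') *
      ((a + m + 1 : ℕ) : ℝ) ^ (a + m) := by
    positivity
  have h10 := h7.trans (mul_le_mul_of_nonneg_left h8 h9)
  exact le_of_mul_le_mul_right h10 (by positivity)

end Pool.AAT
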