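import Pool.Agent.AAT.Defs
import Pool.Agent.AAT.Split
import Pool.Agent.AAT.Split2
import Pool.Agent.AAT.CardF
import Pool.Agent.AAT.Rad
import Pool.Agent.AAH.Inv
import Pool.Agent.AAH.LogC

/-!
# AAH-SecH: second moment: disjoint fringes are negatively correlated

The generic part follows `Pool/Agent/AAT/SecA.lean`; the comparison of the pairs of disjoint
fringes uses `log_conc`.
-/

set_option autoImplicit false

namespace Pool.AAT

open Finset
open scoped Classical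

variable {α : Type} [Fintype α]

/-- The vertices other than the root with a small fringe. -/
private noncomputable def hT (r : α) (m0 : ℕ) (p : α → α) : Finset α :=
  univ.filter (fun v => v ≠ r ∧ (fr p v).card ≤ m0)

private lemma mem_hT (r : α) (m0 : ℕ) (p : α → α) (v : α) :
    v ∈ hT r m0 p ↔ v ≠ r ∧ (fr p v).card ≤ m0 := by
  simp only [hT, Finset.mem_filter, Finset.mem_univ, true_and]

/-- Pairs `(v, S)` of a possible fringe vertex and its fringe. -/
private noncomputable def hI (r : α) (m0 : ℕ) : Finset (α × Finset (α)) :=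
  univ.filter (fun x => x.1 ∈ x.2 ∧ r ∉ x.2 ∧ x.2.card ≤ m0)

/-- The total height over all trees on `S` with root `v`. -/
private noncomputable def hW (x : α × Finset (α)) : ℝ :=
  ∑ q ∈ Forest x.2 {x.1}, (hgt q x.1 : ℝ)

private lemma mem_hI (r : α) (m0 : ℕ) (x : α × Finset (α)) :
    x ∈ hI r m0 ↔ x.1 ∈ x.2 ∧ r ∉ x.2 ∧ x.2.card ≤ m0 := by
  simp only [hI, Finset.mem_filter, Finset.mem_univ, true_and]

private lemma hW_nonneg (x : α × Finset (α)) : 0 ≤ hW x :=
  Finset.sum_nonneg fun _ _ => Nat.cast_nonneg _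

private lemma hroot_fix (r : α) (p : α → α) (hp : p ∈ Forest univ {r}) : p r = r := by
  simp only [Forest, Finset.mem_filter, Finset.mem_univ, true_and] at hp
  exact hp.1 r (by simp)

private lemma hroot_notMem (r : α) (p : α → α) (hp : p ∈ Forest univ {r}) (v : α)
    (hv : v ≠ r) : r ∉ fr p v := by
  intro h
  simp only [fr, Finset.mem_filter, Finset.mem_univ, true_and] at h
  obtain ⟨i, hi⟩ := h
  rw [Function.iterate_fixed (hroot_fix r p hp)] at hi
  exact hv hi.symm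

private lemma h_index (r : α) (m0 : ℕ) (p : α → α) (hp : p ∈ Forest univ {r})
    (g : α → ℝ) :
    ∑ v ∈ hT r m0 p, g v =
      ∑ x ∈ hI r m0, if fr p x.1 = x.2 then g x.1 else 0 := by
  rw [← Finset.sum_filter]
  refine Finset.sum_nbij' (fun v => (v, fr p v)) (fun x => x.1) ?_ ?_ ?_ ?_ ?_
  · intro v hv
    rw [mem_hT] at hv
    rw [Finset.mem_filter, mem_hI]
    exact ⟨⟨mem_fr_self p v, hroot_notMem r p hp v hv.1, hv.2⟩, rfl⟩
  · intro x hx
    rw [Finset.mem_filter, mem_hI] at hx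
    obtain ⟨⟨h1, h2, h3⟩, h4⟩ := hx
    rw [mem_hT]
    refine ⟨fun h => h2 (h ▸ h1), ?_⟩
    rw [h4]; exact h3
  · intro v _; rfl
  · intro x hx
    rw [Finset.mem_filter] at hx
    exact Prod.ext rfl hx.2
  · intro v _; rfl

private lemma h_card_F (n : ℕ) (hn : Fintype.card α = n) (r : α) :
    ((Forest univ {r} : Finset (α → α)).card : ℝ) = (n : ℝ) ^ (n - 2) := by
  have hn0 : 0 < n := by rw [← hn]; exact Fintype.card_pos_iff.mpr ⟨r⟩
  have h := card_forest (univ : Finset (α)) {r} (Finset.subset_univ _)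
  rw [Finset.card_univ, hn, Finset.card_singleton, one_mul] at h
  have h2 : (Forest univ {r} : Finset (α → α)).card = n ^ (n - 2) := by
    rcases Nat.lt_or_ge n 2 with h1 | h1
    · have : n = 1 := by omega
      subst this
      simpa using h
    · have e : n - 1 = (n - 2) + 1 := by omega
      rw [e, pow_succ] at h
      exact Nat.eq_of_mul_eq_mul_right hn0 h
  rw [h2]; push_cast; rfl

private lemma h_card_U (U : Finset (α)) (r : α) (h : r ∈ U) :
    (U.card : ℝ) * ((Forest U {r} : Finset (α → α)).card : ℝ) =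
      (U.card : ℝ) ^ (U.card - 1) := by
  have h := card_forest U {r} (Finset.singleton_subset_iff.mpr h)
  rw [Finset.card_singleton, one_mul] at h
  rw [mul_comm]
  exact_mod_cast h

private lemma h_first (n : ℕ) (hn : Fintype.card α = n) (r : α) (m0 : ℕ) :
    ∑ p ∈ Forest univ {r}, ∑ v ∈ hT r m0 p, (hgt p v : ℝ) =
    ∑ x ∈ hI r m0, ((n - x.2.card : ℕ) : ℝ) ^ (n - x.2.card - 1) * hW x := by
  have h1 : ∀ p ∈ Forest univ {r}, ∑ v ∈ hT r m0 p, (hgt p v : ℝ) =
      ∑ x ∈ hI r m0, if fr p x.1 = x.2 then (hgt (cut x.2 x.1 p) x.1 : ℝ) else 0 := by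
    intro p hp
    rw [h_index r m0 p hp (fun v => (hgt p v : ℝ))]
    refine Finset.sum_congr rfl fun x _ => ?_
    by_cases h : fr p x.1 = x.2
    · rw [if_pos h, if_pos h, ← h, hgt_cut]
    · rw [if_neg h, if_neg h]
  rw [Finset.sum_congr rfl h1, Finset.sum_comm]
  refine Finset.sum_congr rfl fun x hx => ?_
  rw [mem_hI] at hx
  rw [← Finset.sum_filter]
  have h2 := fringe_split univ x.2 r x.1 (Finset.mem_univ r) hx.1 (Finset.subset_univ _) hx.2.1
    (fun q _ _ => (hgt q x.1 : ℝ))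
  rw [h2]
  have hc : (univ \ x.2 : Finset (α)).card = n - x.2.card := by
    rw [Finset.card_univ_sdiff, hn]
  have h3 := h_card_U (univ \ x.2) r (by simp [hx.2.1])
  rw [hc] at h3
  rw [← h3, hW, Finset.mul_sum]
  refine Finset.sum_congr rfl fun q _ => ?_
  rw [Finset.sum_const, Finset.sum_const, nsmul_eq_mul, nsmul_eq_mul, hc, mul_assoc]

private lemma h_pair (n : ℕ) (hn : Fintype.card α = n) (r : α) (x x' : α × Finset (α))
    (hx : x.1 ∈ x.2) (hx' : x'.1 ∈ x'.2) (hr : r ∉ x.2) (hr' : r ∉ x'.2)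
    (hd : Disjoint x.2 x'.2) :
    ∑ p ∈ (Forest univ {r}).filter (fun p => fr p x.1 = x.2 ∧ fr p x'.1 = x'.2),
      (hgt p x.1 : ℝ) * (hgt p x'.1 : ℝ) =
    ((n - (x.2.card + x'.2.card) : ℕ) : ℝ) ^ (n - (x.2.card + x'.2.card)) *
      (hW x * hW x') := by
  have h1 : ∑ p ∈ (Forest univ {r}).filter (fun p => fr p x.1 = x.2 ∧ fr p x'.1 = x'.2),
      (hgt p x.1 : ℝ) * (hgt p x'.1 : ℝ) =
      ∑ p ∈ (Forest univ {r}).filter (fun p => fr p x.1 = x.2 ∧ fr p x'.1 = x'.2),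
      (fun q q' : α → α => (hgt q x.1 : ℝ) * (hgt q' x'.1 : ℝ))
        (cut x.2 x.1 p) (cut x'.2 x'.1 p) := by
    refine Finset.sum_congr rfl fun p hp => ?_
    rw [Finset.mem_filter] at hp
    show (hgt p x.1 : ℝ) * (hgt p x'.1 : ℝ) =
      (hgt (cut x.2 x.1 p) x.1 : ℝ) * (hgt (cut x'.2 x'.1 p) x'.1 : ℝ)
    rw [← hp.2.1, ← hp.2.2, hgt_cut, hgt_cut]
  rw [h1, fringe_split2 x.2 x'.2 r x.1 x'.1 hx hx' hd hr hr'
    (fun q q' : α → α => (hgt q x.1 : ℝ) * (hgt q' x'.1 : ℝ))]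
  have hc : ((univ \ x.2) \ x'.2 : Finset (α)).card = n - (x.2.card + x'.2.card) := by
    rw [sdiff_sdiff_left, Finset.card_univ_sdiff, hn]
    show n - (x.2 ∪ x'.2).card = _
    rw [Finset.card_union_of_disjoint hd]
  have hrU : r ∈ ((univ \ x.2) \ x'.2 : Finset (α)) := by simp [hr, hr']
  have h3 := h_card_U ((univ \ x.2) \ x'.2) r hrU
  have hpos : 0 < ((univ \ x.2) \ x'.2 : Finset (α)).card := Finset.card_pos.mpr ⟨r, hrU⟩
  rw [hc] at h3 hpos
  rw [hc]
  obtain ⟨k, hk⟩ : ∃ k, k = n - (x.2.card + x'.2.card) := ⟨_, rfl⟩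
  rw [← hk] at h3 hpos ⊢
  have h4 : (k : ℝ) ^ 2 * ((Forest ((univ \ x.2) \ x'.2) {r} : Finset (α → α)).card : ℝ) =
      (k : ℝ) ^ k := by
    rw [pow_two, mul_assoc, h3, ← pow_succ']
    congr 1
    omega
  rw [h4]
  congr 1
  rw [hW, hW, Finset.sum_mul_sum]

private lemma h_disj (n : ℕ) (hn : Fintype.card α = n) (r : α) (m0 : ℕ) :
    ∑ p ∈ Forest univ {r}, ∑ v ∈ hT r m0 p, ∑ v' ∈ hT r m0 p,
        (if Disjoint (fr p v) (fr p v') then (hgt p v : ℝ) * (hgt p v' : ℝ) else 0) =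
    ∑ x ∈ hI r m0, ∑ x' ∈ hI r m0, if Disjoint x.2 x'.2 then
      ((n - (x.2.card + x'.2.card) : ℕ) : ℝ) ^ (n - (x.2.card + x'.2.card)) *
        (hW x * hW x') else 0 := by
  have h1 : ∀ p ∈ Forest univ {r}, ∑ v ∈ hT r m0 p, ∑ v' ∈ hT r m0 p,
        (if Disjoint (fr p v) (fr p v') then (hgt p v : ℝ) * (hgt p v' : ℝ) else 0) =
      ∑ x ∈ hI r m0, ∑ x' ∈ hI r m0,
        if Disjoint x.2 x'.2 then
          (if fr p x.1 = x.2 ∧ fr p x'.1 = x'.2 then
            (hgt p x.1 : ℝ) * (hgt p x'.1 : ℝ) else 0) else 0 := by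
    intro p hp
    rw [h_index r m0 p hp (fun v =>
      ∑ v' ∈ hT r m0 p,
      if Disjoint (fr p v) (fr p v') then (hgt p v : ℝ) * (hgt p v' : ℝ) else 0)]
    refine Finset.sum_congr rfl fun x _ => ?_
    by_cases h : fr p x.1 = x.2
    · rw [if_pos h]
      show ∑ v' ∈ hT r m0 p,
        (if Disjoint (fr p x.1) (fr p v') then (hgt p x.1 : ℝ) * (hgt p v' : ℝ) else 0) = _
      rw [h_index r m0 p hp (fun v' =>
        if Disjoint (fr p x.1) (fr p v') then (hgt p x.1 : ℝ) * (hgt p v' : ℝ) else 0)]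
      refine Finset.sum_congr rfl fun x' _ => ?_
      by_cases h' : fr p x'.1 = x'.2
      · rw [if_pos h', if_pos (⟨h, h'⟩ : fr p x.1 = x.2 ∧ fr p x'.1 = x'.2)]
        show (if Disjoint (fr p x.1) (fr p x'.1) then
          (hgt p x.1 : ℝ) * (hgt p x'.1 : ℝ) else 0) = _
        rw [h, h']
      · rw [if_neg h', if_neg (fun hh : fr p x.1 = x.2 ∧ fr p x'.1 = x'.2 => h' hh.2), ite_self]
    · rw [if_neg h]
      symm
      refine Finset.sum_eq_zero fun x' _ => ?_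
      rw [if_neg (fun hh : fr p x.1 = x.2 ∧ fr p x'.1 = x'.2 => h hh.1), ite_self]
  rw [Finset.sum_congr rfl h1, Finset.sum_comm]
  refine Finset.sum_congr rfl fun x hx => ?_
  rw [Finset.sum_comm]
  refine Finset.sum_congr rfl fun x' hx' => ?_
  rw [mem_hI] at hx hx'
  by_cases hd : Disjoint x.2 x'.2
  · rw [if_pos hd]
    have h3 : ∑ p ∈ Forest univ {r}, (if Disjoint x.2 x'.2 then
          (if fr p x.1 = x.2 ∧ fr p x'.1 = x'.2 then
            (hgt p x.1 : ℝ) * (hgt p x'.1 : ℝ) else 0) else 0) =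
        ∑ p ∈ (Forest univ {r}).filter (fun p => fr p x.1 = x.2 ∧ fr p x'.1 = x'.2),
          (hgt p x.1 : ℝ) * (hgt p x'.1 : ℝ) := by
      rw [Finset.sum_filter]
      refine Finset.sum_congr rfl fun p _ => ?_
      rw [if_pos hd]
    rw [h3]
    exact h_pair n hn r x x' hx.1 hx'.1 hx.2.1 hx'.2.1 hd
  · rw [if_neg hd]
    refine Finset.sum_eq_zero fun p _ => ?_
    rw [if_neg hd]

private lemma h_not_disj (p : α → α) (v v' : α) (h : ¬ Disjoint (fr p v) (fr p v')) :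
    v' ∈ fr p v ∨ v ∈ fr p v' := by
  rw [Finset.not_disjoint_iff] at h
  obtain ⟨w, hw, hw'⟩ := h
  simp only [fr, Finset.mem_filter, Finset.mem_univ, true_and] at hw hw' ⊢
  obtain ⟨i, hi⟩ := hw
  obtain ⟨j, hj⟩ := hw'
  rcases le_total i j with hij | hij
  · right
    refine ⟨j - i, ?_⟩
    rw [← hi, ← Function.iterate_add_apply, Nat.sub_add_cancel hij, hj]
  · left
    refine ⟨i - j, ?_⟩
    rw [← hj, ← Function.iterate_add_apply, Nat.sub_add_cancel hij, hi]

private lemma h_near (r : α) (m0 : ℕ) (p : α → α) :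
    (∑ v ∈ hT r m0 p, (hgt p v : ℝ)) ^ 2 ≤
      (∑ v ∈ hT r m0 p, ∑ v' ∈ hT r m0 p,
        if Disjoint (fr p v) (fr p v') then (hgt p v : ℝ) * (hgt p v' : ℝ) else 0) +
      2 * ∑ v ∈ hT r m0 p, (hgt p v : ℝ) * ∑ w ∈ fr p v, (hgt p w : ℝ) := by
  obtain ⟨A, hA⟩ : ∃ A, A = hT r m0 p := ⟨_, rfl⟩
  rw [← hA]
  have hh : ∀ v, (0 : ℝ) ≤ (hgt p v : ℝ) := fun v => Nat.cast_nonneg _
  have hin : ∀ v ∈ A, ∑ v' ∈ A, (if v' ∈ fr p v then (hgt p v : ℝ) * (hgt p v' : ℝ) else 0) ≤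
      (hgt p v : ℝ) * ∑ w ∈ fr p v, (hgt p w : ℝ) := by
    intro v _
    rw [← Finset.sum_filter, Finset.mul_sum]
    refine Finset.sum_le_sum_of_subset_of_nonneg (fun w hw => (Finset.mem_filter.mp hw).2) ?_
    intro w _ _
    exact mul_nonneg (hh v) (hh w)
  have hsum : ∑ v ∈ A, ∑ v' ∈ A, (if v' ∈ fr p v then (hgt p v : ℝ) * (hgt p v' : ℝ) else 0) ≤
      ∑ v ∈ A, (hgt p v : ℝ) * ∑ w ∈ fr p v, (hgt p w : ℝ) := Finset.sum_le_sum hin
  have hsum' : ∑ v ∈ A, ∑ v' ∈ A, (if v ∈ fr p v' then (hgt p v : ℝ) * (hgt p v' : ℝ) else 0) ≤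
      ∑ v ∈ A, (hgt p v : ℝ) * ∑ w ∈ fr p v, (hgt p w : ℝ) := by
    rw [Finset.sum_comm]
    refine le_trans (le_of_eq ?_) hsum
    refine Finset.sum_congr rfl fun v _ => Finset.sum_congr rfl fun v' _ => ?_
    rw [mul_comm]
  have hsq : (∑ v ∈ A, (hgt p v : ℝ)) ^ 2 =
      ∑ v ∈ A, ∑ v' ∈ A, (hgt p v : ℝ) * (hgt p v' : ℝ) := by
    rw [pow_two, Finset.sum_mul_sum]
  rw [hsq]
  have hpt : ∀ v ∈ A, ∀ v' ∈ A, (hgt p v : ℝ) * (hgt p v' : ℝ) ≤
      (if Disjoint (fr p v) (fr p v') then (hgt p v : ℝ) * (hgt p v' : ℝ) else 0) +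
      ((if v' ∈ fr p v then (hgt p v : ℝ) * (hgt p v' : ℝ) else 0) +
        (if v ∈ fr p v' then (hgt p v : ℝ) * (hgt p v' : ℝ) else 0)) := by
    intro v _ v' _
    have h0 : (0 : ℝ) ≤ (hgt p v : ℝ) * (hgt p v' : ℝ) := mul_nonneg (hh v) (hh v')
    have h1 : (0 : ℝ) ≤ (if v' ∈ fr p v then (hgt p v : ℝ) * (hgt p v' : ℝ) else 0) := by
      split_ifs
      · exact h0
      · exact le_rfl
    have h2 : (0 : ℝ) ≤ (if v ∈ fr p v' then (hgt p v : ℝ) * (hgt p v' : ℝ) else 0) := by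
      split_ifs
      · exact h0
      · exact le_rfl
    by_cases hd : Disjoint (fr p v) (fr p v')
    · rw [if_pos hd]
      linarith
    · rw [if_neg hd]
      rcases h_not_disj p v v' hd with h | h
      · rw [if_pos h]
        linarith
      · rw [if_pos h]
        linarith
  calc ∑ v ∈ A, ∑ v' ∈ A, (hgt p v : ℝ) * (hgt p v' : ℝ)
      ≤ ∑ v ∈ A, ∑ v' ∈ A,
        ((if Disjoint (fr p v) (fr p v') then (hgt p v : ℝ) * (hgt p v' : ℝ) else 0) +
        ((if v' ∈ fr p v then (hgt p v : ℝ) * (hgt p v' : ℝ) else 0) +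
          (if v ∈ fr p v' then (hgt p v : ℝ) * (hgt p v' : ℝ) else 0))) :=
        Finset.sum_le_sum fun v hv => Finset.sum_le_sum fun v' hv' => hpt v hv v' hv'
    _ = (∑ v ∈ A, ∑ v' ∈ A,
        (if Disjoint (fr p v) (fr p v') then (hgt p v : ℝ) * (hgt p v' : ℝ) else 0)) +
        ((∑ v ∈ A, ∑ v' ∈ A, (if v' ∈ fr p v then (hgt p v : ℝ) * (hgt p v' : ℝ) else 0)) +
          ∑ v ∈ A, ∑ v' ∈ A, (if v ∈ fr p v' then (hgt p v : ℝ) * (hgt p v' : ℝ) else 0)) := by
        simp only [Finset.sum_add_distrib]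
    _ ≤ _ := by linarith

private lemma h_count (U : Finset α) (N : ℕ) (hN : U.card ≤ N) (g : ℕ → ℝ) :
    ∑ x ∈ (univ : Finset (α × Finset α)).filter (fun x => x.1 ∈ x.2 ∧ x.2 ⊆ U), g x.2.card =
      ∑ m ∈ range (N + 1), (U.card.choose m : ℝ) * (m * g m) := by
  have h1 : ∑ x ∈ (univ : Finset (α × Finset α)).filter (fun x => x.1 ∈ x.2 ∧ x.2 ⊆ U),
      g x.2.card = ∑ S ∈ U.powerset, ((S.card : ℝ) * g S.card) := by
    rw [Finset.sum_filter, Fintype.sum_prod_type_right]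
    have h2 : ∀ S : Finset α, ∑ v : α, (if v ∈ S ∧ S ⊆ U then g S.card else 0) =
        if S ⊆ U then ((S.card : ℝ) * g S.card) else 0 := by
      intro S
      by_cases hS : S ⊆ U
      · rw [if_pos hS]
        have h3 : ∀ v : α, (if v ∈ S ∧ S ⊆ U then g S.card else 0) =
            if v ∈ S then g S.card else 0 := by
          intro v
          by_cases hv : v ∈ S
          · rw [if_pos ⟨hv, hS⟩, if_pos hv]
          · rw [if_neg (fun h => hv h.1), if_neg hv]
        rw [Finset.sum_congr rfl (fun v _ => h3 v), ← Finset.sum_filter, Finset.sum_const,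
          nsmul_eq_mul]
        congr 2
        congr 1
        ext v
        simp
      · rw [if_neg hS]
        refine Finset.sum_eq_zero fun v _ => ?_
        rw [if_neg (fun h => hS h.2)]
    rw [Finset.sum_congr rfl (fun S _ => h2 S), ← Finset.sum_filter]
    refine Finset.sum_congr ?_ fun _ _ => rfl
    ext S
    simp
  rw [h1, Finset.sum_powerset_apply_card (fun m => ((m : ℝ) * g m))]
  simp only [nsmul_eq_mul]
  refine Finset.sum_subset ?_ ?_
  · intro m hm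
    rw [Finset.mem_range] at hm ⊢
    omega
  · intro m _ hm
    rw [Finset.mem_range] at hm
    rw [Nat.choose_eq_zero_of_lt (by omega), Nat.cast_zero, zero_mul]

/-- the value of `hW` depends only on the size -/
private noncomputable def ha (α : Type) [Fintype α] (m : ℕ) : ℝ :=
  if h : ∃ x : α × Finset α, x.1 ∈ x.2 ∧ x.2.card = m then hW h.choose else 0

private lemma ha_nonneg (m : ℕ) : 0 ≤ ha α m := by
  unfold ha
  split_ifs
  · exact hW_nonneg _
  · exact le_rfl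

private lemma hW_eq (x : α × Finset α) (hx : x.1 ∈ x.2) : hW x = ha α x.2.card := by
  have h : ∃ y : α × Finset α, y.1 ∈ y.2 ∧ y.2.card = x.2.card := ⟨x, hx, rfl⟩
  unfold ha
  rw [dif_pos h]
  exact sum_hgt_inv x.2 h.choose.2 x.1 h.choose.1 hx h.choose_spec.1 h.choose_spec.2.symm

private lemma h_one (n : ℕ) (hn : Fintype.card α = n) (r : α) (m0 : ℕ) (x : α × Finset α)
    (hx : x ∈ hI r m0) :
    (n : ℝ) ^ (n - 2) * ∑ x' ∈ hI r m0, (if Disjoint x.2 x'.2 then
      ((n - (x.2.card + x'.2.card) : ℕ) : ℝ) ^ (n - (x.2.card + x'.2.card)) * hW x' else 0) ≤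
    ((n - x.2.card : ℕ) : ℝ) ^ (n - x.2.card - 1) *
      ∑ x' ∈ hI r m0, ((n - x'.2.card : ℕ) : ℝ) ^ (n - x'.2.card - 1) * hW x' := by
  obtain ⟨m, hm⟩ : ∃ m, m = x.2.card := ⟨_, rfl⟩
  rw [mem_hI] at hx
  have hm1 : 1 ≤ m := by
    rw [hm]
    exact Finset.card_pos.mpr ⟨x.1, hx.1⟩
  have hn1 : 1 ≤ n := by rw [← hn]; exact Fintype.card_pos_iff.mpr ⟨r⟩
  have hmn : m + 1 ≤ n := by
    have h1 : (insert r x.2).card ≤ n := by
      rw [← hn]
      exact Finset.card_le_univ _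
    rw [Finset.card_insert_of_notMem hx.2.1] at h1
    omega
  rw [← hm, Finset.mul_sum, Finset.mul_sum]
  have hU1 : (univ \ insert r x.2 : Finset α).card = n - 1 - m := by
    rw [Finset.card_univ_sdiff, hn, Finset.card_insert_of_notMem hx.2.1, ← hm]
    omega
  have hU2 : (univ \ {r} : Finset α).card = n - 1 := by
    rw [Finset.card_univ_sdiff, hn, Finset.card_singleton]
  have e1 : ∑ x' ∈ hI r m0, (n : ℝ) ^ (n - 2) * (if Disjoint x.2 x'.2 then
      ((n - (m + x'.2.card) : ℕ) : ℝ) ^ (n - (m + x'.2.card)) * hW x' else 0) =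
      ∑ m' ∈ range (n - 1 + 1), ((n - 1 - m).choose m' : ℝ) * (m' *
        (fun m' : ℕ => if m' ≤ m0 then (n : ℝ) ^ (n - 2) *
          (((n - (m + m') : ℕ) : ℝ) ^ (n - (m + m')) * ha α m') else 0) m') := by
    rw [← hU1]
    refine Eq.trans ?_ (h_count (univ \ insert r x.2) (n - 1) (by rw [hU1]; omega)
      (fun m' : ℕ => if m' ≤ m0 then (n : ℝ) ^ (n - 2) *
          (((n - (m + m') : ℕ) : ℝ) ^ (n - (m + m')) * ha α m') else 0))
    rw [hI, Finset.sum_filter, Finset.sum_filter]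
    refine Finset.sum_congr rfl fun x' _ => ?_
    by_cases h1 : x'.1 ∈ x'.2
    · have h5 : x'.2 ⊆ univ \ insert r x.2 ↔ r ∉ x'.2 ∧ Disjoint x.2 x'.2 := by
        constructor
        · intro h
          refine ⟨fun hr => ?_, Finset.disjoint_left.mpr fun a ha ha' => ?_⟩
          · have := h hr
            simp at this
          · have := h ha'
            rw [Finset.mem_sdiff, Finset.mem_insert] at this
            exact this.2 (Or.inr ha)
        · rintro ⟨hr, hd⟩ a ha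
          rw [Finset.mem_sdiff, Finset.mem_insert]
          refine ⟨Finset.mem_univ _, ?_⟩
          rintro (h | h)
          · exact hr (h ▸ ha)
          · exact Finset.disjoint_left.mp hd h ha
      rw [hW_eq x' h1]
      simp only [h5]
      by_cases h2 : r ∉ x'.2
      · by_cases h3 : Disjoint x.2 x'.2
        · by_cases h4 : x'.2.card ≤ m0
          · rw [if_pos ⟨h1, h2, h4⟩, if_pos h3, if_pos ⟨h1, h2, h3⟩, if_pos h4]
          · rw [if_neg (fun h => h4 h.2.2), if_pos ⟨h1, h2, h3⟩, if_neg h4]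
        · rw [if_neg (fun h => h3 h.2.2 : ¬ (x'.1 ∈ x'.2 ∧ r ∉ x'.2 ∧ Disjoint x.2 x'.2)), if_neg h3]
          split_ifs
          · rw [mul_zero]
          · rfl
      · rw [if_neg (fun h => h2 h.2.1), if_neg (fun h => h2 h.2.1)]
    · rw [if_neg (fun h => h1 h.1), if_neg (fun h => h1 h.1)]
  have e2 : ∑ x' ∈ hI r m0, ((n - m : ℕ) : ℝ) ^ (n - m - 1) *
      (((n - x'.2.card : ℕ) : ℝ) ^ (n - x'.2.card - 1) * hW x') =
      ∑ m' ∈ range (n - 1 + 1), ((n - 1).choose m' : ℝ) * (m' *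
        (fun m' : ℕ => if m' ≤ m0 then ((n - m : ℕ) : ℝ) ^ (n - m - 1) *
          (((n - m' : ℕ) : ℝ) ^ (n - m' - 1) * ha α m') else 0) m') := by
    rw [← hU2]
    refine Eq.trans ?_ (h_count (univ \ {r}) (univ \ {r} : Finset α).card le_rfl
      (fun m' : ℕ => if m' ≤ m0 then ((n - m : ℕ) : ℝ) ^ (n - m - 1) *
          (((n - m' : ℕ) : ℝ) ^ (n - m' - 1) * ha α m') else 0))
    rw [hI, Finset.sum_filter, Finset.sum_filter]
    refine Finset.sum_congr rfl fun x' _ => ?_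
    by_cases h1 : x'.1 ∈ x'.2
    · have h5 : x'.2 ⊆ univ \ {r} ↔ r ∉ x'.2 := by
        constructor
        · intro h hr
          have := h hr
          simp at this
        · intro hr a ha
          rw [Finset.mem_sdiff, Finset.mem_singleton]
          exact ⟨Finset.mem_univ _, fun h => hr (h ▸ ha)⟩
      rw [hW_eq x' h1]
      simp only [h5]
      by_cases h2 : r ∉ x'.2
      · by_cases h4 : x'.2.card ≤ m0
        · rw [if_pos ⟨h1, h2, h4⟩, if_pos ⟨h1, h2⟩, if_pos h4]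
        · rw [if_neg (fun h => h4 h.2.2), if_pos ⟨h1, h2⟩, if_neg h4]
      · rw [if_neg (fun h => h2 h.2.1), if_neg (fun h => h2 h.2)]
    · rw [if_neg (fun h => h1 h.1), if_neg (fun h => h1 h.1)]
  rw [e1, e2]
  refine Finset.sum_le_sum fun m' hm' => ?_
  beta_reduce
  rcases Nat.eq_zero_or_pos m' with h0 | h0
  · rw [h0]
    simp
  · by_cases h4 : m' ≤ m0
    · rw [if_pos h4, if_pos h4]
      have ha0 : 0 ≤ ha α m' := ha_nonneg m'
      have hmr : (0 : ℝ) ≤ (m' : ℝ) := Nat.cast_nonneg _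
      by_cases h6 : m + m' + 1 ≤ n
      · have hlc := log_conc n m m' hm1 h0 h6
        have h7 := mul_le_mul_of_nonneg_right hlc (mul_nonneg hmr ha0)
        calc ((n - 1 - m).choose m' : ℝ) * ((m' : ℝ) * ((n : ℝ) ^ (n - 2) *
              (((n - (m + m') : ℕ) : ℝ) ^ (n - (m + m')) * ha α m')))
            = (n : ℝ) ^ (n - 2) * ((n - 1 - m).choose m' : ℝ) *
              ((n - (m + m') : ℕ) : ℝ) ^ (n - (m + m')) * ((m' : ℝ) * ha α m') := by ring
          _ ≤ ((n - 1).choose m' : ℝ) * ((n - m : ℕ) : ℝ) ^ (n - m - 1) *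
              ((n - m' : ℕ) : ℝ) ^ (n - m' - 1) * ((m' : ℝ) * ha α m') := h7
          _ = _ := by ring
      · rw [Nat.choose_eq_zero_of_lt (by omega : n - 1 - m < m'), Nat.cast_zero, zero_mul]
        positivity
    · rw [if_neg h4, if_neg h4, mul_zero, mul_zero, mul_zero]

private lemma h_gen (n : ℕ) (hn : Fintype.card α = n) (r : α) (m0 : ℕ) :
    ((Forest univ {r} : Finset (α → α)).card : ℝ) *
        (∑ p ∈ Forest univ {r}, (∑ v ∈ hT r m0 p, (hgt p v : ℝ)) ^ 2) ≤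
      (∑ p ∈ Forest univ {r}, ∑ v ∈ hT r m0 p, (hgt p v : ℝ)) ^ 2 +
      2 * ((Forest univ {r} : Finset (α → α)).card : ℝ) *
        ∑ p ∈ Forest univ {r}, ∑ v ∈ hT r m0 p, (hgt p v : ℝ) * ∑ w ∈ fr p v, (hgt p w : ℝ) := by
  have hF := h_card_F n hn r
  have hF0 : (0 : ℝ) ≤ (n : ℝ) ^ (n - 2) := by positivity
  rw [h_first n hn r m0, hF]
  have hA : ∑ p ∈ Forest univ {r}, (∑ v ∈ hT r m0 p, (hgt p v : ℝ)) ^ 2 ≤
      (∑ p ∈ Forest univ {r}, ∑ v ∈ hT r m0 p, ∑ v' ∈ hT r m0 p,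
        (if Disjoint (fr p v) (fr p v') then (hgt p v : ℝ) * (hgt p v' : ℝ) else 0)) +
      2 * ∑ p ∈ Forest univ {r}, ∑ v ∈ hT r m0 p,
        (hgt p v : ℝ) * ∑ w ∈ fr p v, (hgt p w : ℝ) := by
    rw [Finset.mul_sum, ← Finset.sum_add_distrib]
    exact Finset.sum_le_sum fun p _ => h_near r m0 p
  rw [h_disj n hn r m0] at hA
  have hC : (n : ℝ) ^ (n - 2) * ∑ x ∈ hI r m0, ∑ x' ∈ hI r m0, (if Disjoint x.2 x'.2 then
      ((n - (x.2.card + x'.2.card) : ℕ) : ℝ) ^ (n - (x.2.card + x'.2.card)) *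
        (hW x * hW x') else 0) ≤
      (∑ x ∈ hI r m0, ((n - x.2.card : ℕ) : ℝ) ^ (n - x.2.card - 1) * hW x) ^ 2 := by
    rw [pow_two, Finset.sum_mul, Finset.mul_sum]
    refine Finset.sum_le_sum fun x hx => ?_
    have h1 := mul_le_mul_of_nonneg_left (h_one n hn r m0 x hx) (hW_nonneg x)
    have h2 : ∑ x' ∈ hI r m0, (if Disjoint x.2 x'.2 then
        ((n - (x.2.card + x'.2.card) : ℕ) : ℝ) ^ (n - (x.2.card + x'.2.card)) *
          (hW x * hW x') else 0) = hW x * ∑ x' ∈ hI r m0, (if Disjoint x.2 x'.2 then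
        ((n - (x.2.card + x'.2.card) : ℕ) : ℝ) ^ (n - (x.2.card + x'.2.card)) *
          hW x' else 0) := by
      rw [Finset.mul_sum]
      refine Finset.sum_congr rfl fun x' _ => ?_
      split_ifs
      · ring
      · rw [mul_zero]
    rw [h2]
    linarith [h1]
  have hL := mul_le_mul_of_nonneg_left hA hF0
  rw [mul_add] at hL
  linarith

theorem secH (r : α) (m1 : ℕ) :
    ((Forest univ {r} : Finset (α → α)).card : ℝ) *
        (∑ p ∈ Forest univ {r},
          (∑ v ∈ (univ.erase r).filter (fun v => (fr p v).card ≤ m1), (hgt p v : ℝ)) ^ 2) ≤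
      (∑ p ∈ Forest univ {r},
          ∑ v ∈ (univ.erase r).filter (fun v => (fr p v).card ≤ m1), (hgt p v : ℝ)) ^ 2 +
      2 * ((Forest univ {r} : Finset (α → α)).card : ℝ) *
        ∑ p ∈ Forest univ {r}, ∑ v ∈ (univ.erase r).filter (fun v => (fr p v).card ≤ m1),
          (hgt p v : ℝ) * ∑ w ∈ fr p v, (hgt p w : ℝ) := by
  have hTe : ∀ p : α → α, (univ.erase r).filter (fun v => (fr p v).card ≤ m1) =
      hT r m1 p := by
    intro p
    ext v
    rw [mem_hT]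
    simp only [Finset.mem_filter, Finset.mem_erase, Finset.mem_univ, and_true]
  simp only [hTe]
  exact h_gen (Fintype.card α) rfl r m1

end Pool.AAT
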