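import Pool.Agent.AAT.Defs
import Pool.Agent.AAT.Rad
import Pool.Agent.AAH.FirstL
import Pool.Agent.AAH.SecH
import Pool.Agent.AAH.NestS

/-!
# AAH-ConcH: the total height is at most C n log n for almost all trees
-/

set_option autoImplicit false

namespace Pool.AAT

open Finset
open scoped Classical

private theorem concH_ev {C1 C2 ε : ℝ} (h1 : 0 < C1) (h2 : 0 < C2) (hε : 0 < ε) :
    ∃ x0 : ℝ, ∀ x : ℝ, x0 ≤ x → 2 ≤ x ∧ C1 * (1 + 2 * Real.log x) ≤ ε / 2 * x ∧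
      2 * C2 ≤ ε / 2 * x ^ 2 := by
  have ev1 : ∀ᶠ x : ℝ in Filter.atTop, ‖Real.log x‖ ≤ ε / (8 * C1) * ‖id x‖ :=
    Real.isLittleO_log_id_atTop.def (by positivity)
  have ev : ∀ᶠ x : ℝ in Filter.atTop, 2 ≤ x ∧ C1 * (1 + 2 * Real.log x) ≤ ε / 2 * x ∧
      2 * C2 ≤ ε / 2 * x ^ 2 := by
    filter_upwards [ev1, Filter.eventually_ge_atTop 2, Filter.eventually_ge_atTop (4 * C1 / ε),
      Filter.eventually_ge_atTop (4 * C2 / ε)] with x h3 h4 h5 h6
    rw [Real.norm_eq_abs, Real.norm_eq_abs, id, abs_of_nonneg (by linarith : (0 : ℝ) ≤ x)] at h3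
    have h7 := (le_abs_self _).trans h3
    rw [div_le_iff₀ hε] at h5 h6
    refine ⟨h4, ?_, ?_⟩
    · have h8 : C1 * Real.log x ≤ ε / 8 * x := by
        calc C1 * Real.log x ≤ C1 * (ε / (8 * C1) * x) := mul_le_mul_of_nonneg_left h7 h1.le
          _ = ε / 8 * x := by field_simp
      nlinarith
    · nlinarith
  exact Filter.eventually_atTop.1 ev

private theorem markovH {β : Type} (S : Finset β) (f : β → ℝ) (hf : ∀ p ∈ S, 0 ≤ f p) (t : ℝ) :
    t * ((S.filter fun p => t < f p).card : ℝ) ≤ ∑ p ∈ S, f p := by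
  calc t * ((S.filter fun p => t < f p).card : ℝ)
      = ∑ p ∈ S.filter (fun p => t < f p), t := by
        rw [sum_const, nsmul_eq_mul, mul_comm]
    _ ≤ ∑ p ∈ S.filter (fun p => t < f p), f p :=
        sum_le_sum fun p hp => (mem_filter.1 hp).2.le
    _ ≤ ∑ p ∈ S, f p :=
        sum_le_sum_of_subset_of_nonneg (filter_subset _ _) fun p hp _ => hf p hp

theorem concH : ∃ C : ℝ, 0 < C ∧ ∀ ε : ℝ, 0 < ε → ∃ n0 : ℕ, ∀ (β : Type) [Fintype β],
    n0 ≤ Fintype.card β → ∀ r : β,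
    (((Forest univ {r} : Finset (β → β)).filter
        (fun p => C * (Fintype.card β : ℝ) * Real.log (Fintype.card β : ℝ) <
          ∑ v : β, (hgt p v : ℝ))).card : ℝ) ≤
      ε * ((Forest univ {r} : Finset (β → β)).card : ℝ) := by
  obtain ⟨C1, hC1, h1⟩ := firstL
  obtain ⟨C2, hC2, h2⟩ := nestS
  refine ⟨2 * C1 + 3, by positivity, fun ε hε => ?_⟩
  obtain ⟨x0, hx0⟩ := concH_ev hC1 hC2 hε
  refine ⟨⌈Real.exp x0⌉₊ + 2, fun β _ hn r => ?_⟩
  obtain ⟨n, hnn⟩ : ∃ n : ℕ, n = Fintype.card β := ⟨_, rfl⟩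
  rw [← hnn] at hn ⊢
  have hn2 : 2 ≤ n := by omega
  have hn0 : (0 : ℝ) < n := by positivity
  have hnR : Real.exp x0 ≤ n := by
    have h3 := Nat.le_ceil (Real.exp x0)
    have h4 : ((⌈Real.exp x0⌉₊ + 2 : ℕ) : ℝ) ≤ n := by exact_mod_cast hn
    push_cast at h4
    linarith
  obtain ⟨L, hL⟩ : ∃ L : ℝ, L = Real.log n := ⟨_, rfl⟩
  rw [← hL]
  have hx : x0 ≤ L := by
    rw [hL, Real.le_log_iff_exp_le hn0]
    exact hnR
  obtain ⟨hL2, hE1, hE2⟩ := hx0 L hx
  have hL0 : 0 < L := by linarith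
  obtain ⟨m1, hm1⟩ : ∃ m1 : ℕ, m1 = ⌊(n : ℝ) / L ^ 2⌋₊ := ⟨_, rfl⟩
  have hm1a : (m1 : ℝ) * L ^ 2 ≤ n := by
    have h3 : (m1 : ℝ) ≤ (n : ℝ) / L ^ 2 := by
      rw [hm1]
      exact Nat.floor_le (by positivity)
    rwa [le_div_iff₀ (by positivity)] at h3
  have hm1b : (n : ℝ) ≤ (m1 + 1) * L ^ 2 := by
    have h3 : (n : ℝ) / L ^ 2 < m1 + 1 := by
      rw [hm1]
      exact Nat.lt_floor_add_one _
    rw [div_lt_iff₀ (by positivity)] at h3
    exact h3.le
  have h2m : 2 * m1 ≤ n := by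
    have h3 : 2 * (m1 : ℝ) ≤ n := by
      have h4 : (0 : ℝ) ≤ m1 := Nat.cast_nonneg m1
      have h5 : (4 : ℝ) ≤ L ^ 2 := by nlinarith
      have h6 : (m1 : ℝ) * 4 ≤ m1 * L ^ 2 := mul_le_mul_of_nonneg_left h5 h4
      linarith
    exact_mod_cast h3
  obtain ⟨S, hS⟩ : ∃ S : Finset (β → β), S = Forest univ {r} := ⟨_, rfl⟩
  rw [← hS]
  obtain ⟨F, hF⟩ : ∃ F : ℝ, F = (S.card : ℝ) := ⟨_, rfl⟩
  rw [← hF]
  have hF0 : 0 ≤ F := by rw [hF]; positivity
  obtain ⟨Y, hY⟩ : ∃ Y : (β → β) → ℝ, ∀ p, Y p =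
    ∑ v ∈ (univ.erase r).filter (fun v => (fr p v).card ≤ m1), (hgt p v : ℝ) := ⟨_, fun _ => rfl⟩
  obtain ⟨Z, hZ⟩ : ∃ Z : (β → β) → ℝ, ∀ p, Z p =
    ∑ v ∈ (univ.erase r).filter (fun v => m1 + 1 ≤ (fr p v).card), (hgt p v : ℝ) :=
    ⟨_, fun _ => rfl⟩
  have hYn : ∀ p, 0 ≤ Y p := fun p => by rw [hY]; positivity
  have hZn : ∀ p, 0 ≤ Z p := fun p => by rw [hZ]; positivity
  -- large fringes
  have hZs : ∑ p ∈ S, Z p ≤ C1 * n * (1 + 2 * Real.log L) * F := by
    have h3 := h1 β univ r (mem_univ r) (m1 + 1) (by omega) (by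
      rw [card_univ, ← hnn]; omega)
    rw [← hS, card_univ, ← hnn, ← hF] at h3
    have h4 : Real.log ((n : ℝ) / ((m1 + 1 : ℕ) : ℝ)) ≤ 2 * Real.log L := by
      have h5 : 2 * Real.log L = Real.log (L ^ 2) := by
        rw [Real.log_pow]; push_cast; ring
      rw [h5]
      apply Real.log_le_log (by positivity)
      rw [div_le_iff₀ (by positivity)]
      push_cast
      linarith
    simp only [hZ]
    refine h3.trans ?_
    apply mul_le_mul_of_nonneg_right _ hF0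
    apply mul_le_mul_of_nonneg_left _ (by positivity)
    linarith
  have hZc : ((S.filter fun p => n * L < Z p).card : ℝ) ≤ ε / 2 * F := by
    have h3 := markovH S Z (fun p _ => hZn p) (n * L)
    have h4 : n * L * ((S.filter fun p => n * L < Z p).card : ℝ) ≤ n * L * (ε / 2 * F) := by
      refine h3.trans (hZs.trans ?_)
      calc C1 * n * (1 + 2 * Real.log L) * F = n * F * (C1 * (1 + 2 * Real.log L)) := by ring
        _ ≤ n * F * (ε / 2 * L) := mul_le_mul_of_nonneg_left hE1 (by positivity)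
        _ = n * L * (ε / 2 * F) := by ring
    exact le_of_mul_le_mul_left h4 (by positivity)
  -- small fringes
  have hYs : ∑ p ∈ S, Y p ≤ C1 * n * (1 + L) * F := by
    have h3 := h1 β univ r (mem_univ r) 1 le_rfl (by rw [card_univ, ← hnn]; omega)
    rw [← hS, card_univ, ← hnn, ← hF, Nat.cast_one, div_one, ← hL] at h3
    refine le_trans (sum_le_sum fun p _ => ?_) h3
    rw [hY]
    refine sum_le_sum_of_subset_of_nonneg ?_ fun v _ _ => by positivity
    intro v hv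
    rw [mem_filter] at hv ⊢
    refine ⟨hv.1, ?_⟩
    have := hgt_lt p v
    omega
  have hnest : ∑ p ∈ S, ∑ v ∈ (univ.erase r).filter (fun v => (fr p v).card ≤ m1),
      (hgt p v : ℝ) * ∑ w ∈ fr p v, (hgt p w : ℝ) ≤ C2 * n ^ 2 * F := by
    have h3 := h2 β r m1 (by rw [← hnn]; exact hn2) (by rw [← hnn]; exact h2m)
    rw [← hS, ← hnn, ← hF, ← hL] at h3
    refine h3.trans ?_
    have h4 : L ^ ((3 : ℝ) / 2) ≤ L ^ 2 := by
      rw [← Real.rpow_two]
      exact Real.rpow_le_rpow_of_exponent_le (by linarith) (by norm_num)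
    have h5 : (m1 : ℝ) * L ^ ((3 : ℝ) / 2) ≤ n :=
      (mul_le_mul_of_nonneg_left h4 (Nat.cast_nonneg m1)).trans hm1a
    calc C2 * n * m1 * L ^ ((3 : ℝ) / 2) * F = C2 * n * (m1 * L ^ ((3 : ℝ) / 2)) * F := by ring
      _ ≤ C2 * n * n * F := by
        apply mul_le_mul_of_nonneg_right _ hF0
        exact mul_le_mul_of_nonneg_left h5 (by positivity)
      _ = C2 * n ^ 2 * F := by ring
  have hsec := secH r m1
  rw [← hS, ← hF] at hsec
  simp only [← hY] at hsec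
  rcases hF0.eq_or_lt with hF1 | hF1
  · have h3 : S.card = 0 := by
      have : (S.card : ℝ) = 0 := by rw [← hF, ← hF1]
      exact_mod_cast this
    rw [card_eq_zero] at h3
    rw [h3, ← hF1]
    simp
  obtain ⟨μ, hμ⟩ : ∃ μ : ℝ, μ = (∑ p ∈ S, Y p) / F := ⟨_, rfl⟩
  have hμF : μ * F = ∑ p ∈ S, Y p := by rw [hμ, div_mul_cancel₀ _ hF1.ne']
  have hμ1 : μ ≤ C1 * n * (1 + L) := by
    rw [hμ, div_le_iff₀ hF1]
    exact hYs
  have hvar : ∑ p ∈ S, (Y p - μ) ^ 2 ≤ 2 * (C2 * n ^ 2 * F) := by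
    have h3 : ∑ p ∈ S, (Y p - μ) ^ 2 = ∑ p ∈ S, (Y p) ^ 2 - 2 * μ * ∑ p ∈ S, Y p + μ ^ 2 * F := by
      have h4 : ∀ p ∈ S, (Y p - μ) ^ 2 = (Y p) ^ 2 - 2 * μ * Y p + μ ^ 2 := fun p _ => by ring
      rw [sum_congr rfl h4, sum_add_distrib, sum_sub_distrib, ← mul_sum, sum_const, nsmul_eq_mul,
        ← hF]
      ring
    have h5 : F * ∑ p ∈ S, (Y p - μ) ^ 2 ≤ F * (2 * (C2 * n ^ 2 * F)) := by
      rw [h3, ← hμF]
      rw [← hμF] at hsec
      have h6 : 2 * F * (∑ p ∈ S, ∑ v ∈ (univ.erase r).filter (fun v => (fr p v).card ≤ m1),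
          (hgt p v : ℝ) * ∑ w ∈ fr p v, (hgt p w : ℝ)) ≤ 2 * F * (C2 * n ^ 2 * F) :=
        mul_le_mul_of_nonneg_left hnest (by positivity)
      nlinarith
    exact le_of_mul_le_mul_left h5 hF1
  have hYc : ((S.filter fun p => μ + n * L < Y p).card : ℝ) ≤ ε / 2 * F := by
    have h3 := markovH S (fun p => (Y p - μ) ^ 2) (fun p _ => sq_nonneg _) ((n * L) ^ 2)
    have h4 : ((S.filter fun p => μ + n * L < Y p).card : ℝ) ≤
        ((S.filter fun p => (n * L) ^ 2 < (Y p - μ) ^ 2).card : ℝ) := by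
      have h5 : (S.filter fun p => μ + n * L < Y p) ⊆
          (S.filter fun p => (n * L) ^ 2 < (Y p - μ) ^ 2) := by
        intro p hp
        rw [mem_filter] at hp ⊢
        refine ⟨hp.1, ?_⟩
        have h6 : (0 : ℝ) ≤ n * L := by positivity
        have h7 : n * L < Y p - μ := by linarith [hp.2]
        exact pow_lt_pow_left₀ h7 h6 (by norm_num)
      exact_mod_cast card_le_card h5
    have h8 : (n * L) ^ 2 * ((S.filter fun p => μ + n * L < Y p).card : ℝ) ≤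
        (n * L) ^ 2 * (ε / 2 * F) := by
      refine (mul_le_mul_of_nonneg_left h4 (by positivity)).trans (h3.trans (hvar.trans ?_))
      calc 2 * (C2 * n ^ 2 * F) = n ^ 2 * F * (2 * C2) := by ring
        _ ≤ n ^ 2 * F * (ε / 2 * L ^ 2) := mul_le_mul_of_nonneg_left hE2 (by positivity)
        _ = (n * L) ^ 2 * (ε / 2 * F) := by ring
    exact le_of_mul_le_mul_left h8 (by positivity)
  -- the bad trees
  have hsub : (S.filter fun p => (2 * C1 + 3) * n * L < ∑ v : β, (hgt p v : ℝ)) ⊆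
      (S.filter fun p => n * L < Z p) ∪ (S.filter fun p => μ + n * L < Y p) := by
    intro p hp
    rw [mem_filter] at hp
    rw [mem_union, mem_filter, mem_filter]
    by_contra hcon
    rw [not_or] at hcon
    have hz : Z p ≤ n * L := by
      by_contra h
      exact hcon.1 ⟨hp.1, not_le.1 h⟩
    have hy : Y p ≤ μ + n * L := by
      by_contra h
      exact hcon.2 ⟨hp.1, not_le.1 h⟩
    have h3 : ∑ v : β, (hgt p v : ℝ) = (hgt p r : ℝ) + (Y p + Z p) := by
      rw [← add_sum_erase univ (fun v => (hgt p v : ℝ)) (mem_univ r), hY, hZ,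
        ← sum_filter_add_sum_filter_not (univ.erase r) (fun v => (fr p v).card ≤ m1)
          (fun v => (hgt p v : ℝ))]
      congr 2
      refine sum_congr (filter_congr fun v _ => ?_) fun _ _ => rfl
      omega
    have h4 : (hgt p r : ℝ) ≤ n := by
      have h5 := hgt_lt p r
      have h6 : (fr p r).card ≤ n := by
        rw [hnn]
        exact card_le_univ _
      exact_mod_cast (h5.le.trans h6)
    have h7 := hp.2
    rw [h3] at h7
    have h8 : (n : ℝ) ≤ n * L := by nlinarith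
    have h9 : C1 * n ≤ C1 * n * L := by
      have : 0 < C1 * n := by positivity
      nlinarith
    nlinarith
  calc ((S.filter fun p => (2 * C1 + 3) * n * L < ∑ v : β, (hgt p v : ℝ)).card : ℝ)
      ≤ (((S.filter fun p => n * L < Z p) ∪ (S.filter fun p => μ + n * L < Y p)).card : ℝ) := by
        exact_mod_cast card_le_card hsub
    _ ≤ ((S.filter fun p => n * L < Z p).card : ℝ) +
        ((S.filter fun p => μ + n * L < Y p).card : ℝ) := by
        exact_mod_cast card_union_le _ _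
    _ ≤ ε * F := by linarith

end Pool.AAT
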