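import Pool.Agent.AAT.Defs

/-!
# AAH-HDefs: definitions (nothing to prove)
-/

set_option autoImplicit false

namespace Pool.AAT

open Finset
open scoped Classical

/-- The height of the part of `G` behind `v`, seen from the root `r`: the largest distance from
`v` to a vertex `w` such that `v` lies between `r` and `w`. -/
noncomputable def ghgt {n : ℕ} (G : SimpleGraph (Fin n)) (r v : Fin n) : ℕ :=
  univ.sup (fun w => if G.dist r w = G.dist r v + G.dist v w then G.dist v w else 0)

/-- Every orientation of `G` is contained in every digraph of chromatic number at least `c`. -/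
def AllOr (n : ℕ) (G : SimpleGraph (Fin n)) (c : ℕ) : Prop :=
  ∀ T : Digraph (Fin n), (∀ a b : Fin n, T.Adj a b → ¬ T.Adj b a) →
    SimpleGraph.fromRel T.Adj = G → Unavoidable n T c

end Pool.AAT
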