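import Pool.Agent.AAT.Defs
import Pool.Agent.AAT.HtA
import Pool.Agent.AAH.HDefs

/-!
# AAH-DistH: heights by distances

The depth below `r` is the distance to `r`.
-/

set_option autoImplicit false

namespace Pool.AAT

open Finset
open scoped Classical

private lemma dh_eq {α : Type} {p : α → α} {v w : α} {k : ℕ} (h : p^[k] w = v)
    (hm : ∀ j < k, p^[j] w ≠ v) : dep p v w = k := by
  unfold dep
  rw [dif_pos ⟨k, h⟩]
  exact (Nat.find_eq_iff _).2 ⟨h, hm⟩

private lemma dh_spec {α : Type} {p : α → α} {v w : α} (h : ∃ i : ℕ, p^[i] w = v) :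
    p^[dep p v w] w = v ∧ ∀ j < dep p v w, p^[j] w ≠ v := by
  unfold dep
  rw [dif_pos h]
  exact ⟨Nat.find_spec h, fun j hj => Nat.find_min h hj⟩

private lemma dh_forest {α : Type} [Fintype α] {r : α} {p : α → α} (hp : p ∈ Forest univ {r}) :
    p r = r ∧ ∀ x, ∃ i : ℕ, p^[i] x = r := by
  unfold Forest at hp
  obtain ⟨-, h1, -, h3⟩ := mem_filter.1 hp
  refine ⟨h1 r (by simp), fun x => ?_⟩
  obtain ⟨i, hi⟩ := h3 x (mem_univ _)
  exact ⟨i, mem_singleton.1 hi⟩

private lemma dh_stay {n : ℕ} {r : Fin n} {p : Fin n → Fin n} (h : p r = r) {x : Fin n} {j k : ℕ}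
    (hj : p^[j] x = r) (hjk : j ≤ k) : p^[k] x = r := by
  obtain ⟨m, rfl⟩ := Nat.exists_eq_add_of_le hjk
  rw [add_comm, Function.iterate_add_apply, hj]
  exact Function.iterate_fixed h m

private lemma dh_split {n : ℕ} {r : Fin n} {p : Fin n → Fin n} (hp : p ∈ Forest univ {r})
    {v w : Fin n} (hw : ∃ i : ℕ, p^[i] w = v) : dep p r w = dep p v w + dep p r v := by
  obtain ⟨h1, h2⟩ := dh_forest hp
  obtain ⟨ha, ha'⟩ := dh_spec hw
  obtain ⟨hb, hb'⟩ := dh_spec (h2 v)
  refine dh_eq ?_ ?_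
  · rw [add_comm, Function.iterate_add_apply, ha]
    exact hb
  · intro j hj hjr
    rcases Nat.lt_or_ge j (dep p v w) with h | h
    · have h3 := dh_stay h1 hjr h.le
      rw [ha] at h3
      exact ha' j h (hjr.trans h3.symm)
    · obtain ⟨m, rfl⟩ := Nat.exists_eq_add_of_le h
      rw [add_comm, Function.iterate_add_apply, ha] at hjr
      exact hb' m (by omega) hjr

/-- the graph -/
private def dhG {n : ℕ} (r : Fin n) (p : Fin n → Fin n) : SimpleGraph (Fin n) :=
  SimpleGraph.fromRel (fun a b : Fin n => a ≠ r ∧ p a = b)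

private lemma dh_adj {n : ℕ} {r : Fin n} {p : Fin n → Fin n} (hp : p ∈ Forest univ {r})
    {a b : Fin n} (h : (dhG r p).Adj a b) :
    (p a = b ∧ dep p r a = dep p r b + 1) ∨ (p b = a ∧ dep p r b = dep p r a + 1) := by
  unfold dhG at h
  rw [SimpleGraph.fromRel_adj] at h
  rcases h.2 with ⟨h1, h2⟩ | ⟨h1, h2⟩
  · left
    have h3 := dep_parent r p hp a h1
    rw [h2] at h3
    exact ⟨h2, h3⟩
  · right
    have h3 := dep_parent r p hp b h1
    rw [h2] at h3
    exact ⟨h2, h3⟩

private lemma dh_adj_parent {n : ℕ} {r : Fin n} {p : Fin n → Fin n} (hp : p ∈ Forest univ {r})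
    {a : Fin n} (ha : a ≠ r) : (dhG r p).Adj a (p a) := by
  unfold dhG
  rw [SimpleGraph.fromRel_adj]
  refine ⟨fun h => ?_, Or.inl ⟨ha, rfl⟩⟩
  have h3 := dep_parent r p hp a ha
  rw [← h] at h3
  omega

private lemma dh_walk_le {n : ℕ} {r : Fin n} {p : Fin n → Fin n} (hp : p ∈ Forest univ {r})
    {x y : Fin n} (W : (dhG r p).Walk x y) : dep p r x ≤ dep p r y + W.length := by
  induction W with
  | nil => exact Nat.le_add_right _ _
  | cons h W ih =>
    rw [SimpleGraph.Walk.length_cons]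
    rcases dh_adj hp h with ⟨-, h1⟩ | ⟨-, h1⟩ <;> omega

private lemma dh_walk_eq {n : ℕ} {r : Fin n} {p : Fin n → Fin n} (hp : p ∈ Forest univ {r})
    {x y : Fin n} (W : (dhG r p).Walk x y) :
    dep p r x = dep p r y + W.length → p^[W.length] x = y := by
  induction W with
  | nil => exact fun _ => rfl
  | cons h W ih =>
    intro h0
    rw [SimpleGraph.Walk.length_cons] at h0 ⊢
    have h2 := dh_walk_le hp W
    rcases dh_adj hp h with ⟨h3, h1⟩ | ⟨-, h1⟩
    · rw [Function.iterate_succ_apply, h3]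
      exact ih (by omega)
    · omega

/-- the walk along the parents -/
private lemma dh_path {n : ℕ} {r : Fin n} {p : Fin n → Fin n} (hp : p ∈ Forest univ {r})
    (w : Fin n) (i : ℕ) (h : ∀ j < i, p^[j] w ≠ r) :
    ∃ W : (dhG r p).Walk w (p^[i] w), W.length = i := by
  induction i with
  | zero => exact ⟨SimpleGraph.Walk.nil, rfl⟩
  | succ i ih =>
    obtain ⟨W, hW⟩ := ih fun j hj => h j (by omega)
    have h1 := dh_adj_parent hp (h i (by omega))
    rw [← Function.iterate_succ_apply' p] at h1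
    refine ⟨W.concat h1, ?_⟩
    rw [SimpleGraph.Walk.length_concat, hW]

private lemma dh_fr {n : ℕ} {r : Fin n} {p : Fin n → Fin n} (hp : p ∈ Forest univ {r})
    {v w : Fin n} (hw : ∃ i : ℕ, p^[i] w = v) :
    (dhG r p).Reachable w v ∧ (dhG r p).dist w v = dep p v w := by
  obtain ⟨h1, h2⟩ := dh_forest hp
  obtain ⟨ha, ha'⟩ := dh_spec hw
  have h3 : ∀ j < dep p v w, p^[j] w ≠ r := by
    intro j hj hjr
    have h4 := dh_stay h1 hjr hj.le
    rw [ha] at h4
    exact ha' j hj (hjr.trans h4.symm)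
  obtain ⟨W, hW⟩ := dh_path hp w (dep p v w) h3
  rw [ha] at W
  have h5 : ∃ W : (dhG r p).Walk w v, W.length = dep p v w := by
    obtain ⟨W, hW⟩ := dh_path hp w (dep p v w) h3
    refine ⟨W.copy rfl ha, ?_⟩
    rw [SimpleGraph.Walk.length_copy, hW]
  obtain ⟨W2, hW2⟩ := h5
  refine ⟨W2.reachable, le_antisymm ?_ ?_⟩
  · rw [← hW2]
    exact SimpleGraph.dist_le W2
  · obtain ⟨W3, hW3⟩ := W2.reachable.exists_walk_length_eq_dist
    have h6 := dh_walk_le hp W3
    have h7 := dh_split hp hw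
    omega

theorem ghgt_eq {n : ℕ} (r : Fin n) (p : Fin n → Fin n) (hp : p ∈ Forest univ {r}) (v : Fin n) :
    ghgt (SimpleGraph.fromRel (fun a b : Fin n => a ≠ r ∧ p a = b)) r v = hgt p v := by
  change ghgt (dhG r p) r v = hgt p v
  obtain ⟨h1, h2⟩ := dh_forest hp
  have hd : ∀ x, (dhG r p).dist r x = dep p r x := fun x => by
    rw [SimpleGraph.dist_comm]
    exact (dh_fr hp (h2 x)).2
  have hiff : ∀ w, ((dhG r p).dist r w = (dhG r p).dist r v + (dhG r p).dist v w) ↔
      ∃ i : ℕ, p^[i] w = v := by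
    intro w
    constructor
    · intro h
      have h3 : (dhG r p).Reachable w v := (dh_fr hp (h2 w)).1.trans (dh_fr hp (h2 v)).1.symm
      obtain ⟨W, hW⟩ := h3.exists_walk_length_eq_dist
      refine ⟨W.length, dh_walk_eq hp W ?_⟩
      rw [hd, hd, SimpleGraph.dist_comm (u := v) (v := w)] at h
      rw [hW]
      exact h
    · intro h
      have h3 := dh_split hp h
      rw [hd, hd, SimpleGraph.dist_comm (u := v) (v := w), (dh_fr hp h).2]
      omega
  unfold ghgt hgt
  refine le_antisymm (Finset.sup_le fun w _ => ?_) (Finset.sup_le fun w hw => ?_)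
  · by_cases h : (dhG r p).dist r w = (dhG r p).dist r v + (dhG r p).dist v w
    · rw [if_pos h]
      have h3 := (hiff w).1 h
      rw [SimpleGraph.dist_comm, (dh_fr hp h3).2]
      have h4 : w ∈ fr p v := by
        unfold fr
        exact mem_filter.2 ⟨mem_univ _, h3⟩
      exact Finset.le_sup (f := fun w => dep p v w) h4
    · rw [if_neg h]
      exact Nat.zero_le _
  · unfold fr at hw
    have h3 := (mem_filter.1 hw).2
    have h4 := (hiff w).2 h3
    have h5 : dep p v w = (fun w => if (dhG r p).dist r w = (dhG r p).dist r v +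
        (dhG r p).dist v w then (dhG r p).dist v w else 0) w := by
      change dep p v w = if _ then _ else _
      rw [if_pos h4, SimpleGraph.dist_comm, (dh_fr hp h3).2]
    rw [h5]
    exact Finset.le_sup (f := fun w => if (dhG r p).dist r w = (dhG r p).dist r v +
        (dhG r p).dist v w then (dhG r p).dist v w else 0) (mem_univ w)

end Pool.AAT
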