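import Pool.Agent.AAT.Defs
import Pool.Agent.AAT.HtA
import Pool.Agent.AAT.RTD
import Pool.Agent.AAT.ChainP
import Pool.Agent.AAT.Rad

/-!
# AAH-UnH: every orientation of a rooted tree by leaf stages

PLAN. All stages are leaf stages (`leaf = fun _ => true`): `m = n + 1`, root stage `0`,
`st i = m - hgt p i` for `i ≠ r` (`hgt p i < n` by `hgt_lt`, so `1 ≤ st i`). `hgt_parent`:
`st (p i) < st i` (also if `p i = r`). Gate `g i = p i`, `h = ht p e r`, `d = dep p r`
(`dep_parent`, `ht_parent`; `RT.cov`, `RT.hpm` as in `RtRad.lean`). `cost _ _ _ true = 4 t - 2 ≤ 4 t`,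
`cnt st s - 1 = #{i ≠ r | st i ≤ s}`; `Σ_{s=1}^{m} 4 #{i ≠ r | st i ≤ s} = 4 Σ_{i ≠ r} #{s ∈ [1,m] | m - hgt p i ≤ s}`
`= 4 Σ_{i≠r} (hgt p i + 1)`, and the `+ 1` of `chainP` is covered by the term of the root.
-/

set_option autoImplicit false

namespace Pool.AAT

open Finset
open scoped Classical

/-- the leaf stages -/
private noncomputable def stU {n : ℕ} (r : Fin n) (p : Fin n → Fin n) (i : Fin n) : ℕ :=
  if i = r then 0 else n + 1 - hgt p i

private theorem stU_root {n : ℕ} (r : Fin n) (p : Fin n → Fin n) : stU r p r = 0 := by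
  unfold stU; simp

private theorem hgt_lt_n {n : ℕ} (p : Fin n → Fin n) (i : Fin n) : hgt p i < n := by
  have h3 := hgt_lt p i
  have h4 : (fr p i).card ≤ n := by
    simpa using Finset.card_le_univ (fr p i)
  omega

private theorem stU_ne {n : ℕ} (r : Fin n) (p : Fin n → Fin n) (i : Fin n) (hi : i ≠ r) :
    stU r p i = n + 1 - hgt p i := by
  unfold stU; rw [if_neg hi]

private theorem stU_bd {n : ℕ} (r : Fin n) (p : Fin n → Fin n) (i : Fin n) (hi : i ≠ r) :
    1 ≤ stU r p i ∧ stU r p i ≤ n + 1 := by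
  have h1 := hgt_lt_n p i
  rw [stU_ne r p i hi]
  omega

private theorem stU_lt {n : ℕ} (r : Fin n) (p : Fin n → Fin n) (hp : p ∈ Forest univ {r})
    (i : Fin n) (hi : i ≠ r) : stU r p (p i) < stU r p i := by
  by_cases h0 : p i = r
  · rw [h0, stU_root]
    exact (stU_bd r p i hi).1
  · have h1 := hgt_parent r p hp i hi
    have h2 := hgt_lt_n p (p i)
    rw [stU_ne r p i hi, stU_ne r p (p i) h0]
    omega

private theorem cntU {n : ℕ} (r : Fin n) (p : Fin n → Fin n) (s : ℕ) :
    cnt (stU r p) s - 1 ≤ ((univ.erase r).filter (fun i => n + 1 - hgt p i ≤ s)).card := by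
  unfold cnt
  have : (univ.filter (fun i => stU r p i ≤ s)) ⊆ insert r ((univ.erase r).filter
      (fun i => n + 1 - hgt p i ≤ s)) := by
    intro i hi
    rw [Finset.mem_filter] at hi
    rw [Finset.mem_insert, Finset.mem_filter, Finset.mem_erase]
    by_cases hr : i = r
    · exact Or.inl hr
    right
    refine ⟨⟨hr, Finset.mem_univ _⟩, ?_⟩
    have h2 := hi.2
    rw [stU_ne r p i hr] at h2
    exact h2
  have h3 := (Finset.card_le_card this).trans (Finset.card_insert_le _ _)
  omega

private theorem costU {n : ℕ} (r : Fin n) (p : Fin n → Fin n) :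
    ∑ s ∈ Icc 1 (n + 1), cost (cnt (stU r p) s - 1) 0 0 true ≤
      4 * ∑ v ∈ univ.erase r, (hgt p v + 1) := by
  have h1 : ∀ s ∈ Icc 1 (n + 1), cost (cnt (stU r p) s - 1) 0 0 true ≤
      4 * ∑ i ∈ univ.erase r, if n + 1 - hgt p i ≤ s then 1 else 0 := by
    intro s _
    have h2 := cntU r p s
    rw [Finset.card_filter] at h2
    unfold cost
    rw [if_pos rfl]
    omega
  refine (Finset.sum_le_sum h1).trans ?_
  rw [← Finset.mul_sum, Finset.sum_comm]
  refine Nat.mul_le_mul_left _ (Finset.sum_le_sum fun i _ => ?_)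
  have h2 := hgt_lt_n p i
  rw [← Finset.card_filter]
  have h3 : (Icc 1 (n + 1)).filter (fun s => n + 1 - hgt p i ≤ s) = Icc (n + 1 - hgt p i) (n + 1) := by
    ext s
    rw [Finset.mem_filter, Finset.mem_Icc, Finset.mem_Icc]
    omega
  rw [h3, Nat.card_Icc]
  omega

theorem unav_sum {n : ℕ} (r : Fin n) (p : Fin n → Fin n) (hp : p ∈ Forest univ {r})
    (e : Fin n → Bool) :
    Unavoidable n (treeOf r p e) (4 * ∑ v : Fin n, (hgt p v + 1)) := by
  refine chainP n (treeOf r p e) r p (dep p r) (ht p e r) (n + 1) (stU r p) p (fun _ => 0)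
    (fun _ => 0) (fun _ => true) ?_ _ ?_
  · refine { rank := ?_, cov := ?_, hpm := ?_, st0 := stU_root r p, st1 := stU_bd r p,
             stm := ?_, g1 := ?_, g2 := ?_, range := ?_, leafc := ?_ }
    · intro i hi
      have := dep_parent r p hp i hi
      omega
    · intro x y hxy
      rcases hxy with ⟨h1, h2, h3⟩ | ⟨h1, h2, h3⟩
      · right
        refine ⟨h1, h2, ?_⟩
        have h4 := ht_parent r p hp e x h1
        rw [h3, h2] at h4
        unfold sg at h4
        simp at h4
        omega
      · left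
        refine ⟨h1, h2, ?_⟩
        have h4 := ht_parent r p hp e y h1
        rw [h3, h2] at h4
        unfold sg at h4
        simpa using h4
    · intro i hi
      have h4 := ht_parent r p hp e i hi
      unfold sg at h4
      split at h4
      · left; exact h4
      · right; omega
    · intro i hi
      exact (stU_lt r p hp i hi).le
    · intro i _ _
      rfl
    · intro i hi h
      have := stU_lt r p hp i hi
      omega
    · intro i _ h
      exact absurd h (by simp)
    · intro i hi _
      exact stU_lt r p hp i hi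
  · have h1 := costU r p
    have h2 : ∑ v : Fin n, (hgt p v + 1) = (hgt p r + 1) + ∑ v ∈ univ.erase r, (hgt p v + 1) :=
      (Finset.add_sum_erase _ _ (Finset.mem_univ r)).symm
    rw [h2]
    exact (Nat.add_le_add_right h1 1).trans (by omega)

end Pool.AAT
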