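import Pool.Agent.AAT.Defs
import Pool.Agent.AAT.TreeA
import Pool.Agent.AAT.TreeB
import Pool.Agent.AAT.TreeC
import Pool.Agent.AAH.HDefs
import Pool.Agent.AAH.UnH
import Pool.Agent.AAH.DistH

/-!
# AAH-Det: the deterministic theorem

PLAN. `T` with `fromRel T.Adj = G`, `G` a tree, is an oriented tree (`OTree n T`): `otree_exists` gives
`p ∈ Forest univ {r}` and `e` with `treeOf r p e = T`; by `fromRel_treeOf`
`G = fromRel (a ≠ r ∧ p a = b)`, so `ghgt G r v = hgt p v` (`ghgt_eq`); `unav_sum`, and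
`Unavoidable n T c` is monotone in `c`.
-/

set_option autoImplicit false

namespace Pool.AAT

open Finset
open scoped Classical

theorem detG (n : ℕ) (G : SimpleGraph (Fin n)) (hG : G.IsTree) (r : Fin n) (c : ℕ)
    (hc : 4 * ∑ v : Fin n, (ghgt G r v + 1) ≤ c) : AllOr n G c := by
  intro T hT hTG
  have hO : OTree n T := ⟨hT, by rw [hTG]; exact hG⟩
  obtain ⟨p, hp, e, rfl⟩ := otree_exists r T hO
  rw [fromRel_treeOf r p e] at hTG
  subst hTG
  intro V _ D hD
  refine unav_sum r p hp e V D (le_trans ?_ hD)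
  have h1 : ∑ v : Fin n, (ghgt (SimpleGraph.fromRel (fun a b : Fin n => a ≠ r ∧ p a = b)) r v + 1) =
      ∑ v : Fin n, (hgt p v + 1) :=
    Finset.sum_congr rfl fun v _ => by rw [ghgt_eq r p hp v]
  rw [h1] at hc
  exact_mod_cast hc

end Pool.AAT
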