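import Pool.Agent.AAT.Defs
import Pool.Agent.AAT.TreeC
import Pool.Agent.AAH.HDefs
import Pool.Agent.AAH.ConcH
import Pool.Agent.AAH.Det

/-!
# AAH-FinC: all orientations of almost all trees

The concentration bound `concH` for the sum of the heights together with the deterministic theorem
`detG`, counted with `card_trees`.
-/

set_option autoImplicit false

namespace Pool.AAT

open Finset
open scoped Classical

private theorem finC_tree {n : ℕ} (r : Fin n) (p : Fin n → Fin n) (hp : p ∈ Forest univ {r}) :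
    (SimpleGraph.fromRel (fun a b : Fin n => a ≠ r ∧ p a = b)).IsTree := by
  have h := (treeOf_otree r p hp (fun _ => true)).2
  rw [fromRel_treeOf] at h
  exact h

private theorem finC_log {n : ℕ} (hn : 2 ≤ n) :
    1 ≤ Nat.log 2 n ∧ Real.log n ≤ 2 * (Nat.log 2 n : ℝ) := by
  have h1 : 1 ≤ Nat.log 2 n := Nat.log_pos (by norm_num) hn
  refine ⟨h1, ?_⟩
  have h2 : n < 2 ^ (Nat.log 2 n + 1) := Nat.lt_pow_succ_log_self (by norm_num) n
  have h3 : (n : ℝ) ≤ (2 : ℝ) ^ (Nat.log 2 n + 1) := by exact_mod_cast h2.le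
  have h4 : (0 : ℝ) < n := by
    have : 0 < n := by omega
    exact_mod_cast this
  have h5 := Real.log_le_log h4 h3
  rw [Real.log_pow] at h5
  have h6 : Real.log 2 ≤ 1 := by
    have := Real.log_two_lt_d9
    linarith
  have h7 : (1 : ℝ) ≤ (Nat.log 2 n : ℝ) := by exact_mod_cast h1
  push_cast at h5
  have h8 : ((Nat.log 2 n : ℝ) + 1) * Real.log 2 ≤ ((Nat.log 2 n : ℝ) + 1) * 1 :=
    mul_le_mul_of_nonneg_left h6 (by linarith)
  linarith

private theorem finC_det {n : ℕ} (hn : 2 ≤ n) {C : ℝ} (hC : 0 < C) (r : Fin n)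
    (p : Fin n → Fin n) (hp : p ∈ Forest univ {r})
    (h : ∑ v : Fin n, (hgt p v : ℝ) ≤ C * (n : ℝ) * Real.log (n : ℝ)) :
    AllOr n (SimpleGraph.fromRel (fun a b : Fin n => a ≠ r ∧ p a = b))
      ((⌈8 * C⌉₊ + 4) * n * Nat.log 2 n) := by
  refine detG n _ (finC_tree r p hp) r _ ?_
  have h1 : ∑ v : Fin n, (ghgt (SimpleGraph.fromRel (fun a b : Fin n => a ≠ r ∧ p a = b)) r v + 1) =
      ∑ v : Fin n, hgt p v + n := by
    rw [Finset.sum_add_distrib]
    congr 1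
    · exact Finset.sum_congr rfl fun v _ => ghgt_eq r p hp v
    · simp
  rw [h1]
  obtain ⟨hL, hlog⟩ := finC_log hn
  have hL' : (1 : ℝ) ≤ (Nat.log 2 n : ℝ) := by exact_mod_cast hL
  have hn0 : (0 : ℝ) ≤ (n : ℝ) := Nat.cast_nonneg n
  have h2 : ((∑ v : Fin n, hgt p v : ℕ) : ℝ) ≤ 2 * C * (n * (Nat.log 2 n : ℝ)) := by
    push_cast
    refine h.trans ?_
    have h3 : C * (n : ℝ) * Real.log (n : ℝ) ≤ C * (n : ℝ) * (2 * (Nat.log 2 n : ℝ)) :=
      mul_le_mul_of_nonneg_left hlog (by positivity)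
    refine h3.trans (le_of_eq ?_)
    ring
  have h4 : (n : ℝ) ≤ n * (Nat.log 2 n : ℝ) := le_mul_of_one_le_right hn0 hL'
  have h5 : 8 * C ≤ (⌈8 * C⌉₊ : ℝ) := Nat.le_ceil _
  have h6 : 8 * C * (n * (Nat.log 2 n : ℝ)) ≤ (⌈8 * C⌉₊ : ℝ) * (n * (Nat.log 2 n : ℝ)) :=
    mul_le_mul_of_nonneg_right h5 (by positivity)
  have h7 : ((4 * (∑ v : Fin n, hgt p v + n) : ℕ) : ℝ) ≤
      (((⌈8 * C⌉₊ + 4) * n * Nat.log 2 n : ℕ) : ℝ) := by
    rw [Nat.cast_mul, Nat.cast_add, Nat.cast_mul, Nat.cast_mul, Nat.cast_add]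
    have h8 : ((⌈8 * C⌉₊ : ℝ) + ((4 : ℕ) : ℝ)) * (n : ℝ) * (Nat.log 2 n : ℝ) =
        (⌈8 * C⌉₊ : ℝ) * (n * (Nat.log 2 n : ℝ)) + 4 * (n * (Nat.log 2 n : ℝ)) := by
      push_cast
      ring
    rw [h8]
    have h9 : ((4 : ℕ) : ℝ) = 4 := by norm_num
    rw [h9]
    linarith
  exact_mod_cast h7

private theorem finC_card {n : ℕ} (r : Fin n) (Q : SimpleGraph (Fin n) → Prop)
    (s : Finset (Fin n → Fin n))
    (hs : ∀ p, p ∈ s ↔ p ∈ (Forest univ {r} : Finset (Fin n → Fin n)) ∧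
      Q (SimpleGraph.fromRel (fun a b : Fin n => a ≠ r ∧ p a = b))) :
    s.card = {G : SimpleGraph (Fin n) | G.IsTree ∧ Q G}.ncard := by
  rw [← card_trees r Q]
  congr 1
  ext p
  rw [hs, Finset.mem_filter]

theorem finC : ∃ C : ℕ, Filter.Tendsto (fun n : ℕ =>
    ({G : SimpleGraph (Fin n) | G.IsTree ∧ ¬ AllOr n G (C * n * Nat.log 2 n)}.ncard : ℝ) /
      ({G : SimpleGraph (Fin n) | G.IsTree}.ncard : ℝ)) Filter.atTop (nhds 0) := by
  obtain ⟨C, hC, H⟩ := concH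
  refine ⟨⌈8 * C⌉₊ + 4, ?_⟩
  rw [Metric.tendsto_atTop]
  intro ε hε
  obtain ⟨n0, hn0⟩ := H (ε / 2) (by positivity)
  refine ⟨max n0 2, ?_⟩
  intro n hn
  have hn2 : 2 ≤ n := le_trans (le_max_right _ _) hn
  have hnn : n0 ≤ n := le_trans (le_max_left _ _) hn
  obtain ⟨r⟩ : Nonempty (Fin n) := ⟨⟨0, by omega⟩⟩
  have h1 := hn0 (Fin n) (by rw [Fintype.card_fin]; exact hnn) r
  rw [Fintype.card_fin] at h1
  have h2 := finC_card r (fun G => ¬ AllOr n G ((⌈8 * C⌉₊ + 4) * n * Nat.log 2 n))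
    ((Forest univ {r} : Finset (Fin n → Fin n)).filter (fun p => ¬ AllOr n
      (SimpleGraph.fromRel (fun a b : Fin n => a ≠ r ∧ p a = b))
      ((⌈8 * C⌉₊ + 4) * n * Nat.log 2 n))) (fun p => Finset.mem_filter)
  have h3 := finC_card r (fun _ => True) (Forest univ {r}) (fun p => by simp)
  have h6 : {G : SimpleGraph (Fin n) | G.IsTree ∧ True} = {G : SimpleGraph (Fin n) | G.IsTree} := by
    ext T; simp
  rw [h6] at h3
  have h5 : {G : SimpleGraph (Fin n) | G.IsTree ∧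
      ¬ AllOr n G ((⌈8 * C⌉₊ + 4) * n * Nat.log 2 n)}.ncard ≤
      ((Forest univ {r} : Finset (Fin n → Fin n)).filter
        (fun p => C * (n : ℝ) * Real.log (n : ℝ) < ∑ v : Fin n, (hgt p v : ℝ))).card := by
    rw [← h2]
    apply Finset.card_le_card
    intro p hp
    rw [Finset.mem_filter] at hp ⊢
    refine ⟨hp.1, ?_⟩
    by_contra hle
    exact hp.2 (finC_det hn2 hC r p hp.1 (not_lt.1 hle))
  set A := {G : SimpleGraph (Fin n) | G.IsTree ∧
      ¬ AllOr n G ((⌈8 * C⌉₊ + 4) * n * Nat.log 2 n)}.ncard with hA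
  set B := {G : SimpleGraph (Fin n) | G.IsTree}.ncard with hB
  have h7 : (A : ℝ) ≤ ε / 2 * B := by
    rw [← h3]
    exact (Nat.cast_le.mpr h5).trans h1
  rw [Real.dist_eq, sub_zero, abs_of_nonneg (by positivity)]
  rcases Nat.eq_zero_or_pos B with h0 | h0
  · rw [h0]
    simpa using hε
  · rw [div_lt_iff₀ (by exact_mod_cast h0)]
    have : (0 : ℝ) < B := by exact_mod_cast h0
    nlinarith

end Pool.AAT
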